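import Pool.Agent.Lib.MP_f4ebb7_co.V.Erd

/-!
# For fixed `Q` the bad integers have density zero
-/

set_option autoImplicit false

namespace Pool.Agent.Lib.MP_f4ebb7_co.V

open Finset

open Classical in
/-- the integers `m = α β ≤ X` that come from a tuple -/
noncomputable def Bm (Q : ℕ → Prop) (X : ℕ) : Finset ℕ :=
  (Icc 1 X).filter (fun m => ∃ α β : ℕ, 2 ≤ α ∧ α < β ∧ α * β = m ∧
    ∃ a', 1 ≤ a' ∧ a' < α ∧ Nat.Coprime a' α ∧ InK Q α a' β)

/-- the blocks close to the square root -/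
def I3 (J h : ℕ) : Finset ℕ := (Icc 1 J).filter (fun i => J < 2 * i + 2 + h ∧ 2 * i ≤ J)

theorem card_I3 (J h : ℕ) : (I3 J h).card ≤ h + 2 := by
  have h1 : I3 J h ⊆ Icc ((J - h) / 2) (J / 2) := by
    intro i hi
    unfold I3 at hi
    rw [mem_filter, mem_Icc] at hi
    rw [mem_Icc]
    omega
  have h2 := card_le_card h1
  rw [Nat.card_Icc] at h2
  omega

theorem cover (Q : ℕ → Prop) (X J h R : ℕ) (hX : X < 2 ^ (J + 1)) :
    ((Bm Q X).card : ℝ) ≤ S1 Q X J h + (((Icc 1 X).filter (fun m => R < m.primeFactors.card)).card : ℝ)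
      + ∑ i ∈ I3 J h, ((PR X R i).card : ℝ) := by
  classical
  set A := (Icc 1 J).filter (fun i => 2 * i + 2 + h ≤ J) with hA
  set B1 := A.biUnion (fun i => (Ico (2 ^ i) (2 ^ (i + 1))).biUnion (fun α => (KA Q X α).image (fun β => α * β)))
    with hB1
  set B3 := (I3 J h).biUnion (fun i => (PR X R i).image (fun x => x.1 * x.2)) with hB3
  have hsub : Bm Q X ⊆ (B1 ∪ (Icc 1 X).filter (fun m => R < m.primeFactors.card)) ∪ B3 := by
    intro m hm
    unfold Bm at hm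
    rw [mem_filter, mem_Icc] at hm
    obtain ⟨⟨hm1, hmX⟩, α, β, hα, hαβ, hmul, a', ha'1, ha'α, hcop, hIn⟩ := hm
    have hα0 : 0 < α := by omega
    set i := Nat.log 2 α with hi
    have hi1 : 2 ^ i ≤ α := Nat.pow_log_le_self 2 (by omega)
    have hi2 : α < 2 ^ (i + 1) := Nat.lt_pow_succ_log_self (by norm_num) α
    have hi0 : 1 ≤ i := Nat.log_pos (by norm_num) hα
    have hiJ : 2 * i ≤ J := by
      have h1 : 2 ^ (2 * i) < 2 ^ (J + 1) := by
        calc 2 ^ (2 * i) = (2 ^ i) ^ 2 := by rw [← pow_mul]; congr 1; ring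
          _ ≤ α ^ 2 := Nat.pow_le_pow_left hi1 2
          _ = α * α := sq α
          _ ≤ α * β := Nat.mul_le_mul_left _ hαβ.le
          _ = m := hmul
          _ ≤ X := hmX
          _ < _ := hX
      have h2 := (Nat.pow_lt_pow_iff_right (by norm_num)).1 h1
      omega
    have hβX : β ≤ X / α := by
      rw [Nat.le_div_iff_mul_le hα0, mul_comm, hmul]; exact hmX
    rw [mem_union, mem_union]
    by_cases hR : R < m.primeFactors.card
    · exact Or.inl (Or.inr (mem_filter.2 ⟨mem_Icc.2 ⟨hm1, hmX⟩, hR⟩))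
    · by_cases hih : 2 * i + 2 + h ≤ J
      · refine Or.inl (Or.inl ?_)
        rw [hB1, mem_biUnion]
        refine ⟨i, ?_, ?_⟩
        · rw [hA, mem_filter, mem_Icc]; exact ⟨⟨hi0, by omega⟩, hih⟩
        · rw [mem_biUnion]
          refine ⟨α, mem_Ico.2 ⟨hi1, hi2⟩, ?_⟩
          rw [mem_image]
          refine ⟨β, ?_, hmul⟩
          unfold KA
          rw [mem_filter, mem_range]
          exact ⟨by omega, a', ha'1, ha'α, hcop, hIn⟩
      · refine Or.inr ?_
        rw [hB3, mem_biUnion]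
        refine ⟨i, ?_, ?_⟩
        · unfold I3
          rw [mem_filter, mem_Icc]
          exact ⟨⟨hi0, by omega⟩, by omega, hiJ⟩
        · rw [mem_image]
          refine ⟨⟨α, β⟩, ?_, hmul⟩
          unfold PR
          rw [mem_filter, mem_sigma, mem_Ico, mem_Icc]
          have hβ1 : 1 ≤ β := by omega
          refine ⟨⟨⟨hi1, hi2⟩, hβ1, hβX⟩, ?_⟩
          obtain ⟨a, _, hrel, _⟩ := hIn
          have hcop2 : Nat.Coprime α β := by
            rw [Nat.Coprime]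
            have h1 : Nat.gcd α β ∣ α * a + β * a' :=
              dvd_add ((Nat.gcd_dvd_left _ _).mul_right a) ((Nat.gcd_dvd_right _ _).mul_right a')
            rw [hrel] at h1
            have h2 : Nat.gcd α β ∣ α * β := (Nat.gcd_dvd_left _ _).mul_right β
            exact Nat.dvd_one.1 ((Nat.dvd_add_right h2).1 h1)
          have h1 : m.primeFactors.card = α.primeFactors.card + β.primeFactors.card := by
            rw [← hmul, Nat.Coprime.primeFactors_mul hcop2, Finset.card_union_of_disjoint hcop2.disjoint_primeFactors]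
          simp only
          omega
  have h1 : ((Bm Q X).card : ℝ) ≤ (B1.card : ℝ) + (((Icc 1 X).filter (fun m => R < m.primeFactors.card)).card : ℝ)
      + (B3.card : ℝ) := by
    have h2 := (card_le_card hsub).trans ((card_union_le _ _).trans (Nat.add_le_add_right (card_union_le _ _) _))
    exact_mod_cast h2
  have h2 : (B1.card : ℝ) ≤ S1 Q X J h := by
    unfold S1
    have h3 : B1.card ≤ ∑ i ∈ A, ∑ α ∈ Ico (2 ^ i) (2 ^ (i + 1)), (KA Q X α).card := by
      refine card_biUnion_le.trans (Finset.sum_le_sum fun i _ => ?_)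
      refine card_biUnion_le.trans (Finset.sum_le_sum fun α _ => ?_)
      exact card_image_le
    exact_mod_cast h3
  have h3 : (B3.card : ℝ) ≤ ∑ i ∈ I3 J h, ((PR X R i).card : ℝ) := by
    have h4 : B3.card ≤ ∑ i ∈ I3 J h, (PR X R i).card := by
      refine card_biUnion_le.trans (Finset.sum_le_sum fun i _ => ?_)
      exact card_image_le
    exact_mod_cast h4
  linarith

theorem log_small : Filter.Tendsto (fun J : ℕ => Real.log (J : ℝ) ^ 2 * (J : ℝ) ^ (-(1 / 100 : ℝ)))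
    Filter.atTop (nhds 0) := by
  have h1 := (isLittleO_log_rpow_atTop (show (0 : ℝ) < 1 / 200 by norm_num)).tendsto_div_nhds_zero
  have h3 : Filter.Tendsto (fun J : ℕ => (Real.log (J : ℝ) / (J : ℝ) ^ (1 / 200 : ℝ)) ^ 2) Filter.atTop (nhds 0) := by
    have := (h1.pow 2).comp (tendsto_natCast_atTop_atTop (R := ℝ))
    simpa [Function.comp_def] using this
  refine h3.congr' ?_
  filter_upwards [Filter.eventually_gt_atTop 0] with J hJ
  have hJ0 : (0 : ℝ) < J := by exact_mod_cast hJ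
  rw [div_pow, div_eq_mul_inv]
  congr 1
  rw [← Real.rpow_natCast, ← Real.rpow_mul hJ0.le, ← Real.rpow_neg hJ0.le]
  norm_num

/-- **for fixed `Q` the bad integers have density zero** -/
theorem Bm_small {Q : ℕ → Prop} (hQ : Dens Q) (ε : ℝ) (hε : 0 < ε) :
    ∃ X0 : ℕ, ∀ X : ℕ, X0 ≤ X → ((Bm Q X).card : ℝ) ≤ ε * X := by
  classical
  obtain ⟨C1, hC1, J1, hS1⟩ := S1_le hQ
  obtain ⟨C2, hC2, hmany⟩ := many_factors
  obtain ⟨C3, hC3, hnear⟩ := near_sqrt
  obtain ⟨J2, hJ21, hJ2⟩ := rt_tendsto (max J1 1)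
  set C : ℝ := 4 * C1 + C2 + 3 * C3 with hCdef
  have hCpos : 0 < C := by positivity
  have hev := log_small.eventually_lt_const (show (0 : ℝ) < ε / C by positivity)
  obtain ⟨J3, hJ3⟩ := Filter.eventually_atTop.1 hev
  refine ⟨2 ^ (max (max J2 J3) 100), fun X hX => ?_⟩
  set J := Nat.log 2 X with hJdef
  have hX0 : X ≠ 0 := by
    have : 0 < 2 ^ (max (max J2 J3) 100) := by positivity
    omega
  have hJlo : 2 ^ J ≤ X := Nat.pow_log_le_self 2 hX0
  have hJhi : X < 2 ^ (J + 1) := Nat.lt_pow_succ_log_self (by norm_num) X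
  have hJge : max (max J2 J3) 100 ≤ J := by
    have h1 := Nat.log_mono_right (b := 2) hX
    rwa [Nat.log_pow (by norm_num)] at h1
  have hJJ2 : J2 ≤ J := (le_max_left _ _).trans ((le_max_left _ _).trans hJge)
  have hJJ3 : J3 ≤ J := (le_max_right _ _).trans ((le_max_left _ _).trans hJge)
  have hJ100 : 100 ≤ J := (le_max_right _ _).trans hJge
  set h := rt J with hh
  have hhJ1 : J1 ≤ h := (le_max_left _ _).trans (hJ2 J hJJ2)
  have hh1 : 1 ≤ h := (le_max_right _ _).trans (hJ2 J hJJ2)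
  have hhpow : h ^ 10 ≤ J := rt_pow_le J
  have hhJ : h ≤ J := (Nat.le_self_pow (by norm_num) h).trans hhpow
  have h3h : 3 + 3 * h ≤ J := by
    rcases Nat.lt_or_ge h 2 with h1 | h1
    · omega
    · have h2 : 2 ^ 9 * h ≤ h ^ 10 := by
        calc 2 ^ 9 * h ≤ h ^ 9 * h := Nat.mul_le_mul_right _ (Nat.pow_le_pow_left h1 9)
          _ = h ^ 10 := by ring
      omega
  have hJr : (0 : ℝ) < J := by exact_mod_cast (by omega : 0 < J)
  have hJr1 : (1 : ℝ) ≤ J := by exact_mod_cast (by omega : 1 ≤ J)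
  have hhr : (0 : ℝ) < h := by exact_mod_cast hh1
  have hlogJ : 1 ≤ Real.log J := one_le_log (by omega)
  set R := ⌊(5 / 4 : ℝ) * Real.log J⌋₊ with hR
  have hR1 : (5 / 4 : ℝ) * Real.log J ≤ (R : ℝ) + 1 := (Nat.lt_floor_add_one _).le
  have hR2 : (R : ℝ) ≤ 5 / 4 * Real.log J := Nat.floor_le (by positivity)
  have hcov := cover Q X J h R hJhi
  have hX0r : (0 : ℝ) ≤ X := Nat.cast_nonneg X
  set W : ℝ := (J : ℝ) ^ (-(1 / 100 : ℝ)) with hW
  have hW0 : 0 ≤ W := Real.rpow_nonneg hJr.le _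
  set L2 : ℝ := Real.log J ^ 2 with hL2
  have hL21 : 1 ≤ L2 := one_le_pow₀ hlogJ
  -- part 1
  have hp1 : S1 Q X J h ≤ 4 * C1 * (L2 * W) * X := by
    refine (hS1 J X h hhJ1 hhJ hJlo).trans ?_
    have e1 : (J : ℝ) ^ (-(7 / 40 : ℝ)) ≤ W := Real.rpow_le_rpow_of_exponent_le hJr1 (by norm_num)
    have e2 : (J : ℝ) ^ (-(1 / 8 : ℝ)) ≤ W := Real.rpow_le_rpow_of_exponent_le hJr1 (by norm_num)
    have e3 : (h : ℝ) ^ (-(1 / 10 : ℝ)) ≤ 2 * W := by
      have e4 : (J : ℝ) ≤ 1024 * (h : ℝ) ^ 10 := by exact_mod_cast le_two_rt (by omega : 1 ≤ J)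
      have e5 : (1024 * (h : ℝ) ^ 10) ^ (-(1 / 100 : ℝ)) ≤ W := Real.rpow_le_rpow_of_nonpos hJr e4 (by norm_num)
      rw [Real.mul_rpow (by norm_num) (by positivity)] at e5
      have e6 : ((h : ℝ) ^ 10) ^ (-(1 / 100 : ℝ)) = (h : ℝ) ^ (-(1 / 10 : ℝ)) := by
        rw [← Real.rpow_natCast, ← Real.rpow_mul hhr.le]; norm_num
      rw [e6] at e5
      have e7 : (1 : ℝ) / 2 ≤ (1024 : ℝ) ^ (-(1 / 100 : ℝ)) := by
        have e8 : (1024 : ℝ) ^ (-(1 / 100 : ℝ)) = 2 ^ (-(1 / 10 : ℝ)) := by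
          rw [show (1024 : ℝ) = 2 ^ (10 : ℝ) by norm_num, ← Real.rpow_mul (by norm_num)]
          norm_num
        rw [e8]
        have e9 : (1 : ℝ) / 2 = 2 ^ (-(1 : ℝ)) := by rw [Real.rpow_neg_one]; norm_num
        rw [e9]
        exact Real.rpow_le_rpow_of_exponent_le (by norm_num) (by norm_num)
      have e10 : 0 ≤ (h : ℝ) ^ (-(1 / 10 : ℝ)) := Real.rpow_nonneg hhr.le _
      nlinarith
    calc X * (C1 * L2 * ((J : ℝ) ^ (-(7 / 40 : ℝ)) + (h : ℝ) ^ (-(1 / 10 : ℝ)) + (J : ℝ) ^ (-(1 / 8 : ℝ))))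
        ≤ X * (C1 * L2 * (W + 2 * W + W)) := by
          refine mul_le_mul_of_nonneg_left (mul_le_mul_of_nonneg_left ?_ (by positivity)) hX0r
          linarith
      _ = 4 * C1 * (L2 * W) * X := by ring
  -- part 2
  have hp2 : (((Icc 1 X).filter (fun m => R < m.primeFactors.card)).card : ℝ) ≤ C2 * (L2 * W) * X := by
    have hX2 : 2 ≤ X := by
      calc 2 = 2 ^ 1 := by norm_num
        _ ≤ 2 ^ J := Nat.pow_le_pow_right (by norm_num) (by omega)
        _ ≤ X := hJlo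
    refine (hmany J X R (by omega) hX2 hJhi.le hR1).trans ?_
    have e1 : (J : ℝ) ^ (-(1 / 40 : ℝ)) ≤ W := Real.rpow_le_rpow_of_exponent_le hJr1 (by norm_num)
    have e2 : W ≤ L2 * W := by nlinarith
    calc C2 * X * (J : ℝ) ^ (-(1 / 40 : ℝ)) ≤ C2 * X * (L2 * W) :=
          mul_le_mul_of_nonneg_left (e1.trans e2) (by positivity)
      _ = _ := by ring
  -- part 3
  have hp3 : ∑ i ∈ I3 J h, ((PR X R i).card : ℝ) ≤ 3 * C3 * (L2 * W) * X := by
    have e1 : ∀ i ∈ I3 J h, ((PR X R i).card : ℝ) ≤ C3 * X * 2 ^ R / J := by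
      intro i hi
      unfold I3 at hi
      rw [mem_filter, mem_Icc] at hi
      exact hnear J X R i hJ100 hJlo (by omega) hi.2.2
    refine (Finset.sum_le_sum e1).trans ?_
    rw [Finset.sum_const, nsmul_eq_mul]
    have e2 : ((I3 J h).card : ℝ) ≤ 3 * (h : ℝ) := by
      have e3 : (I3 J h).card ≤ 3 * h := (card_I3 J h).trans (by omega)
      exact_mod_cast e3
    have e3 : (h : ℝ) ≤ (J : ℝ) ^ (1 / 10 : ℝ) := by
      have e4 : (h : ℝ) ^ 10 ≤ J := by exact_mod_cast hhpow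
      calc (h : ℝ) = ((h : ℝ) ^ 10) ^ (1 / 10 : ℝ) := by
            rw [← Real.rpow_natCast, ← Real.rpow_mul hhr.le]; norm_num
        _ ≤ (J : ℝ) ^ (1 / 10 : ℝ) := Real.rpow_le_rpow (by positivity) e4 (by norm_num)
    have e4 : (2 : ℝ) ^ R ≤ (J : ℝ) ^ (87 / 100 : ℝ) := by
      have hl2 : Real.log 2 < 0.694 := by have := Real.log_two_lt_d9; linarith
      have hl20 : 0 < Real.log 2 := Real.log_pos (by norm_num)
      rw [Real.rpow_def_of_pos hJr, ← Real.exp_log (show (0 : ℝ) < 2 ^ R by positivity), Real.exp_le_exp, Real.log_pow]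
      calc (R : ℝ) * Real.log 2 ≤ (5 / 4 * Real.log J) * Real.log 2 := mul_le_mul_of_nonneg_right hR2 hl20.le
        _ ≤ (5 / 4 * Real.log J) * 0.694 := mul_le_mul_of_nonneg_left hl2.le (by positivity)
        _ ≤ Real.log J * (87 / 100) := by nlinarith
    have e5 : (J : ℝ) ^ (1 / 10 : ℝ) * (J : ℝ) ^ (87 / 100 : ℝ) / J ≤ W := by
      have e6 : (J : ℝ) ^ (1 / 10 : ℝ) * (J : ℝ) ^ (87 / 100 : ℝ) / J = (J : ℝ) ^ (-(3 / 100 : ℝ)) := by
        rw [← Real.rpow_add hJr]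
        have : (J : ℝ) ^ (1 / 10 + 87 / 100 : ℝ) / J = (J : ℝ) ^ (1 / 10 + 87 / 100 : ℝ) / (J : ℝ) ^ (1 : ℝ) := by
          rw [Real.rpow_one]
        rw [this, ← Real.rpow_sub hJr]
        norm_num
      rw [e6]
      exact Real.rpow_le_rpow_of_exponent_le hJr1 (by norm_num)
    have e6 : W ≤ L2 * W := by nlinarith
    calc ((I3 J h).card : ℝ) * (C3 * X * 2 ^ R / J)
        ≤ (3 * (h : ℝ)) * (C3 * X * 2 ^ R / J) := mul_le_mul_of_nonneg_right e2 (by positivity)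
      _ ≤ (3 * (J : ℝ) ^ (1 / 10 : ℝ)) * (C3 * X * (J : ℝ) ^ (87 / 100 : ℝ) / J) := by gcongr
      _ = 3 * C3 * X * ((J : ℝ) ^ (1 / 10 : ℝ) * (J : ℝ) ^ (87 / 100 : ℝ) / J) := by ring
      _ ≤ 3 * C3 * X * (L2 * W) := mul_le_mul_of_nonneg_left (e5.trans e6) (by positivity)
      _ = _ := by ring
  have hsmall := hJ3 J hJJ3
  have hfin : C * (L2 * W) ≤ ε := by
    rw [lt_div_iff₀ hCpos] at hsmall
    rw [hL2, hW]
    linarith
  calc ((Bm Q X).card : ℝ) ≤ 4 * C1 * (L2 * W) * X + C2 * (L2 * W) * X + 3 * C3 * (L2 * W) * X :=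
        hcov.trans (add_le_add (add_le_add hp1 hp2) hp3)
    _ = C * (L2 * W) * X := by rw [hCdef]; ring
    _ ≤ ε * X := mul_le_mul_of_nonneg_right hfin hX0r

end Pool.Agent.Lib.MP_f4ebb7_co.V
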