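import Pool.Agent.Lib.MP_f4ebb7_co.V.Est

/-!
# The count of the pairs `(α, β)` with `α` in a dyadic block
-/

set_option autoImplicit false

namespace Pool.Agent.Lib.MP_f4ebb7_co.V

open Finset

/-- `k ^ (-3/4)` -/
noncomputable def rr (k : ℕ) : ℝ := (k : ℝ) ^ (-(3 / 4 : ℝ))

theorem rr_nonneg (k : ℕ) : 0 ≤ rr k := Real.rpow_nonneg (Nat.cast_nonneg k) _

/-- the density hypothesis on `Q` -/
def Dens (Q : ℕ → Prop) : Prop := ∃ C : ℝ, ∀ z : ℕ, 2 ≤ z → 3 / 4 * Real.log (Real.log z) - C ≤ reP Q z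

theorem exp_reP {Q : ℕ → Prop} (hQ : Dens Q) : ∃ C : ℝ, 0 < C ∧ ∀ k : ℕ, 1 ≤ k →
    Real.exp (-reP Q (2 ^ k)) ≤ C * rr k := by
  obtain ⟨C0, hC0⟩ := hQ
  refine ⟨Real.exp C0 * (Real.log 2) ^ (-(3 / 4 : ℝ)), ?_, ?_⟩
  · have : 0 < Real.log 2 := Real.log_pos (by norm_num)
    positivity
  · intro k hk
    have hk0 : (0 : ℝ) < k := by exact_mod_cast hk
    have hl2 : 0 < Real.log 2 := Real.log_pos (by norm_num)
    have h1 := hC0 (2 ^ k) (by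
      calc 2 = 2 ^ 1 := by norm_num
        _ ≤ 2 ^ k := Nat.pow_le_pow_right (by norm_num) hk)
    push_cast at h1
    rw [Real.log_pow, Real.log_mul hk0.ne' hl2.ne'] at h1
    calc Real.exp (-reP Q (2 ^ k)) ≤ Real.exp (C0 + (-(3 / 4 : ℝ)) * Real.log (Real.log 2) + (-(3 / 4 : ℝ)) * Real.log k) := by
          rw [Real.exp_le_exp]; linarith
      _ = Real.exp C0 * (Real.log 2) ^ (-(3 / 4 : ℝ)) * rr k := by
          rw [Real.exp_add, Real.exp_add]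
          unfold rr
          rw [Real.rpow_def_of_pos hl2, Real.rpow_def_of_pos hk0, mul_comm (Real.log (Real.log 2)), mul_comm (Real.log (k : ℝ))]

/-- the choice of `m = s / 8` is admissible for large `s` -/
theorem m_ok : ∃ s0 : ℕ, ∀ s : ℕ, s0 ≤ s →
    (Real.exp 1 + 1) * ∑ q ∈ Nat.primesLE (2 ^ s ^ 9), (1 : ℝ) / q ≤ 2 * ((s / 8 : ℕ) : ℝ) := by
  obtain ⟨C1, hC1⟩ := mertens_up
  have hlim : Filter.Tendsto (fun s : ℝ => Real.log s / s) Filter.atTop (nhds 0) := by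
    have := Real.isLittleO_log_id_atTop
    exact this.tendsto_div_nhds_zero
  have h1 : ∀ᶠ s : ℝ in Filter.atTop, Real.log s / s < 1 / 400 := hlim.eventually_lt_const (by norm_num)
  have h2 : ∀ᶠ s : ℕ in Filter.atTop, Real.log s / s < 1 / 400 := (tendsto_natCast_atTop_atTop).eventually h1
  have h3 : ∀ᶠ s : ℕ in Filter.atTop, 40 * |C1| + 100 ≤ (s : ℝ) :=
    tendsto_natCast_atTop_atTop.eventually_ge_atTop _
  obtain ⟨s0, hs0⟩ := Filter.eventually_atTop.1 (h2.and h3)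
  refine ⟨max s0 1, fun s hs => ?_⟩
  obtain ⟨h4, h5⟩ := hs0 s ((le_max_left _ _).trans hs)
  have hs1 : 1 ≤ s := (le_max_right _ _).trans hs
  have hs' : (0 : ℝ) < s := by exact_mod_cast hs1
  have hz2 : 2 ≤ 2 ^ s ^ 9 := by
    calc 2 = 2 ^ 1 := by norm_num
      _ ≤ 2 ^ s ^ 9 := Nat.pow_le_pow_right (by norm_num) (Nat.one_le_pow _ _ hs1)
  have h6 := hC1 (2 ^ s ^ 9) hz2
  have hl2 : 0 < Real.log 2 := Real.log_pos (by norm_num)
  have hl2' : Real.log 2 ≤ 1 := by have := Real.log_two_lt_d9; linarith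
  have h7 : Real.log (Real.log ((2 ^ s ^ 9 : ℕ) : ℝ)) ≤ 9 * Real.log s := by
    push_cast
    rw [Real.log_pow]
    push_cast
    have h8 : (s : ℝ) ^ 9 * Real.log 2 ≤ (s : ℝ) ^ 9 := by
      have : 0 ≤ (s : ℝ) ^ 9 := by positivity
      nlinarith
    calc Real.log ((s : ℝ) ^ 9 * Real.log 2) ≤ Real.log ((s : ℝ) ^ 9) := Real.log_le_log (by positivity) h8
      _ = 9 * Real.log s := by rw [Real.log_pow]; push_cast; ring
  have hls : Real.log s ≤ s / 400 := by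
    rw [div_lt_iff₀ hs'] at h4
    linarith
  have he : Real.exp 1 < 3 := by have := Real.exp_one_lt_d9; linarith
  have hC : C1 ≤ |C1| := le_abs_self _
  have hsum0 : 0 ≤ ∑ q ∈ Nat.primesLE (2 ^ s ^ 9), (1 : ℝ) / q := Finset.sum_nonneg fun q _ => by positivity
  have h9 : (s : ℝ) / 8 - 1 ≤ ((s / 8 : ℕ) : ℝ) := by
    have h10 : s ≤ 8 * (s / 8) + 7 := by omega
    have h11 : (s : ℝ) ≤ 8 * ((s / 8 : ℕ) : ℝ) + 7 := by exact_mod_cast h10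
    linarith
  have h10 : (Real.exp 1 + 1) * ∑ q ∈ Nat.primesLE (2 ^ s ^ 9), (1 : ℝ) / q
      ≤ 4 * ∑ q ∈ Nat.primesLE (2 ^ s ^ 9), (1 : ℝ) / q := mul_le_mul_of_nonneg_right (by linarith) hsum0
  have h11 : ∑ q ∈ Nat.primesLE (2 ^ s ^ 9), (1 : ℝ) / q ≤ 9 * (s / 400) + |C1| := by
    linarith
  linarith

open Classical in
/-- **the estimate for fixed `α`, `a'`** -/
theorem fix_est {Q : ℕ → Prop} (hQ : Dens Q) : ∃ C : ℝ, 0 < C ∧ ∃ s0 : ℕ, 1 ≤ s0 ∧ ∀ s J X α a' : ℕ,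
    s0 ≤ s → 3 ≤ J → 2 ≤ α → α ≤ 2 ^ (2 * J + 2) → 1 ≤ a' → a' < α → Nat.Coprime a' α →
    ((((range (X / α + 1)).filter (fun β => InK Q α a' β)).card : ℕ) : ℝ)
      ≤ (((X / α ^ 2 + 1 : ℕ) : ℝ)) * gz Q (2 ^ s ^ 9) a' * (C * Real.log J ^ 2 * rr (s ^ 9))
        + 3 * 2 ^ ((s ^ 9 + 1) * (2 * (s / 8))) := by
  obtain ⟨C1, hC1, hE⟩ := exp_reP hQ
  obtain ⟨C2, hC2, hF⟩ := exp_primeFactors
  obtain ⟨s0, hs0⟩ := m_ok
  refine ⟨2 * Real.exp 1 * C1 * C2 ^ 2, by positivity, max s0 1, le_max_right _ _, ?_⟩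
  intro s J X α a' hs hJ hα hαJ ha'1 ha'α hcop
  have hs1 : 1 ≤ s := (le_max_right _ _).trans hs
  set z := 2 ^ s ^ 9 with hz
  set m := s / 8 with hm
  set c := α - a' with hc
  have hc0 : c ≠ 0 := by omega
  have h1 := fix_count Q X α a' z m hα ha'α hcop
  have h2 := MF_le Q z a' c m (hs0 s ((le_max_left _ _).trans hs))
  have h3 := PP_sum_ge Q z a' c (by omega) hc0
  have h4 := hF J a' hJ ha'1 (by omega)
  have h5 := hF J c hJ (by omega) (by omega)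
  have h6 := hE (s ^ 9) (Nat.one_le_pow _ _ hs1)
  rw [← hz] at h6
  have hlogJ : 1 ≤ Real.log J := one_le_log hJ
  have h7 : MF Q z a' c m ≤ 2 * Real.exp 1 * C1 * C2 ^ 2 * Real.log J ^ 2 * rr (s ^ 9) := by
    calc MF Q z a' c m ≤ 2 * Real.exp (-∑ q ∈ PP Q z a' c, (1 / (q : ℝ) - 1 / (q : ℝ) ^ 2)) := h2
      _ ≤ 2 * Real.exp (1 + ∑ q ∈ a'.primeFactors, (1 : ℝ) / q + ∑ q ∈ c.primeFactors, (1 : ℝ) / q + -reP Q z) := by
          refine mul_le_mul_of_nonneg_left (Real.exp_le_exp.2 ?_) (by norm_num)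
          linarith
      _ = 2 * (Real.exp 1 * Real.exp (∑ q ∈ a'.primeFactors, (1 : ℝ) / q)
            * Real.exp (∑ q ∈ c.primeFactors, (1 : ℝ) / q) * Real.exp (-reP Q z)) := by
          rw [Real.exp_add, Real.exp_add, Real.exp_add]
      _ ≤ 2 * (Real.exp 1 * (C2 * Real.log J) * (C2 * Real.log J) * (C1 * rr (s ^ 9))) := by
          refine mul_le_mul_of_nonneg_left ?_ (by norm_num)
          have hr := rr_nonneg (s ^ 9)
          gcongr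
      _ = _ := by ring
  have h8 : (0 : ℝ) ≤ ((X / α ^ 2 + 1 : ℕ) : ℝ) / ee Q z a' := by positivity
  refine h1.trans (add_le_add ?_ ?_)
  · calc ((X / α ^ 2 + 1 : ℕ) : ℝ) / ee Q z a' * MF Q z a' c m
        ≤ ((X / α ^ 2 + 1 : ℕ) : ℝ) / ee Q z a' * (2 * Real.exp 1 * C1 * C2 ^ 2 * Real.log J ^ 2 * rr (s ^ 9)) :=
          mul_le_mul_of_nonneg_left h7 h8
      _ = _ := by unfold gz; ring
  · refine mul_le_mul_of_nonneg_left ?_ (by norm_num)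
    have h9 := card_PP_le Q z a' c (Nat.one_le_two_pow)
    have h10 : (2 * ((PP Q z a' c).card : ℝ) + 1) ≤ (2 : ℝ) ^ (s ^ 9 + 1) := by
      have h11 : ((2 * (PP Q z a' c).card + 1 : ℕ) : ℝ) ≤ ((2 * z : ℕ) : ℝ) := by exact_mod_cast h9
      push_cast at h11
      rw [hz] at h11
      push_cast at h11
      rw [pow_succ]
      linarith
    calc (2 * ((PP Q z a' c).card : ℝ) + 1) ^ (2 * m) ≤ ((2 : ℝ) ^ (s ^ 9 + 1)) ^ (2 * m) :=
          pow_le_pow_left₀ (by positivity) h10 _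
      _ = 2 ^ ((s ^ 9 + 1) * (2 * m)) := by rw [← pow_mul]

open Classical in
/-- the set of `β` for a given `α` -/
noncomputable def KA (Q : ℕ → Prop) (X α : ℕ) : Finset ℕ :=
  (range (X / α + 1)).filter (fun β => ∃ a', 1 ≤ a' ∧ a' < α ∧ Nat.Coprime a' α ∧ InK Q α a' β)

/-- **the estimate for fixed `α`** -/
theorem KA_est {Q : ℕ → Prop} (hQ : Dens Q) : ∃ C : ℝ, 0 < C ∧ ∃ s0 : ℕ, 1 ≤ s0 ∧ ∀ s J X α k : ℕ,
    s0 ≤ s → 3 ≤ J → 2 ≤ α → α ≤ 2 ^ (2 * J + 2) → α ^ 2 ≤ X → 1 ≤ k → k ≤ s ^ 9 → 2 ^ k ≤ α →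
    ((KA Q X α).card : ℝ)
      ≤ (X : ℝ) / α * (C * Real.log J ^ 2 * rr (s ^ 9) * rr k) + 3 * α * 2 ^ ((s ^ 9 + 1) * (2 * (s / 8))) := by
  classical
  obtain ⟨C1, hC1, s0, hs01, hfix⟩ := fix_est hQ
  obtain ⟨C2, hC2, hsum⟩ := sum_gz_le
  obtain ⟨C3, hC3, hE⟩ := exp_reP hQ
  refine ⟨2 * C1 * C2 * C3, by positivity, s0, hs01, ?_⟩
  intro s J X α k hs hJ hα hαJ hαX hk hks hkα
  have hα0 : (0 : ℝ) < α := by exact_mod_cast (by omega : 0 < α)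
  set z := 2 ^ s ^ 9 with hz
  set F : ℝ := C1 * Real.log J ^ 2 * rr (s ^ 9) with hF
  set K : ℝ := 3 * 2 ^ ((s ^ 9 + 1) * (2 * (s / 8))) with hK
  set N : ℝ := ((X / α ^ 2 + 1 : ℕ) : ℝ) with hN
  have hlogJ : 1 ≤ Real.log J := one_le_log hJ
  have hF0 : 0 ≤ F := by
    have := rr_nonneg (s ^ 9)
    positivity
  have hcover : KA Q X α ⊆ ((Icc 1 α).filter (fun a' => a' < α ∧ Nat.Coprime a' α)).biUnion
      (fun a' => (range (X / α + 1)).filter (fun β => InK Q α a' β)) := by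
    intro β hβ
    unfold KA at hβ
    rw [mem_filter] at hβ
    obtain ⟨h1, a', h2, h3, h4, h5⟩ := hβ
    rw [mem_biUnion]
    refine ⟨a', mem_filter.2 ⟨mem_Icc.2 ⟨h2, h3.le⟩, h3, h4⟩, mem_filter.2 ⟨h1, h5⟩⟩
  have h1 : ((KA Q X α).card : ℝ) ≤ ∑ a' ∈ (Icc 1 α).filter (fun a' => a' < α ∧ Nat.Coprime a' α),
      ((((range (X / α + 1)).filter (fun β => InK Q α a' β)).card : ℕ) : ℝ) := by
    exact_mod_cast (card_le_card hcover).trans card_biUnion_le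
  have h2 : ∑ a' ∈ (Icc 1 α).filter (fun a' => a' < α ∧ Nat.Coprime a' α),
      ((((range (X / α + 1)).filter (fun β => InK Q α a' β)).card : ℕ) : ℝ)
      ≤ ∑ a' ∈ (Icc 1 α).filter (fun a' => a' < α ∧ Nat.Coprime a' α), (N * gz Q z a' * F + K) := by
    refine Finset.sum_le_sum fun a' ha' => ?_
    rw [mem_filter, mem_Icc] at ha'
    exact hfix s J X α a' hs hJ hα hαJ ha'.1.1 ha'.2.1 ha'.2.2
  have hK0 : 0 ≤ K := by positivity
  have hN0 : 0 ≤ N := Nat.cast_nonneg _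
  have h3 : ∑ a' ∈ (Icc 1 α).filter (fun a' => a' < α ∧ Nat.Coprime a' α), (N * gz Q z a' * F + K)
      ≤ ∑ a' ∈ Icc 1 α, (N * gz Q z a' * F + K) := by
    refine Finset.sum_le_sum_of_subset_of_nonneg (filter_subset _ _) (fun a' _ _ => ?_)
    have : 0 ≤ gz Q z a' := by unfold gz; positivity
    positivity
  have h4 : ∑ a' ∈ Icc 1 α, (N * gz Q z a' * F + K) = N * F * ∑ a' ∈ Icc 1 α, gz Q z a' + α * K := by
    rw [Finset.sum_add_distrib, Finset.sum_const, Nat.card_Icc, nsmul_eq_mul, Finset.mul_sum]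
    congr 1
    exact Finset.sum_congr rfl fun a' _ => by ring
  have hkz : 2 ^ k ≤ z := Nat.pow_le_pow_right (by norm_num) hks
  have h5 := hsum Q z α (2 ^ k) (by omega) hkz hkα
  have h6 := hE k hk
  have h7 : ∑ a' ∈ Icc 1 α, gz Q z a' ≤ C2 * α * (C3 * rr k) :=
    h5.trans (mul_le_mul_of_nonneg_left h6 (by positivity))
  have h8 : N ≤ 2 * (X : ℝ) / (α : ℝ) ^ 2 := by
    have h9 : ((X / α ^ 2 : ℕ) : ℝ) ≤ (X : ℝ) / ((α ^ 2 : ℕ) : ℝ) := Nat.cast_div_le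
    push_cast at h9
    have h10 : (1 : ℝ) ≤ (X : ℝ) / (α : ℝ) ^ 2 := by
      rw [le_div_iff₀ (by positivity), one_mul]
      exact_mod_cast hαX
    rw [hN]
    push_cast
    calc ((X / α ^ 2 : ℕ) : ℝ) + 1 ≤ (X : ℝ) / (α : ℝ) ^ 2 + (X : ℝ) / (α : ℝ) ^ 2 := add_le_add h9 h10
      _ = _ := by ring
  have hr := rr_nonneg k
  have hgz0 : 0 ≤ ∑ a' ∈ Icc 1 α, gz Q z a' := Finset.sum_nonneg fun a' _ => by unfold gz; positivity
  calc ((KA Q X α).card : ℝ) ≤ N * F * ∑ a' ∈ Icc 1 α, gz Q z a' + α * K := by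
        rw [← h4]; exact h1.trans (h2.trans h3)
    _ ≤ (2 * (X : ℝ) / (α : ℝ) ^ 2) * F * (C2 * α * (C3 * rr k)) + α * K := by
        gcongr
    _ = _ := by
        rw [hF, hK]
        field_simp

/-- **the estimate for a dyadic block** -/
theorem block_est {Q : ℕ → Prop} (hQ : Dens Q) : ∃ C : ℝ, 0 < C ∧ ∃ s0 : ℕ, 1 ≤ s0 ∧ ∀ s J X i : ℕ,
    s0 ≤ s → 3 ≤ J → 1 ≤ i → 2 * i + 2 ≤ J → 2 ^ J ≤ X →
    ∑ α ∈ Ico (2 ^ i) (2 ^ (i + 1)), ((KA Q X α).card : ℝ)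
      ≤ X * (C * Real.log J ^ 2 * rr (s ^ 9) * rr (min (s ^ 9) i))
        + 3 * 2 ^ (2 * i + 1 + (s ^ 9 + 1) * (2 * (s / 8))) := by
  obtain ⟨C, hC, s0, hs01, h⟩ := KA_est hQ
  refine ⟨C, hC, s0, hs01, ?_⟩
  intro s J X i hs hJ hi hiJ hX
  have hs1 : 1 ≤ s := hs01.trans hs
  set k := min (s ^ 9) i with hk
  have hk1 : 1 ≤ k := le_min (Nat.one_le_pow _ _ hs1) hi
  set F : ℝ := C * Real.log J ^ 2 * rr (s ^ 9) * rr k with hF
  have hF0 : 0 ≤ F := by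
    have h1 := rr_nonneg (s ^ 9)
    have h2 := rr_nonneg k
    positivity
  set E := (s ^ 9 + 1) * (2 * (s / 8)) with hE
  have h1 : ∀ α ∈ Ico (2 ^ i) (2 ^ (i + 1)), ((KA Q X α).card : ℝ)
      ≤ (X : ℝ) / 2 ^ i * F + 3 * 2 ^ (i + 1) * 2 ^ E := by
    intro α hα
    rw [mem_Ico] at hα
    have hα2 : 2 ≤ α := by
      calc 2 = 2 ^ 1 := by norm_num
        _ ≤ 2 ^ i := Nat.pow_le_pow_right (by norm_num) hi
        _ ≤ α := hα.1
    have hαsq : α ^ 2 ≤ X := by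
      calc α ^ 2 ≤ (2 ^ (i + 1)) ^ 2 := Nat.pow_le_pow_left hα.2.le 2
        _ = 2 ^ (2 * i + 2) := by rw [← pow_mul]; congr 1; ring
        _ ≤ 2 ^ J := Nat.pow_le_pow_right (by norm_num) hiJ
        _ ≤ X := hX
    have hαJ : α ≤ 2 ^ (2 * J + 2) := by
      calc α ≤ 2 ^ (i + 1) := hα.2.le
        _ ≤ 2 ^ (2 * J + 2) := Nat.pow_le_pow_right (by norm_num) (by omega)
    have hkα : 2 ^ k ≤ α := (Nat.pow_le_pow_right (by norm_num) (min_le_right _ _)).trans hα.1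
    have h2 := h s J X α k hs hJ hα2 hαJ hαsq hk1 (min_le_left _ _) hkα
    refine h2.trans ?_
    have hα0 : (0 : ℝ) < α := by exact_mod_cast (by omega : 0 < α)
    have hlo : (2 : ℝ) ^ i ≤ α := by exact_mod_cast hα.1
    have hup : (α : ℝ) ≤ 2 ^ (i + 1) := by exact_mod_cast hα.2.le
    refine add_le_add ?_ ?_
    · refine mul_le_mul_of_nonneg_right ?_ hF0
      exact div_le_div_of_nonneg_left (Nat.cast_nonneg X) (by positivity) hlo
    · gcongr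
  refine (Finset.sum_le_sum h1).trans ?_
  rw [Finset.sum_const, nsmul_eq_mul, Nat.card_Ico]
  have h2 : 2 ^ (i + 1) - 2 ^ i = 2 ^ i := by rw [pow_succ]; omega
  rw [h2]
  push_cast
  have h3 : (2 : ℝ) ^ i * ((X : ℝ) / 2 ^ i * F + 3 * 2 ^ (i + 1) * 2 ^ E) = X * F + 3 * (2 ^ i * 2 ^ (i + 1) * 2 ^ E) := by
    field_simp
  rw [h3, ← pow_add, ← pow_add]
  have h4 : i + (i + 1) + E = 2 * i + 1 + E := by ring
  rw [h4]

end Pool.Agent.Lib.MP_f4ebb7_co.V
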