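import Mathlib

/-!
# Brun's pure sieve: an upper bound
-/

set_option autoImplicit false

namespace Pool.Agent.Lib.MP_f4ebb7_co.V

open Finset

/-- the even Bonferroni inequality -/
theorem bonf {α : Type*} [DecidableEq α] (x : Finset α) (m : ℕ) :
    (if x = ∅ then (1 : ℝ) else 0) ≤ ∑ S ∈ x.powerset, (if S.card ≤ 2 * m then (-1 : ℝ) ^ S.card else 0) := by
  have h1 := Finset.sum_powerset_apply_card (fun j => (if j ≤ 2 * m then (-1 : ℤ) ^ j else 0)) (x := x)
  have h2 : ∑ S ∈ x.powerset, (if S.card ≤ 2 * m then (-1 : ℝ) ^ S.card else 0)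
      = ((∑ S ∈ x.powerset, (if S.card ≤ 2 * m then (-1 : ℤ) ^ S.card else 0) : ℤ) : ℝ) := by
    push_cast
    refine Finset.sum_congr rfl fun S _ => ?_
    split_ifs <;> simp
  rw [h2, h1]
  rcases Nat.eq_zero_or_pos x.card with h0 | h0
  · rw [h0]
    rw [card_eq_zero] at h0
    rw [if_pos h0]
    simp
  · have hx : x ≠ ∅ := by
      rintro rfl; simp at h0
    rw [if_neg hx]
    obtain ⟨n, hn⟩ : ∃ n, x.card = n + 1 := ⟨x.card - 1, by omega⟩
    rw [hn]
    have h3 : ∑ j ∈ range (n + 1 + 1), (n + 1).choose j • (if j ≤ 2 * m then (-1 : ℤ) ^ j else 0)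
        = ∑ j ∈ range (2 * m + 1), ((-1) ^ j * (n + 1).choose j : ℤ) := by
      have h4 : ∀ K : ℕ, n + 1 ≤ K → 2 * m ≤ K →
          ∑ j ∈ range (n + 1 + 1), (n + 1).choose j • (if j ≤ 2 * m then (-1 : ℤ) ^ j else 0)
          = ∑ j ∈ range (K + 1), (n + 1).choose j • (if j ≤ 2 * m then (-1 : ℤ) ^ j else 0) := by
        intro K hK _
        refine Finset.sum_subset (fun j hj => ?_) (fun j _ hj => ?_)
        · rw [mem_range] at hj ⊢; omega
        · rw [mem_range, not_lt] at hj
          rw [Nat.choose_eq_zero_of_lt (by omega), zero_smul]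
      have h5 : ∀ K : ℕ, 2 * m ≤ K → ∑ j ∈ range (2 * m + 1), ((-1) ^ j * (n + 1).choose j : ℤ)
          = ∑ j ∈ range (K + 1), (n + 1).choose j • (if j ≤ 2 * m then (-1 : ℤ) ^ j else 0) := by
        intro K hK
        have h6 : ∑ j ∈ range (2 * m + 1), ((-1) ^ j * (n + 1).choose j : ℤ)
            = ∑ j ∈ range (2 * m + 1), (n + 1).choose j • (if j ≤ 2 * m then (-1 : ℤ) ^ j else 0) := by
          refine Finset.sum_congr rfl fun j hj => ?_
          rw [mem_range] at hj
          rw [if_pos (by omega), nsmul_eq_mul, mul_comm]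
        rw [h6]
        refine Finset.sum_subset (fun j hj => ?_) (fun j _ hj => ?_)
        · rw [mem_range] at hj ⊢; omega
        · rw [mem_range, not_lt] at hj
          rw [if_neg (by omega), smul_zero]
      rw [h4 (n + 1 + 2 * m) (by omega) (by omega), h5 (n + 1 + 2 * m) (by omega)]
    rw [h3, Int.alternating_sum_range_choose_eq_choose, pow_mul]
    norm_num

section
variable {τ : Type*} [DecidableEq τ]

open Classical in
/-- **Brun's pure sieve**, abstract form -/
theorem brun (T : Finset τ) (P : Finset ℕ) (A : ℕ → τ → Prop) (g : ℕ → ℝ) (N : ℝ) (hN : 0 ≤ N) (m : ℕ)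
    (hg : ∀ q ∈ P, 0 ≤ g q)
    (hcount : ∀ S ⊆ P, |((T.filter (fun t => ∀ q ∈ S, A q t)).card : ℝ) - N * ∏ q ∈ S, g q| ≤ 2 ^ S.card) :
    ((T.filter (fun t => ∀ q ∈ P, ¬ A q t)).card : ℝ)
      ≤ N * (∏ q ∈ P, (1 - g q) + Real.exp (-(2 * m : ℝ)) * Real.exp (Real.exp 1 * ∑ q ∈ P, g q))
        + 3 * (2 * P.card + 1) ^ (2 * m) := by
  -- bound by the truncated sum
  have h1 : ((T.filter (fun t => ∀ q ∈ P, ¬ A q t)).card : ℝ)
      ≤ ∑ S ∈ P.powerset, (if S.card ≤ 2 * m then (-1 : ℝ) ^ S.card else 0)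
        * ((T.filter (fun t => ∀ q ∈ S, A q t)).card : ℝ) := by
    have h2 : ((T.filter (fun t => ∀ q ∈ P, ¬ A q t)).card : ℝ)
        = ∑ t ∈ T, (if P.filter (fun q => A q t) = ∅ then (1 : ℝ) else 0) := by
      rw [Finset.sum_boole]
      congr 2
      ext t
      simp only [mem_filter, Finset.filter_eq_empty_iff]
    rw [h2]
    refine (Finset.sum_le_sum fun t _ => bonf (P.filter (fun q => A q t)) m).trans (le_of_eq ?_)
    have h3 : ∀ t ∈ T, ∑ S ∈ (P.filter (fun q => A q t)).powerset, (if S.card ≤ 2 * m then (-1 : ℝ) ^ S.card else 0)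
        = ∑ S ∈ P.powerset, (if S.card ≤ 2 * m then (-1 : ℝ) ^ S.card else 0) * (if ∀ q ∈ S, A q t then 1 else 0) := by
      intro t _
      rw [← Finset.sum_filter_add_sum_filter_not P.powerset (fun S => ∀ q ∈ S, A q t)]
      have h4 : ∑ S ∈ P.powerset.filter (fun S => ¬ ∀ q ∈ S, A q t),
          (if S.card ≤ 2 * m then (-1 : ℝ) ^ S.card else 0) * (if ∀ q ∈ S, A q t then 1 else 0) = 0 := by
        refine Finset.sum_eq_zero fun S hS => ?_
        rw [if_neg (mem_filter.1 hS).2, mul_zero]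
      rw [h4, add_zero]
      have h5 : (P.filter (fun q => A q t)).powerset = P.powerset.filter (fun S => ∀ q ∈ S, A q t) := by
        ext S
        simp only [mem_powerset, mem_filter, Finset.subset_iff]
        constructor
        · intro h; exact ⟨fun q hq => (h hq).1, fun q hq => (h hq).2⟩
        · rintro ⟨h6, h7⟩ q hq; exact ⟨h6 hq, h7 q hq⟩
      rw [h5]
      refine Finset.sum_congr rfl fun S hS => ?_
      rw [if_pos (mem_filter.1 hS).2, mul_one]
    rw [Finset.sum_congr rfl h3, Finset.sum_comm]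
    refine Finset.sum_congr rfl fun S _ => ?_
    rw [← Finset.mul_sum, Finset.sum_boole]
  refine h1.trans ?_
  -- replace the counts
  have h2 : ∀ S ∈ P.powerset, (if S.card ≤ 2 * m then (-1 : ℝ) ^ S.card else 0)
        * ((T.filter (fun t => ∀ q ∈ S, A q t)).card : ℝ)
      ≤ (if S.card ≤ 2 * m then (-1 : ℝ) ^ S.card else 0) * (N * ∏ q ∈ S, g q)
        + (if S.card ≤ 2 * m then (2 : ℝ) ^ S.card else 0) := by
    intro S hS
    rw [mem_powerset] at hS
    split_ifs with h
    · have h3 := hcount S hS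
      have h4 : (-1 : ℝ) ^ S.card * ((T.filter (fun t => ∀ q ∈ S, A q t)).card : ℝ)
          - (-1 : ℝ) ^ S.card * (N * ∏ q ∈ S, g q) ≤ 2 ^ S.card := by
        rw [← mul_sub]
        refine (le_abs_self _).trans ?_
        rw [abs_mul, abs_pow, abs_neg, abs_one, one_pow, one_mul]
        exact h3
      linarith
    · simp
  refine (Finset.sum_le_sum h2).trans ?_
  rw [Finset.sum_add_distrib]
  refine add_le_add ?_ ?_
  · -- main term
    have h3 : ∑ S ∈ P.powerset, (if S.card ≤ 2 * m then (-1 : ℝ) ^ S.card else 0) * (N * ∏ q ∈ S, g q)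
        = N * ∑ S ∈ P.powerset, (if S.card ≤ 2 * m then (-1 : ℝ) ^ S.card else 0) * ∏ q ∈ S, g q := by
      rw [Finset.mul_sum]
      exact Finset.sum_congr rfl fun S _ => by ring
    rw [h3]
    refine mul_le_mul_of_nonneg_left ?_ hN
    have h4 : ∏ q ∈ P, (1 - g q) = ∑ S ∈ P.powerset, (-1 : ℝ) ^ S.card * ∏ q ∈ S, g q := by
      rw [Finset.prod_sub]
      refine Finset.sum_congr rfl fun S _ => ?_
      rw [Finset.prod_const_one, mul_one]
    have h5 : Real.exp (Real.exp 1 * ∑ q ∈ P, g q) ≥ ∑ S ∈ P.powerset, ∏ q ∈ S, (Real.exp 1 * g q) := by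
      rw [← Finset.prod_one_add, Finset.mul_sum, Real.exp_sum]
      refine Finset.prod_le_prod (fun q hq => ?_) (fun q hq => ?_)
      · have := mul_nonneg (Real.exp_pos 1).le (hg q hq)
        linarith
      · have := Real.add_one_le_exp (Real.exp 1 * g q)
        linarith
    have h6 : ∀ S ∈ P.powerset, (if S.card ≤ 2 * m then (-1 : ℝ) ^ S.card else 0) * ∏ q ∈ S, g q
        ≤ (-1 : ℝ) ^ S.card * ∏ q ∈ S, g q + Real.exp (-(2 * m : ℝ)) * ∏ q ∈ S, (Real.exp 1 * g q) := by
      intro S hS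
      rw [mem_powerset] at hS
      have hprod : 0 ≤ ∏ q ∈ S, g q := Finset.prod_nonneg fun q hq => hg q (hS hq)
      have hprod' : 0 ≤ ∏ q ∈ S, (Real.exp 1 * g q) :=
        Finset.prod_nonneg fun q hq => mul_nonneg (Real.exp_pos 1).le (hg q (hS hq))
      split_ifs with h
      · have : 0 ≤ Real.exp (-(2 * m : ℝ)) * ∏ q ∈ S, (Real.exp 1 * g q) := mul_nonneg (Real.exp_pos _).le hprod'
        linarith
      · rw [zero_mul]
        have h7 : ∏ q ∈ S, g q ≤ Real.exp (-(2 * m : ℝ)) * ∏ q ∈ S, (Real.exp 1 * g q) := by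
          rw [Finset.prod_mul_distrib, Finset.prod_const, ← Real.exp_nat_mul, ← mul_assoc, ← Real.exp_add, mul_one]
          have h8 : (1 : ℝ) ≤ Real.exp (-(2 * m : ℝ) + (S.card : ℝ)) := by
            apply Real.one_le_exp
            have : ((2 * m : ℕ) : ℝ) ≤ (S.card : ℝ) := by exact_mod_cast (by omega : 2 * m ≤ S.card)
            push_cast at this
            linarith
          calc ∏ q ∈ S, g q = 1 * ∏ q ∈ S, g q := (one_mul _).symm
            _ ≤ _ := mul_le_mul_of_nonneg_right h8 hprod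
        have h9 : -(∏ q ∈ S, g q) ≤ (-1 : ℝ) ^ S.card * ∏ q ∈ S, g q := by
          rcases neg_one_pow_eq_or ℝ S.card with h10 | h10 <;> rw [h10] <;> linarith
        linarith
    refine (Finset.sum_le_sum h6).trans ?_
    rw [Finset.sum_add_distrib, ← h4, ← Finset.mul_sum]
    refine add_le_add le_rfl (mul_le_mul_of_nonneg_left h5 (Real.exp_pos _).le)
  · -- error term
    set n := P.card with hn
    set y : ℝ := 2 * n + 1 with hy
    have hy1 : 1 ≤ y := by
      have : (0 : ℝ) ≤ n := Nat.cast_nonneg n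
      linarith
    have h3 : ∀ S ∈ P.powerset, (if S.card ≤ 2 * m then (2 : ℝ) ^ S.card else 0) ≤ y ^ (2 * m) * ∏ _q ∈ S, (2 / y) := by
      intro S _
      split_ifs with h
      · rw [Finset.prod_const, div_pow, mul_div_assoc']
        rw [le_div_iff₀ (by positivity), mul_comm]
        exact mul_le_mul_of_nonneg_right (pow_le_pow_right₀ hy1 h) (by positivity)
      · positivity
    refine (Finset.sum_le_sum h3).trans ?_
    rw [← Finset.mul_sum, ← Finset.prod_one_add, Finset.prod_const, ← hn, mul_comm]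
    refine mul_le_mul_of_nonneg_right ?_ (by positivity)
    have h4 : (1 + 2 / y) ^ n ≤ Real.exp 1 := by
      have h5 : 1 + 2 / y ≤ Real.exp (2 / y) := by
        have := Real.add_one_le_exp (2 / y)
        linarith
      calc (1 + 2 / y) ^ n ≤ (Real.exp (2 / y)) ^ n := pow_le_pow_left₀ (by positivity) h5 n
        _ = Real.exp (n * (2 / y)) := by rw [Real.exp_nat_mul]
        _ ≤ Real.exp 1 := by
            rw [Real.exp_le_exp, mul_div_assoc', div_le_one (by linarith)]
            linarith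
    have := Real.exp_one_lt_d9
    linarith

end

/-- the number of `t < N` with `D ∣ u + c t` -/
theorem count_dvd (N D u c : ℕ) (hD : 0 < D) (hc : Nat.Coprime c D) :
    |(((range N).filter (fun t => D ∣ u + c * t)).card : ℝ) - (N : ℝ) / D| ≤ 1 := by
  have hDr : (0 : ℝ) < D := by exact_mod_cast hD
  obtain ⟨v, hv⟩ : ∃ v : ℕ, ∀ t : ℕ, D ∣ u + c * t ↔ t ≡ v [MOD D] := by
    have : NeZero D := ⟨hD.ne'⟩
    set cu : (ZMod D)ˣ := ZMod.unitOfCoprime c hc with hcu
    refine ⟨((-(u : ZMod D)) * ((cu⁻¹ : (ZMod D)ˣ) : ZMod D)).val, fun t => ?_⟩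
    have hcc : (c : ZMod D) = (cu : ZMod D) := (ZMod.coe_unitOfCoprime c hc).symm
    rw [← ZMod.natCast_eq_zero_iff, ← ZMod.natCast_eq_natCast_iff, ZMod.natCast_zmod_val]
    push_cast
    rw [hcc]
    constructor
    · intro h
      have h1 : (cu : ZMod D) * t = -u := by
        rw [← sub_eq_zero]
        rw [← h]; ring
      have h2 : ((cu⁻¹ : (ZMod D)ˣ) : ZMod D) * ((cu : ZMod D) * t) = t := by
        rw [← mul_assoc, Units.inv_mul, one_mul]
      rw [← h2, h1, mul_comm]
    · intro h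
      rw [h]
      have h2 : (cu : ZMod D) * (-(u : ZMod D) * ((cu⁻¹ : (ZMod D)ˣ) : ZMod D)) = -u := by
        rw [mul_comm (-(u : ZMod D)), ← mul_assoc, Units.mul_inv, one_mul]
      rw [h2]; ring
  have h1 : ((range N).filter (fun t => D ∣ u + c * t)).card = N.count (fun t => t ≡ v [MOD D]) := by
    rw [Nat.count_eq_card_filter_range]
    congr 1
    ext t
    simp only [mem_filter, hv]
  rw [h1, Nat.count_modEq_card _ hD]
  have h2 : (N : ℝ) = D * ((N / D : ℕ) : ℝ) + ((N % D : ℕ) : ℝ) := by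
    have := Nat.div_add_mod N D
    exact_mod_cast this.symm
  have h3 : ((N % D : ℕ) : ℝ) < D := by exact_mod_cast Nat.mod_lt N hD
  have h4 : (0 : ℝ) ≤ ((N % D : ℕ) : ℝ) := Nat.cast_nonneg _
  have h5 : (N : ℝ) / D = ((N / D : ℕ) : ℝ) + ((N % D : ℕ) : ℝ) / D := by
    conv_lhs => rw [h2]
    field_simp
  have h6 : ((N % D : ℕ) : ℝ) / D < 1 := by rw [div_lt_one hDr]; exact h3
  have h7 : 0 ≤ ((N % D : ℕ) : ℝ) / D := by positivity
  rw [h5, abs_le]
  push_cast
  split_ifs <;> constructor <;> push_cast <;> linarith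

end Pool.Agent.Lib.MP_f4ebb7_co.V
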