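import Pool.Agent.Lib.MP_f4ebb7_co.V.Sum

/-!
# Integers with many prime factors, and integers with a divisor close to the square root
-/

set_option autoImplicit false

namespace Pool.Agent.Lib.MP_f4ebb7_co.V

open Finset

/-- `t ^ ω(m)` -/
noncomputable def gw (t : ℝ) (m : ℕ) : ℝ := t ^ m.primeFactors.card

theorem gw_MulG (t : ℝ) (ht : 0 ≤ t) : MulG t (gw t) := by
  refine ⟨by simp [gw], fun m n h => ?_, fun m => by unfold gw; positivity, fun q a hq ha => ?_⟩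
  · unfold gw
    rw [Nat.Coprime.primeFactors_mul h, Finset.card_union_of_disjoint h.disjoint_primeFactors, pow_add]
  · unfold gw
    rw [Nat.primeFactors_prime_pow (by omega) hq, card_singleton, pow_one]

theorem gw_prime (t : ℝ) {q : ℕ} (hq : q.Prime) : gw t q = t := by
  unfold gw
  rw [hq.primeFactors, card_singleton, pow_one]

/-- the mean value of `2 ^ (-ω)` -/
theorem sum_gw_half : ∃ C : ℝ, 0 < C ∧ ∀ M : ℕ, 2 ≤ M →
    ∑ m ∈ Icc 1 M, gw (1 / 2) m ≤ C * M * (Real.log M) ^ (-(1 / 2 : ℝ)) := by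
  obtain ⟨C0, hC0, hC⟩ := mean_le (K := 1 / 2) (by norm_num)
  refine ⟨C0 * Real.exp (1 / 2), by positivity, ?_⟩
  intro M hM
  have hM2 : (2 : ℝ) ≤ M := by exact_mod_cast hM
  have hlog : 0 < Real.log M := Real.log_pos (by linarith)
  refine (hC (gw (1 / 2)) (gw_MulG _ (by norm_num)) M (by omega)).trans ?_
  have h1 : ∑ q ∈ Nat.primesLE M, (gw (1 / 2) q - 1) / q ≤ 1 / 2 + (-(1 / 2 : ℝ)) * Real.log (Real.log M) := by
    have h2 : ∑ q ∈ Nat.primesLE M, (gw (1 / 2) q - 1) / q = -(1 / 2) * ∑ q ∈ Nat.primesLE M, (1 : ℝ) / q := by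
      rw [Finset.mul_sum]
      refine Finset.sum_congr rfl fun q hq => ?_
      rw [Nat.mem_primesLE] at hq
      rw [gw_prime _ hq.2]
      ring
    have h3 := Pool.MP_67663b_nt.Mert.sum_inv_ge M hM
    have h4 : ∑ q ∈ M.primesBelow, (1 : ℝ) / q ≤ ∑ q ∈ Nat.primesLE M, (1 : ℝ) / q := by
      refine Finset.sum_le_sum_of_subset_of_nonneg ?_ (fun q _ _ => by positivity)
      intro q hq
      rw [Nat.mem_primesLE]
      exact ⟨(Nat.lt_of_mem_primesBelow hq).le, Nat.prime_of_mem_primesBelow hq⟩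
    rw [h2]
    linarith
  calc C0 * M * Real.exp (∑ q ∈ Nat.primesLE M, (gw (1 / 2) q - 1) / q)
      ≤ C0 * M * Real.exp (1 / 2 + (-(1 / 2 : ℝ)) * Real.log (Real.log M)) :=
        mul_le_mul_of_nonneg_left (Real.exp_le_exp.2 h1) (by positivity)
    _ = _ := by
        rw [Real.exp_add, Real.rpow_def_of_pos hlog, mul_comm (-(1 / 2 : ℝ))]
        ring

/-- the mean value of `(5/4) ^ ω` -/
theorem sum_gw_54 : ∃ C : ℝ, 0 < C ∧ ∀ M : ℕ, 2 ≤ M →
    ∑ m ∈ Icc 1 M, gw (5 / 4) m ≤ C * M * (Real.log M) ^ (1 / 4 : ℝ) := by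
  obtain ⟨C0, hC0, hC⟩ := mean_le (K := 5 / 4) (by norm_num)
  obtain ⟨C1, hC1⟩ := mertens_up
  refine ⟨C0 * Real.exp (C1 / 4), by positivity, ?_⟩
  intro M hM
  have hM2 : (2 : ℝ) ≤ M := by exact_mod_cast hM
  have hlog : 0 < Real.log M := Real.log_pos (by linarith)
  refine (hC (gw (5 / 4)) (gw_MulG _ (by norm_num)) M (by omega)).trans ?_
  have h1 : ∑ q ∈ Nat.primesLE M, (gw (5 / 4) q - 1) / q ≤ C1 / 4 + (1 / 4 : ℝ) * Real.log (Real.log M) := by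
    have h2 : ∑ q ∈ Nat.primesLE M, (gw (5 / 4) q - 1) / q = (1 / 4) * ∑ q ∈ Nat.primesLE M, (1 : ℝ) / q := by
      rw [Finset.mul_sum]
      refine Finset.sum_congr rfl fun q hq => ?_
      rw [Nat.mem_primesLE] at hq
      rw [gw_prime _ hq.2]
      ring
    have h3 := hC1 M hM
    rw [h2]
    linarith
  calc C0 * M * Real.exp (∑ q ∈ Nat.primesLE M, (gw (5 / 4) q - 1) / q)
      ≤ C0 * M * Real.exp (C1 / 4 + (1 / 4 : ℝ) * Real.log (Real.log M)) :=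
        mul_le_mul_of_nonneg_left (Real.exp_le_exp.2 h1) (by positivity)
    _ = _ := by
        rw [Real.exp_add, Real.rpow_def_of_pos hlog, mul_comm (1 / 4 : ℝ)]
        ring

theorem log_54 : (2 / 9 : ℝ) < Real.log (5 / 4) := by
  have h1 : Real.exp (2 / 9) < 5 / 4 := by
    have h2 : (Real.exp (2 / 9)) ^ 9 = Real.exp 1 ^ 2 := by
      rw [← Real.exp_nat_mul, ← Real.exp_nat_mul]
      norm_num
    have h3 : Real.exp 1 ^ 2 < (5 / 4) ^ 9 := by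
      have h4 := Real.exp_one_lt_d9
      have h5 : Real.exp 1 ^ 2 < 2.7182818286 ^ 2 := pow_lt_pow_left₀ h4 (Real.exp_pos 1).le (by norm_num)
      refine h5.trans ?_
      norm_num
    rw [← h2] at h3
    exact lt_of_pow_lt_pow_left₀ 9 (by norm_num) h3
  rw [Real.lt_log_iff_exp_lt (by norm_num)]
  exact h1

/-- **few integers have many prime factors** -/
theorem many_factors : ∃ C : ℝ, 0 < C ∧ ∀ J X R : ℕ, 1 ≤ J → 2 ≤ X → X ≤ 2 ^ (J + 1) →
    5 / 4 * Real.log J ≤ (R : ℝ) + 1 →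
    (((Icc 1 X).filter (fun m => R < m.primeFactors.card)).card : ℝ) ≤ C * X * (J : ℝ) ^ (-(1 / 40 : ℝ)) := by
  obtain ⟨C0, hC0, hC⟩ := sum_gw_54
  refine ⟨2 * C0, by positivity, ?_⟩
  intro J X R hJ hX2 hX hR
  have hJ0 : (0 : ℝ) < J := by exact_mod_cast hJ
  have hJ1 : (1 : ℝ) ≤ J := by exact_mod_cast hJ
  have hX0 : (0 : ℝ) < X := by exact_mod_cast (by omega : 0 < X)
  have hl2 : 0 < Real.log 2 := Real.log_pos (by norm_num)
  have hl2' : Real.log 2 ≤ 1 := by have := Real.log_two_lt_d9; linarith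
  have hlX : 0 < Real.log X := Real.log_pos (by exact_mod_cast (by omega : 1 < X))
  have hlogX : Real.log X ≤ 2 * J := by
    calc Real.log X ≤ Real.log ((2 : ℝ) ^ (J + 1)) := Real.log_le_log hX0 (by exact_mod_cast hX)
      _ = (J + 1 : ℕ) * Real.log 2 := by rw [Real.log_pow]
      _ ≤ ((J + 1 : ℕ) : ℝ) * 1 := mul_le_mul_of_nonneg_left hl2' (by positivity)
      _ ≤ 2 * J := by push_cast; linarith
  have h1 : (((Icc 1 X).filter (fun m => R < m.primeFactors.card)).card : ℝ) * (5 / 4) ^ (R + 1)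
      ≤ ∑ m ∈ Icc 1 X, gw (5 / 4) m := by
    calc (((Icc 1 X).filter (fun m => R < m.primeFactors.card)).card : ℝ) * (5 / 4) ^ (R + 1)
        = ∑ _m ∈ (Icc 1 X).filter (fun m => R < m.primeFactors.card), (5 / 4 : ℝ) ^ (R + 1) := by
          rw [Finset.sum_const, nsmul_eq_mul]
      _ ≤ ∑ m ∈ (Icc 1 X).filter (fun m => R < m.primeFactors.card), gw (5 / 4) m := by
          refine Finset.sum_le_sum fun m hm => ?_
          unfold gw
          exact pow_le_pow_right₀ (by norm_num) (mem_filter.1 hm).2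
      _ ≤ _ := Finset.sum_le_sum_of_subset_of_nonneg (filter_subset _ _)
          (fun m _ _ => by unfold gw; positivity)
  have h2 := hC X hX2
  have h3 : (Real.log X) ^ (1 / 4 : ℝ) ≤ 2 * (J : ℝ) ^ (1 / 4 : ℝ) := by
    calc (Real.log X) ^ (1 / 4 : ℝ) ≤ (2 * (J : ℝ)) ^ (1 / 4 : ℝ) :=
          Real.rpow_le_rpow hlX.le hlogX (by norm_num)
      _ = 2 ^ (1 / 4 : ℝ) * (J : ℝ) ^ (1 / 4 : ℝ) := Real.mul_rpow (by norm_num) hJ0.le
      _ ≤ 2 * (J : ℝ) ^ (1 / 4 : ℝ) := by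
          refine mul_le_mul_of_nonneg_right ?_ (Real.rpow_nonneg hJ0.le _)
          calc (2 : ℝ) ^ (1 / 4 : ℝ) ≤ 2 ^ (1 : ℝ) := Real.rpow_le_rpow_of_exponent_le (by norm_num) (by norm_num)
            _ = 2 := Real.rpow_one 2
  have h4 : (J : ℝ) ^ (11 / 40 : ℝ) ≤ (5 / 4 : ℝ) ^ (R + 1) := by
    have hlJ : 0 ≤ Real.log J := Real.log_nonneg hJ1
    have h5 := log_54
    rw [Real.rpow_def_of_pos hJ0, ← Real.exp_log (show (0 : ℝ) < (5 / 4) ^ (R + 1) by positivity), Real.exp_le_exp,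
      Real.log_pow]
    push_cast
    have h6 : (11 / 40 : ℝ) ≤ 5 / 4 * Real.log (5 / 4) := by linarith
    calc Real.log J * (11 / 40) ≤ Real.log J * (5 / 4 * Real.log (5 / 4)) := mul_le_mul_of_nonneg_left h6 hlJ
      _ = (5 / 4 * Real.log J) * Real.log (5 / 4) := by ring
      _ ≤ ((R : ℝ) + 1) * Real.log (5 / 4) := mul_le_mul_of_nonneg_right hR (by linarith)
  set P : ℝ := (((Icc 1 X).filter (fun m => R < m.primeFactors.card)).card : ℝ) with hP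
  have hP0 : 0 ≤ P := Nat.cast_nonneg _
  have hJ11 : 0 < (J : ℝ) ^ (11 / 40 : ℝ) := Real.rpow_pos_of_pos hJ0 _
  have h5 : P * (J : ℝ) ^ (11 / 40 : ℝ) ≤ C0 * X * (2 * (J : ℝ) ^ (1 / 4 : ℝ)) := by
    calc P * (J : ℝ) ^ (11 / 40 : ℝ) ≤ P * (5 / 4) ^ (R + 1) := mul_le_mul_of_nonneg_left h4 hP0
      _ ≤ ∑ m ∈ Icc 1 X, gw (5 / 4) m := h1
      _ ≤ C0 * X * (Real.log X) ^ (1 / 4 : ℝ) := h2
      _ ≤ _ := mul_le_mul_of_nonneg_left h3 (by positivity)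
  have h6 : (J : ℝ) ^ (1 / 4 : ℝ) = (J : ℝ) ^ (-(1 / 40 : ℝ)) * (J : ℝ) ^ (11 / 40 : ℝ) := by
    rw [← Real.rpow_add hJ0]; norm_num
  rw [h6] at h5
  have h7 : P * (J : ℝ) ^ (11 / 40 : ℝ) ≤ (2 * C0 * X * (J : ℝ) ^ (-(1 / 40 : ℝ))) * (J : ℝ) ^ (11 / 40 : ℝ) := by
    refine h5.trans (le_of_eq ?_); ring
  exact le_of_mul_le_mul_right h7 hJ11

open Classical in
/-- pairs `(α, β)` with `α` in the dyadic block `i` and few prime factors -/
noncomputable def PR (X R i : ℕ) : Finset (Σ _ : ℕ, ℕ) :=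
  ((Ico (2 ^ i) (2 ^ (i + 1))).sigma (fun α => Icc 1 (X / α))).filter
    (fun x => x.1.primeFactors.card + x.2.primeFactors.card ≤ R)

/-- **pairs in a block close to the square root** -/
theorem near_sqrt : ∃ C : ℝ, 0 < C ∧ ∀ J X R i : ℕ, 100 ≤ J → 2 ^ J ≤ X → J ≤ 3 * i → 2 * i ≤ J →
    ((PR X R i).card : ℝ) ≤ C * X * 2 ^ R / J := by
  classical
  obtain ⟨C0, hC0, hC⟩ := sum_gw_half
  have hl2 : 0 < Real.log 2 := Real.log_pos (by norm_num)
  refine ⟨24 * C0 ^ 2, by positivity, ?_⟩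
  intro J X R i hJ hX hi3 hi2
  have hJ0 : (0 : ℝ) < J := by exact_mod_cast (by omega : 0 < J)
  have hX0 : (0 : ℝ) ≤ X := Nat.cast_nonneg X
  -- logarithmic factor
  have hlf : ∀ M : ℕ, 2 ^ ((J + 2) / 3) ≤ M → 2 ≤ M ∧ (Real.log M) ^ (-(1 / 2 : ℝ)) ≤ ((J : ℝ) / 6) ^ (-(1 / 2 : ℝ)) := by
    intro M hM
    have h1 : 2 ≤ M := by
      calc 2 = 2 ^ 1 := by norm_num
        _ ≤ 2 ^ ((J + 2) / 3) := Nat.pow_le_pow_right (by norm_num) (by omega)
        _ ≤ M := hM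
    refine ⟨h1, ?_⟩
    have hM0 : (0 : ℝ) < M := by exact_mod_cast (by omega : 0 < M)
    have h2 : (((J + 2) / 3 : ℕ) : ℝ) * Real.log 2 ≤ Real.log M := by
      rw [← Real.log_pow]
      exact Real.log_le_log (by positivity) (by exact_mod_cast hM)
    have h3 : (J : ℝ) ≤ 3 * (((J + 2) / 3 : ℕ) : ℝ) := by
      have : J ≤ 3 * ((J + 2) / 3) := by omega
      exact_mod_cast this
    have h4 : (0.69 : ℝ) < Real.log 2 := by have := Real.log_two_gt_d9; linarith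
    have h5 : (J : ℝ) / 6 ≤ Real.log M := by nlinarith
    exact Real.rpow_le_rpow_of_nonpos (by positivity) h5 (by norm_num)
  set F : ℝ := ((J : ℝ) / 6) ^ (-(1 / 2 : ℝ)) with hF
  have hF0 : 0 ≤ F := Real.rpow_nonneg (by positivity) _
  have hFF : F * F = 6 / J := by
    rw [hF, ← Real.rpow_add (by positivity)]
    have : (-(1 / 2 : ℝ)) + (-(1 / 2 : ℝ)) = -1 := by norm_num
    rw [this, Real.rpow_neg_one]
    field_simp
  -- weights
  have h1 : ((PR X R i).card : ℝ) ≤ 2 ^ R * ∑ α ∈ Ico (2 ^ i) (2 ^ (i + 1)), gw (1 / 2) α * ∑ β ∈ Icc 1 (X / α), gw (1 / 2) β := by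
    have h2 : ((PR X R i).card : ℝ) ≤ ∑ x ∈ PR X R i, 2 ^ R * (gw (1 / 2) x.1 * gw (1 / 2) x.2) := by
      rw [← nsmul_one, ← Finset.sum_const]
      refine Finset.sum_le_sum fun x hx => ?_
      unfold PR at hx
      rw [mem_filter] at hx
      unfold gw
      rw [← pow_add]
      have h3 : (1 / 2 : ℝ) ^ R ≤ (1 / 2) ^ (x.1.primeFactors.card + x.2.primeFactors.card) :=
        pow_le_pow_of_le_one (by norm_num) (by norm_num) hx.2
      have h4 : (1 : ℝ) = 2 ^ R * (1 / 2) ^ R := by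
        rw [← mul_pow]; norm_num
      calc (1 : ℝ) = 2 ^ R * (1 / 2) ^ R := h4
        _ ≤ 2 ^ R * (1 / 2) ^ (x.1.primeFactors.card + x.2.primeFactors.card) :=
          mul_le_mul_of_nonneg_left h3 (by positivity)
    refine h2.trans ?_
    rw [← Finset.mul_sum]
    refine mul_le_mul_of_nonneg_left ?_ (by positivity)
    have h3 : ∑ α ∈ Ico (2 ^ i) (2 ^ (i + 1)), gw (1 / 2) α * ∑ β ∈ Icc 1 (X / α), gw (1 / 2) β
        = ∑ x ∈ (Ico (2 ^ i) (2 ^ (i + 1))).sigma (fun α => Icc 1 (X / α)), gw (1 / 2) x.1 * gw (1 / 2) x.2 := by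
      rw [Finset.sum_sigma]
      refine Finset.sum_congr rfl fun α _ => ?_
      rw [Finset.mul_sum]
    rw [h3]
    refine Finset.sum_le_sum_of_subset_of_nonneg ?_ (fun x _ _ => by unfold gw; positivity)
    unfold PR
    exact filter_subset _ _
  have h2 : ∀ α ∈ Ico (2 ^ i) (2 ^ (i + 1)), gw (1 / 2) α * ∑ β ∈ Icc 1 (X / α), gw (1 / 2) β
      ≤ gw (1 / 2) α * (C0 * (X / 2 ^ i) * F) := by
    intro α hα
    rw [mem_Ico] at hα
    refine mul_le_mul_of_nonneg_left ?_ (by unfold gw; positivity)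
    have hα0 : 0 < α := lt_of_lt_of_le (by positivity) hα.1
    have hge : 2 ^ ((J + 2) / 3) ≤ X / α := by
      rw [Nat.le_div_iff_mul_le hα0]
      calc 2 ^ ((J + 2) / 3) * α ≤ 2 ^ ((J + 2) / 3) * 2 ^ (i + 1) := Nat.mul_le_mul_left _ hα.2.le
        _ = 2 ^ ((J + 2) / 3 + (i + 1)) := by rw [← pow_add]
        _ ≤ 2 ^ J := Nat.pow_le_pow_right (by norm_num) (by omega)
        _ ≤ X := hX
    obtain ⟨h3, h4⟩ := hlf (X / α) hge
    have h5 := hC (X / α) h3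
    have h6 : ((X / α : ℕ) : ℝ) ≤ (X : ℝ) / 2 ^ i := by
      calc ((X / α : ℕ) : ℝ) ≤ (X : ℝ) / α := Nat.cast_div_le
        _ ≤ (X : ℝ) / 2 ^ i := div_le_div_of_nonneg_left hX0 (by positivity) (by exact_mod_cast hα.1)
    have h7 : 0 ≤ (Real.log ((X / α : ℕ) : ℝ)) ^ (-(1 / 2 : ℝ)) :=
      Real.rpow_nonneg (Real.log_natCast_nonneg _) _
    calc ∑ β ∈ Icc 1 (X / α), gw (1 / 2) β ≤ C0 * ((X / α : ℕ) : ℝ) * (Real.log ((X / α : ℕ) : ℝ)) ^ (-(1 / 2 : ℝ)) := h5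
      _ ≤ C0 * (X / 2 ^ i) * F := by gcongr
  have h3 : ∑ α ∈ Ico (2 ^ i) (2 ^ (i + 1)), gw (1 / 2) α ≤ C0 * 2 ^ (i + 1) * F := by
    have h4 : ∑ α ∈ Ico (2 ^ i) (2 ^ (i + 1)), gw (1 / 2) α ≤ ∑ α ∈ Icc 1 (2 ^ (i + 1)), gw (1 / 2) α := by
      refine Finset.sum_le_sum_of_subset_of_nonneg ?_ (fun x _ _ => by unfold gw; positivity)
      intro α hα
      rw [mem_Ico] at hα
      rw [mem_Icc]
      exact ⟨lt_of_lt_of_le (by positivity) hα.1, hα.2.le⟩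
    obtain ⟨h5, h6⟩ := hlf (2 ^ (i + 1)) (Nat.pow_le_pow_right (by norm_num) (by omega))
    have h7 := hC (2 ^ (i + 1)) h5
    refine h4.trans (h7.trans ?_)
    push_cast at h6 ⊢
    exact mul_le_mul_of_nonneg_left h6 (by positivity)
  calc ((PR X R i).card : ℝ)
      ≤ 2 ^ R * ∑ α ∈ Ico (2 ^ i) (2 ^ (i + 1)), gw (1 / 2) α * ∑ β ∈ Icc 1 (X / α), gw (1 / 2) β := h1
    _ ≤ 2 ^ R * ∑ α ∈ Ico (2 ^ i) (2 ^ (i + 1)), gw (1 / 2) α * (C0 * (X / 2 ^ i) * F) :=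
        mul_le_mul_of_nonneg_left (Finset.sum_le_sum h2) (by positivity)
    _ = 2 ^ R * ((∑ α ∈ Ico (2 ^ i) (2 ^ (i + 1)), gw (1 / 2) α) * (C0 * (X / 2 ^ i) * F)) := by
        rw [Finset.sum_mul]
    _ ≤ 2 ^ R * ((C0 * 2 ^ (i + 1) * F) * (C0 * (X / 2 ^ i) * F)) := by gcongr
    _ = 2 * C0 ^ 2 * X * 2 ^ R * (F * F) := by
        rw [pow_succ]
        field_simp
    _ = 12 * C0 ^ 2 * X * 2 ^ R / J := by rw [hFF]; ring
    _ ≤ 24 * C0 ^ 2 * X * 2 ^ R / J := by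
        refine div_le_div_of_nonneg_right ?_ hJ0.le
        have : 0 ≤ C0 ^ 2 * X * 2 ^ R := by positivity
        nlinarith

end Pool.Agent.Lib.MP_f4ebb7_co.V
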