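import Pool.Agent.Lib.MP_f4ebb7_co.HTB

/-!
# The upper bound of Hall and Tenenbaum for multiplicative functions bounded on prime powers
-/

set_option autoImplicit false

namespace Pool.Agent.Lib.MP_f4ebb7_co.V

open Finset

/-- a nonnegative multiplicative function bounded by `K` on the prime powers -/
structure MulG (K : ℝ) (g : ℕ → ℝ) : Prop where
  one : g 1 = 1
  mul : ∀ m n, Nat.Coprime m n → g (m * n) = g m * g n
  nonneg : ∀ m, 0 ≤ g m
  pp : ∀ q a, q.Prime → 1 ≤ a → g (q ^ a) ≤ K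

theorem stepA {K : ℝ} {g : ℕ → ℝ} (hK : 0 ≤ K) (hg : MulG K g) (M : ℕ) :
    ∑ m ∈ Icc 1 M, g m * Real.log m ≤ ∑ b ∈ Icc 1 M, g b * (K * TT (M / b)) := by
  classical
  have h1 : ∑ m ∈ Icc 1 M, g m * Real.log m
      ≤ ∑ x ∈ (Icc 1 M).sigma (fun m => m.primeFactors),
        K * (g (x.1 / x.2 ^ x.1.factorization x.2) * Real.log ((x.2 ^ x.1.factorization x.2 : ℕ) : ℝ)) := by
    rw [Finset.sum_sigma]
    refine Finset.sum_le_sum fun m hm => ?_
    rw [mem_Icc] at hm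
    have hm0 : m ≠ 0 := by omega
    rw [log_eq_sum m hm0, Finset.mul_sum]
    refine Finset.sum_le_sum fun q hq => ?_
    rw [Nat.mem_primeFactors] at hq
    obtain ⟨hqp, hqm, _⟩ := hq
    have hv : 1 ≤ m.factorization q := hqp.factorization_pos_of_dvd hm0 hqm
    have h2 : g m = g (q ^ m.factorization q) * g (m / q ^ m.factorization q) := by
      rw [← hg.mul _ _ (Nat.Coprime.pow_left _ (Nat.coprime_ordCompl hqp hm0)),
        Nat.ordProj_mul_ordCompl_eq_self]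
    rw [h2]
    have h3 := hg.pp q _ hqp hv
    have h4 := hg.nonneg (m / q ^ m.factorization q)
    have h5 : 0 ≤ Real.log ((q ^ m.factorization q : ℕ) : ℝ) := Real.log_natCast_nonneg _
    calc g (q ^ m.factorization q) * g (m / q ^ m.factorization q) * Real.log ((q ^ m.factorization q : ℕ) : ℝ)
        = g (q ^ m.factorization q) * (g (m / q ^ m.factorization q) * Real.log ((q ^ m.factorization q : ℕ) : ℝ)) := by
          ring
      _ ≤ K * (g (m / q ^ m.factorization q) * Real.log ((q ^ m.factorization q : ℕ) : ℝ)) :=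
          mul_le_mul_of_nonneg_right h3 (mul_nonneg h4 h5)
  have h2 : ∑ b ∈ Icc 1 M, g b * (K * TT (M / b))
      = ∑ y ∈ (Icc 1 M).sigma (fun b => (Icc 1 (M / b)).filter IsPrimePow), K * (g y.1 * Real.log (y.2 : ℝ)) := by
    rw [Finset.sum_sigma]
    refine Finset.sum_congr rfl fun b _ => ?_
    unfold TT
    rw [Finset.mul_sum, Finset.mul_sum]
    refine Finset.sum_congr rfl fun w _ => ?_
    ring
  refine h1.trans ?_
  rw [h2]
  set φ : (Σ _ : ℕ, ℕ) → (Σ _ : ℕ, ℕ) := fun x => ⟨x.1 / x.2 ^ x.1.factorization x.2, x.2 ^ x.1.factorization x.2⟩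
    with hφ
  have hinj : Set.InjOn φ ((Icc 1 M).sigma (fun m => m.primeFactors) : Finset (Σ _ : ℕ, ℕ)) := by
    rintro ⟨m, q⟩ hx ⟨m', q'⟩ hx' h
    simp only [Finset.coe_sigma, Set.mem_sigma_iff, mem_coe, mem_Icc, Nat.mem_primeFactors] at hx hx'
    obtain ⟨⟨hm1, hm2⟩, hq, hqm, hm0⟩ := hx
    obtain ⟨⟨hm1', hm2'⟩, hq', hqm', hm0'⟩ := hx'
    simp only [hφ, Sigma.mk.injEq, heq_eq_eq] at h
    obtain ⟨h3, h4⟩ := h
    have h5 : m = m' := by
      rw [← Nat.ordProj_mul_ordCompl_eq_self m q, ← Nat.ordProj_mul_ordCompl_eq_self m' q', h3, h4]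
    have h6 : q = q' := by
      have h7 : q ∣ q' ^ m'.factorization q' := by
        rw [← h4]
        exact dvd_pow_self q (hq.factorization_pos_of_dvd hm0 hqm).ne'
      exact (Nat.prime_dvd_prime_iff_eq hq hq').1 (hq.dvd_of_dvd_pow h7)
    rw [h5, h6]
  have h3 : ∑ x ∈ (Icc 1 M).sigma (fun m => m.primeFactors),
        K * (g (x.1 / x.2 ^ x.1.factorization x.2) * Real.log ((x.2 ^ x.1.factorization x.2 : ℕ) : ℝ))
      = ∑ y ∈ ((Icc 1 M).sigma (fun m => m.primeFactors)).image φ, K * (g y.1 * Real.log (y.2 : ℝ)) := by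
    rw [Finset.sum_image hinj]
  rw [h3]
  refine Finset.sum_le_sum_of_subset_of_nonneg ?_ ?_
  · intro y hy
    rw [mem_image] at hy
    obtain ⟨⟨m, q⟩, hx, rfl⟩ := hy
    rw [mem_sigma, mem_Icc, Nat.mem_primeFactors] at hx
    obtain ⟨⟨hm1, hm2⟩, hq, hqm, hm0⟩ := hx
    simp only at hm1 hm2 hq hqm hm0
    have hb : 0 < m / q ^ m.factorization q := Nat.ordCompl_pos q hm0
    simp only [hφ, mem_sigma, mem_filter, mem_Icc]
    refine ⟨⟨hb, (Nat.ordCompl_le m q).trans hm2⟩, ⟨Nat.ordProj_pos m q, ?_⟩, ?_⟩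
    · rw [Nat.le_div_iff_mul_le hb, Nat.ordProj_mul_ordCompl_eq_self]
      exact hm2
    · exact hq.isPrimePow.pow (hq.factorization_pos_of_dvd hm0 hqm).ne'
  · intro y _ _
    exact mul_nonneg hK (mul_nonneg (hg.nonneg _) (Real.log_natCast_nonneg _))

theorem sum_mul_log_le {K : ℝ} (hK : 0 ≤ K) : ∃ C : ℝ, 0 < C ∧ ∀ (g : ℕ → ℝ) (_ : MulG K g) (M : ℕ), 1 ≤ M →
    (∑ m ∈ Icc 1 M, g m) * Real.log M ≤ C * M * ∑ m ∈ Icc 1 M, g m / m := by
  obtain ⟨C0, hC0, hB⟩ := stepB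
  refine ⟨K * C0 + 1, by positivity, ?_⟩
  intro g hg M hM
  have hM' : (0 : ℝ) < M := by exact_mod_cast hM
  have h1 : (∑ m ∈ Icc 1 M, g m) * Real.log M
      = ∑ m ∈ Icc 1 M, g m * Real.log m + ∑ m ∈ Icc 1 M, g m * Real.log ((M : ℝ) / m) := by
    rw [Finset.sum_mul, ← Finset.sum_add_distrib]
    refine Finset.sum_congr rfl fun m hm => ?_
    rw [mem_Icc] at hm
    have : (0 : ℝ) < m := by exact_mod_cast hm.1
    rw [Real.log_div hM'.ne' this.ne']
    ring
  have h2 : ∑ m ∈ Icc 1 M, g m * Real.log m ≤ K * C0 * M * ∑ m ∈ Icc 1 M, g m / m := by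
    refine (stepA hK hg M).trans ?_
    rw [Finset.mul_sum]
    refine Finset.sum_le_sum fun m hm => ?_
    rw [mem_Icc] at hm
    have hm0 : (0 : ℝ) < m := by exact_mod_cast hm.1
    have h3 : TT (M / m) ≤ C0 * ((M : ℝ) / m) :=
      (hB _).trans (mul_le_mul_of_nonneg_left Nat.cast_div_le hC0.le)
    calc g m * (K * TT (M / m)) ≤ g m * (K * (C0 * ((M : ℝ) / m))) :=
          mul_le_mul_of_nonneg_left (mul_le_mul_of_nonneg_left h3 hK) (hg.nonneg m)
      _ = K * C0 * M * (g m / m) := by ring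
  have h3 : ∑ m ∈ Icc 1 M, g m * Real.log ((M : ℝ) / m) ≤ M * ∑ m ∈ Icc 1 M, g m / m := by
    rw [Finset.mul_sum]
    refine Finset.sum_le_sum fun m hm => ?_
    rw [mem_Icc] at hm
    have hm0 : (0 : ℝ) < m := by exact_mod_cast hm.1
    have h4 := Real.log_le_sub_one_of_pos (div_pos hM' hm0)
    calc g m * Real.log ((M : ℝ) / m) ≤ g m * ((M : ℝ) / m) :=
          mul_le_mul_of_nonneg_left (by linarith) (hg.nonneg m)
      _ = M * (g m / m) := by ring
  rw [h1]
  calc _ ≤ K * C0 * M * ∑ m ∈ Icc 1 M, g m / m + M * ∑ m ∈ Icc 1 M, g m / m := add_le_add h2 h3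
    _ = _ := by ring

theorem term_le {K : ℝ} {g : ℕ → ℝ} (hg : MulG K g) {q : ℕ} (hq : q.Prime) (n : ℕ) :
    g (q ^ n) / ((q ^ n : ℕ) : ℝ) ≤ max 1 K * (1 / (q : ℝ)) ^ n := by
  have hq0 : (0 : ℝ) < q := by exact_mod_cast hq.pos
  have h1 : g (q ^ n) ≤ max 1 K := by
    rcases Nat.eq_zero_or_pos n with rfl | hn
    · rw [pow_zero, hg.one]; exact le_max_left _ _
    · exact (hg.pp q n hq hn).trans (le_max_right _ _)
  push_cast
  rw [one_div, inv_pow, div_eq_mul_inv]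
  exact mul_le_mul_of_nonneg_right h1 (by positivity)

theorem summable_local {K : ℝ} {g : ℕ → ℝ} (hg : MulG K g) {q : ℕ} (hq : q.Prime) :
    Summable (fun n : ℕ => g (q ^ n) / ((q ^ n : ℕ) : ℝ)) := by
  have hq2 : (2 : ℝ) ≤ q := by exact_mod_cast hq.two_le
  have hq0 : (0 : ℝ) < q := by linarith
  have hr : (1 / (q : ℝ)) < 1 := by rw [div_lt_one hq0]; linarith
  have hr0 : 0 ≤ 1 / (q : ℝ) := by positivity
  refine Summable.of_nonneg_of_le (fun n => div_nonneg (hg.nonneg _) (Nat.cast_nonneg _))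
    (fun n => term_le hg hq n) ((summable_geometric_of_lt_one hr0 hr).mul_left _)

theorem local_factor {K : ℝ} {g : ℕ → ℝ} (hK : 0 ≤ K) (hg : MulG K g) {q : ℕ} (hq : q.Prime) :
    ∑' n : ℕ, g (q ^ n) / ((q ^ n : ℕ) : ℝ) ≤ Real.exp (g q / q + K * (1 / ((q : ℝ) * (q - 1)))) := by
  have hq2 : (2 : ℝ) ≤ q := by exact_mod_cast hq.two_le
  have hq0 : (0 : ℝ) < q := by linarith
  have hr : (1 / (q : ℝ)) < 1 := by rw [div_lt_one hq0]; linarith
  have hr0 : 0 ≤ 1 / (q : ℝ) := by positivity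
  have hgeo := summable_geometric_of_lt_one hr0 hr
  have hsum := summable_local hg hq
  have h1 : ∑' n : ℕ, g (q ^ n) / ((q ^ n : ℕ) : ℝ)
      = ∑ n ∈ range 2, g (q ^ n) / ((q ^ n : ℕ) : ℝ) + ∑' n : ℕ, g (q ^ (n + 2)) / ((q ^ (n + 2) : ℕ) : ℝ) :=
    (hsum.sum_add_tsum_nat_add 2).symm
  have h2 : ∑' n : ℕ, g (q ^ (n + 2)) / ((q ^ (n + 2) : ℕ) : ℝ) ≤ K * (1 / ((q : ℝ) * (q - 1))) := by
    have h3 : ∑' n : ℕ, g (q ^ (n + 2)) / ((q ^ (n + 2) : ℕ) : ℝ)
        ≤ ∑' n : ℕ, K * (1 / (q : ℝ)) ^ 2 * (1 / (q : ℝ)) ^ n := by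
      refine Summable.tsum_le_tsum (fun n => ?_) ?_ (hgeo.mul_left _)
      · have h4 := hg.pp q (n + 2) hq (by omega)
        push_cast
        calc g (q ^ (n + 2)) / (q : ℝ) ^ (n + 2) ≤ K / (q : ℝ) ^ (n + 2) :=
              div_le_div_of_nonneg_right h4 (by positivity)
          _ = K * (1 / (q : ℝ)) ^ 2 * (1 / (q : ℝ)) ^ n := by
              rw [mul_assoc, ← pow_add, one_div, inv_pow, div_eq_mul_inv, add_comm 2 n]
      · exact (summable_nat_add_iff 2).2 hsum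
    refine h3.trans (le_of_eq ?_)
    rw [tsum_mul_left, tsum_geometric_of_lt_one hr0 hr]
    have h4 : (q : ℝ) - 1 ≠ 0 := by linarith
    field_simp
  have h5 : ∑ n ∈ range 2, g (q ^ n) / ((q ^ n : ℕ) : ℝ) = 1 + g q / q := by
    rw [Finset.sum_range_succ, Finset.sum_range_one, pow_zero, hg.one, pow_one]
    simp
  rw [h1, h5]
  have h6 := Real.add_one_le_exp (g q / q + K * (1 / ((q : ℝ) * (q - 1))))
  linarith

theorem stepC {K : ℝ} {g : ℕ → ℝ} (hg : MulG K g) (M : ℕ) : ∑ m ∈ Icc 1 M, g m / m ≤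
    ∏ q ∈ (M + 1).primesBelow, ∑' n : ℕ, g (q ^ n) / ((q ^ n : ℕ) : ℝ) := by
  classical
  have h := EulerProduct.summable_and_hasSum_smoothNumbers_prod_primesBelow_tsum
    (f := fun m : ℕ => g m / (m : ℝ)) (by simp [hg.one]) (fun {m n} h => by
      change g (m * n) / ((m * n : ℕ) : ℝ) = g m / (m : ℝ) * (g n / (n : ℝ))
      rw [hg.mul m n h]
      push_cast
      rw [div_mul_div_comm]) (fun {q} hq => by
      refine (summable_local hg hq).congr (fun n => ?_)
      rw [Real.norm_of_nonneg (div_nonneg (hg.nonneg _) (Nat.cast_nonneg _))]) (M + 1)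
  have h2 := h.2
  have hmem : ∀ m ∈ Icc 1 M, m ∈ Nat.smoothNumbers (M + 1) := by
    intro m hm
    rw [mem_Icc] at hm
    rw [Nat.mem_smoothNumbers']
    intro p hp hd
    exact lt_of_le_of_lt (Nat.le_of_dvd (by omega) hd) (by omega)
  have h3 : ∑ m ∈ Icc 1 M, g m / m =
      ∑ m ∈ (Icc 1 M).attach.map ⟨fun m => (⟨m.1, hmem m.1 m.2⟩ : Nat.smoothNumbers (M + 1)),
        fun a b hab => Subtype.ext (congrArg (fun x => x.1) hab)⟩, g m.1 / (m.1 : ℝ) := by
    rw [sum_map]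
    rw [← sum_attach]
    rfl
  rw [h3]
  exact sum_le_hasSum _ (fun m _ => div_nonneg (hg.nonneg _) (Nat.cast_nonneg _)) h2

/-- **The upper bound for multiplicative functions** -/
theorem mean_le {K : ℝ} (hK : 0 ≤ K) : ∃ C : ℝ, 0 < C ∧ ∀ (g : ℕ → ℝ) (_ : MulG K g) (M : ℕ), 1 ≤ M →
    ∑ m ∈ Icc 1 M, g m ≤ C * M * Real.exp (∑ q ∈ Nat.primesLE M, (g q - 1) / q) := by
  obtain ⟨C0, hC0, hA⟩ := sum_mul_log_le hK
  obtain ⟨C1, hC1⟩ := mertens_up
  refine ⟨max 1 (C0 * Real.exp (C1 + K)), by positivity, ?_⟩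
  intro g hg M hM
  have hM' : (0 : ℝ) < M := by exact_mod_cast hM
  rcases Nat.lt_or_ge M 2 with hM2 | hM2
  · have hM1 : M = 1 := by omega
    subst hM1
    have h1 : Nat.primesLE 1 = ∅ := by
      rw [Finset.eq_empty_iff_forall_notMem]
      intro q hq
      rw [Nat.mem_primesLE] at hq
      have := hq.2.two_le
      omega
    rw [h1, Finset.sum_empty, Real.exp_zero, mul_one, Finset.Icc_self, Finset.sum_singleton, hg.one]
    have h4 : (1 : ℝ) ≤ max 1 (C0 * Real.exp (C1 + K)) := le_max_left _ _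
    push_cast
    linarith
  · have hM2' : (2 : ℝ) ≤ M := by exact_mod_cast hM2
    have hlog : 0 < Real.log M := Real.log_pos (by linarith)
    have h1 := hA g hg M hM
    have h2 := stepC hg M
    have h3 : ∏ q ∈ (M + 1).primesBelow, ∑' n : ℕ, g (q ^ n) / ((q ^ n : ℕ) : ℝ)
        ≤ Real.exp (∑ q ∈ (M + 1).primesBelow, (g q / q + K * (1 / ((q : ℝ) * (q - 1))))) := by
      rw [Real.exp_sum]
      refine Finset.prod_le_prod
        (fun q _ => tsum_nonneg fun n => div_nonneg (hg.nonneg _) (Nat.cast_nonneg _)) (fun q hq => ?_)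
      exact local_factor hK hg (Nat.prime_of_mem_primesBelow hq)
    have h4 : ∑ q ∈ (M + 1).primesBelow, 1 / ((q : ℝ) * (q - 1)) ≤ 1 := by
      have h5 := Pool.MP_67663b_nt.Mert.sum_tail M
      have h6 : ∑ q ∈ (M + 1).primesBelow, 1 / ((q : ℝ) * (q - 1)) ≤
          ∑ n ∈ Ico 2 (M + 2), (1 : ℝ) / (n * (n - 1)) := by
        refine Finset.sum_le_sum_of_subset_of_nonneg ?_ ?_
        · intro q hq
          have hp := Nat.prime_of_mem_primesBelow hq
          have hlt := Nat.lt_of_mem_primesBelow hq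
          rw [mem_Ico]
          exact ⟨hp.two_le, by omega⟩
        · intro n hn _
          rw [mem_Ico] at hn
          have : (2 : ℝ) ≤ n := by exact_mod_cast hn.1
          have h7 : (0 : ℝ) ≤ (n : ℝ) - 1 := by linarith
          positivity
      have h7 : (0 : ℝ) ≤ 1 / ((M : ℝ) + 1) := by positivity
      linarith
    have hset : (M + 1).primesBelow = Nat.primesLE M := by
      ext q
      rw [Nat.mem_primesBelow, Nat.mem_primesLE, Nat.lt_succ_iff]
    have h6 := hC1 M hM2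
    have h7 : ∑ q ∈ (M + 1).primesBelow, (g q / q + K * (1 / ((q : ℝ) * (q - 1))))
        ≤ Real.log (Real.log M) + (C1 + K) + ∑ q ∈ Nat.primesLE M, (g q - 1) / q := by
      rw [Finset.sum_add_distrib, ← Finset.mul_sum]
      have h8 : K * ∑ q ∈ (M + 1).primesBelow, 1 / ((q : ℝ) * (q - 1)) ≤ K * 1 :=
        mul_le_mul_of_nonneg_left h4 hK
      have h9 : ∑ q ∈ Nat.primesLE M, (g q - 1) / q
          = ∑ q ∈ Nat.primesLE M, g q / q - ∑ q ∈ Nat.primesLE M, (1 : ℝ) / q := by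
        rw [← Finset.sum_sub_distrib]
        exact Finset.sum_congr rfl fun q _ => by ring
      rw [h9, ← hset]
      rw [← hset] at h6
      linarith
    set E := ∑ q ∈ Nat.primesLE M, (g q - 1) / q with hE
    have h8 : ∑ m ∈ Icc 1 M, g m / m ≤ Real.log M * Real.exp (C1 + K) * Real.exp E := by
      refine h2.trans (h3.trans ((Real.exp_le_exp.2 h7).trans (le_of_eq ?_)))
      rw [Real.exp_add, Real.exp_add, Real.exp_log hlog]
    have h9 : (∑ m ∈ Icc 1 M, g m) * Real.log M ≤ (C0 * M * (Real.exp (C1 + K) * Real.exp E)) * Real.log M := by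
      refine h1.trans ?_
      calc C0 * M * ∑ m ∈ Icc 1 M, g m / m ≤ C0 * M * (Real.log M * Real.exp (C1 + K) * Real.exp E) :=
            mul_le_mul_of_nonneg_left h8 (by positivity)
        _ = _ := by ring
    have h10 := le_of_mul_le_mul_right h9 hlog
    refine h10.trans ?_
    calc C0 * M * (Real.exp (C1 + K) * Real.exp E) = (C0 * Real.exp (C1 + K)) * (M * Real.exp E) := by ring
      _ ≤ max 1 (C0 * Real.exp (C1 + K)) * (M * Real.exp E) :=
        mul_le_mul_of_nonneg_right (le_max_right _ _) (by positivity)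
      _ = _ := by ring

end Pool.Agent.Lib.MP_f4ebb7_co.V
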