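import Pool.Agent.Lib.MP_f4ebb7_co.V.Fix
import Pool.Agent.Lib.MP_f4ebb7_co.V.HTG
import Pool.Agent.Lib.MP_f4ebb7_co.Count

/-!
# The estimates for the sieve factor and for the sum over `a'`
-/

set_option autoImplicit false

namespace Pool.Agent.Lib.MP_f4ebb7_co.V

open Finset

/-- the reciprocals of the primes dividing `M ≤ 2 ^ (2 J + 2)` -/
theorem exp_primeFactors : ∃ C : ℝ, 0 < C ∧ ∀ J M : ℕ, 3 ≤ J → 1 ≤ M → M ≤ 2 ^ (2 * J + 2) →
    Real.exp (∑ q ∈ M.primeFactors, (1 : ℝ) / q) ≤ C * Real.log J := by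
  classical
  obtain ⟨C1, hC1⟩ := mertens_up
  refine ⟨Real.exp (C1 + 3), Real.exp_pos _, ?_⟩
  intro J M hJ hM1 hM
  have hJ0 : (0 : ℝ) < J := by exact_mod_cast (by omega : 0 < J)
  have hJ3 : (3 : ℝ) ≤ J := by exact_mod_cast hJ
  have hlogJ : 1 ≤ Real.log J := one_le_log hJ
  have hcard : M.primeFactors.card ≤ 2 * J + 2 := by
    have h1 : 2 ^ M.primeFactors.card ≤ M := by
      calc 2 ^ M.primeFactors.card ≤ ∏ q ∈ M.primeFactors, q :=
            Finset.pow_card_le_prod _ _ _ (fun q hq => (Nat.prime_of_mem_primeFactors hq).two_le)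
        _ ≤ M := Nat.le_of_dvd hM1 (Nat.prod_primeFactors_dvd M)
    exact (Nat.pow_le_pow_iff_right (by norm_num)).1 (h1.trans hM)
  have hsplit : ∑ q ∈ M.primeFactors, (1 : ℝ) / q
      = ∑ q ∈ M.primeFactors.filter (fun q => q ≤ J), (1 : ℝ) / q
        + ∑ q ∈ M.primeFactors.filter (fun q => ¬ q ≤ J), (1 : ℝ) / q :=
    (Finset.sum_filter_add_sum_filter_not _ _ _).symm
  have h1 : ∑ q ∈ M.primeFactors.filter (fun q => q ≤ J), (1 : ℝ) / q ≤ Real.log (Real.log J) + C1 := by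
    refine le_trans (Finset.sum_le_sum_of_subset_of_nonneg ?_ (fun q _ _ => by positivity)) (hC1 J (by omega))
    intro q hq
    rw [mem_filter] at hq
    rw [Nat.mem_primesLE]
    exact ⟨hq.2, Nat.prime_of_mem_primeFactors hq.1⟩
  have h2 : ∑ q ∈ M.primeFactors.filter (fun q => ¬ q ≤ J), (1 : ℝ) / q ≤ 3 := by
    calc ∑ q ∈ M.primeFactors.filter (fun q => ¬ q ≤ J), (1 : ℝ) / q
        ≤ ∑ _q ∈ M.primeFactors.filter (fun q => ¬ q ≤ J), (1 : ℝ) / J := by
          refine Finset.sum_le_sum fun q hq => ?_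
          rw [mem_filter] at hq
          exact one_div_le_one_div_of_le hJ0 (by exact_mod_cast (by omega : J ≤ q))
      _ = ((M.primeFactors.filter (fun q => ¬ q ≤ J)).card : ℝ) * (1 / J) := by
          rw [Finset.sum_const, nsmul_eq_mul]
      _ ≤ ((2 * J + 2 : ℕ) : ℝ) * (1 / J) := by
          refine mul_le_mul_of_nonneg_right ?_ (by positivity)
          exact_mod_cast (card_filter_le _ _).trans hcard
      _ ≤ 3 := by
          push_cast
          rw [mul_one_div, div_le_iff₀ hJ0]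
          linarith
  rw [hsplit]
  calc Real.exp _ ≤ Real.exp (Real.log (Real.log J) + (C1 + 3)) := by
        rw [Real.exp_le_exp]; linarith
    _ = Real.exp (C1 + 3) * Real.log J := by
        rw [Real.exp_add, Real.exp_log (by linarith), mul_comm]

theorem sum_inv_sq_primes (z : ℕ) : ∑ q ∈ Nat.primesLE z, (1 : ℝ) / (q : ℝ) ^ 2 ≤ 1 := by
  have h1 := tail_sq 1 z le_rfl
  have h2 : ∑ q ∈ Nat.primesLE z, (1 : ℝ) / (q : ℝ) ^ 2 ≤ ∑ n ∈ Ioc 1 (1 + z), (1 : ℝ) / (n : ℝ) ^ 2 := by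
    refine Finset.sum_le_sum_of_subset_of_nonneg ?_ (fun q _ _ => by positivity)
    intro q hq
    rw [Nat.mem_primesLE] at hq
    rw [mem_Ioc]
    exact ⟨hq.2.one_lt, by omega⟩
  have h3 : (0 : ℝ) ≤ 1 / ((1 + z : ℕ) : ℝ) := by positivity
  push_cast at h1 h3
  linarith

theorem PP_sum_ge (Q : ℕ → Prop) (z a' c : ℕ) (ha' : a' ≠ 0) (hc : c ≠ 0) :
    reP Q z - ∑ q ∈ a'.primeFactors, (1 : ℝ) / q - ∑ q ∈ c.primeFactors, (1 : ℝ) / q - 1
      ≤ ∑ q ∈ PP Q z a' c, (1 / (q : ℝ) - 1 / (q : ℝ) ^ 2) := by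
  classical
  have h1 : reP Q z ≤ ∑ q ∈ PP Q z a' c, (1 : ℝ) / q + ∑ q ∈ a'.primeFactors, (1 : ℝ) / q
      + ∑ q ∈ c.primeFactors, (1 : ℝ) / q := by
    unfold reP
    have hsub : (Nat.primesLE z).filter Q ⊆ (PP Q z a' c ∪ a'.primeFactors) ∪ c.primeFactors := by
      intro q hq
      rw [mem_filter, Nat.mem_primesLE] at hq
      rw [mem_union, mem_union, Nat.mem_primeFactors, Nat.mem_primeFactors]
      by_cases h1 : q ∣ a'
      · exact Or.inl (Or.inr ⟨hq.1.2, h1, ha'⟩)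
      · by_cases h2 : q ∣ c
        · exact Or.inr ⟨hq.1.2, h2, hc⟩
        · refine Or.inl (Or.inl ?_)
          unfold PP
          rw [mem_filter, Nat.mem_primesLE]
          exact ⟨hq.1, hq.2, h1, h2⟩
    refine (Finset.sum_le_sum_of_subset_of_nonneg hsub (fun q _ _ => by positivity)).trans ?_
    have h2 : ∀ (A B : Finset ℕ), ∑ q ∈ A ∪ B, (1 : ℝ) / q ≤ ∑ q ∈ A, (1 : ℝ) / q + ∑ q ∈ B, (1 : ℝ) / q := by
      intro A B
      rw [← Finset.sum_union_inter]
      have : 0 ≤ ∑ q ∈ A ∩ B, (1 : ℝ) / q := Finset.sum_nonneg fun q _ => by positivity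
      linarith
    refine (h2 _ _).trans ?_
    have := h2 (PP Q z a' c) a'.primeFactors
    linarith
  have h2 : ∑ q ∈ PP Q z a' c, (1 : ℝ) / (q : ℝ) ^ 2 ≤ 1 := by
    refine le_trans (Finset.sum_le_sum_of_subset_of_nonneg ?_ (fun q _ _ => by positivity)) (sum_inv_sq_primes z)
    unfold PP
    exact filter_subset _ _
  rw [Finset.sum_sub_distrib]
  linarith

theorem card_PP_le (Q : ℕ → Prop) (z a' c : ℕ) (hz : 1 ≤ z) : 2 * (PP Q z a' c).card + 1 ≤ 2 * z := by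
  classical
  have h1 : (PP Q z a' c).card ≤ (Icc 2 z).card := by
    refine card_le_card ?_
    intro q hq
    unfold PP at hq
    rw [mem_filter, Nat.mem_primesLE] at hq
    rw [mem_Icc]
    exact ⟨hq.1.2.two_le, hq.1.1⟩
  rw [Nat.card_Icc] at h1
  omega

/-- the multiplicative function `1/e_z` -/
noncomputable def gz (Q : ℕ → Prop) (z m : ℕ) : ℝ := 1 / (ee Q z m : ℝ)

theorem gz_mul (Q : ℕ → Prop) (z : ℕ) (m n : ℕ) (h : Nat.Coprime m n) : gz Q z (m * n) = gz Q z m * gz Q z n := by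
  classical
  have h1 : EE Q z (m * n) = EE Q z m ∪ EE Q z n := by
    ext q
    unfold EE
    simp only [mem_union, mem_filter, Nat.mem_primesLE]
    constructor
    · rintro ⟨⟨h2, hq⟩, hQ, h3, h4⟩
      rcases (hq.dvd_mul).1 h3 with h5 | h5
      · exact Or.inl ⟨⟨h2, hq⟩, hQ, h5, fun h6 => h4 (h6.mul_right n)⟩
      · exact Or.inr ⟨⟨h2, hq⟩, hQ, h5, fun h6 => h4 (h6.mul_left m)⟩
    · rintro (⟨⟨h2, hq⟩, hQ, h3, h4⟩ | ⟨⟨h2, hq⟩, hQ, h3, h4⟩)
      · refine ⟨⟨h2, hq⟩, hQ, h3.mul_right n, fun h5 => h4 ?_⟩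
        have h6 : Nat.Coprime (q ^ 2) n := Nat.Coprime.pow_left 2 (Nat.Coprime.coprime_dvd_left h3 h)
        exact h6.dvd_of_dvd_mul_right h5
      · refine ⟨⟨h2, hq⟩, hQ, h3.mul_left m, fun h5 => h4 ?_⟩
        have h6 : Nat.Coprime (q ^ 2) m := Nat.Coprime.pow_left 2 (Nat.Coprime.coprime_dvd_left h3 h.symm)
        exact h6.dvd_of_dvd_mul_left h5
  have h2 : Disjoint (EE Q z m) (EE Q z n) := by
    rw [Finset.disjoint_left]
    intro q hq hq'
    unfold EE at hq hq'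
    rw [mem_filter, Nat.mem_primesLE] at hq hq'
    have h3 : q ∣ Nat.gcd m n := Nat.dvd_gcd hq.2.2.1 hq'.2.2.1
    rw [Nat.Coprime] at h
    rw [h] at h3
    exact hq.1.2.one_lt.ne' (Nat.dvd_one.1 h3)
  unfold gz ee
  rw [h1, Finset.prod_union h2]
  push_cast
  rw [one_div_mul_one_div]

theorem gz_MulG (Q : ℕ → Prop) (z : ℕ) : MulG 1 (gz Q z) := by
  classical
  refine ⟨?_, fun m n h => gz_mul Q z m n h, fun m => by unfold gz; positivity, fun q a _ _ => ?_⟩
  · have h1 : EE Q z 1 = ∅ := by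
      rw [Finset.eq_empty_iff_forall_notMem]
      intro q hq
      unfold EE at hq
      rw [mem_filter, Nat.mem_primesLE] at hq
      exact hq.1.2.one_lt.ne' (Nat.dvd_one.1 hq.2.2.1)
    unfold gz ee
    rw [h1]
    simp
  · unfold gz
    have h1 : 1 ≤ ee Q z (q ^ a) := ee_pos Q z _
    rw [div_le_one (by exact_mod_cast h1)]
    exact_mod_cast h1

open Classical in
theorem gz_prime (Q : ℕ → Prop) (z q : ℕ) (hq : q.Prime) :
    gz Q z q = if q ≤ z ∧ Q q then 1 / (q : ℝ) else 1 := by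
  have hsq : ¬ q ^ 2 ∣ q := by
    intro h
    have h1 := Nat.le_of_dvd hq.pos h
    have h2 := hq.two_le
    nlinarith
  unfold gz ee
  split_ifs with h
  · have h1 : EE Q z q = {q} := by
      ext r
      unfold EE
      simp only [mem_filter, Nat.mem_primesLE, mem_singleton]
      constructor
      · rintro ⟨⟨_, hr⟩, _, h3, _⟩
        exact (Nat.prime_dvd_prime_iff_eq hr hq).1 h3
      · rintro rfl
        exact ⟨⟨h.1, hq⟩, h.2, dvd_rfl, hsq⟩
    rw [h1, Finset.prod_singleton]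
  · have h1 : EE Q z q = ∅ := by
      rw [Finset.eq_empty_iff_forall_notMem]
      intro r hr
      unfold EE at hr
      rw [mem_filter, Nat.mem_primesLE] at hr
      have h2 : r = q := (Nat.prime_dvd_prime_iff_eq hr.1.2 hq).1 hr.2.2.1
      subst h2
      exact h ⟨hr.1.1, hr.2.1⟩
    rw [h1]
    simp

/-- the sum over `a'` -/
theorem sum_gz_le : ∃ C : ℝ, 0 < C ∧ ∀ (Q : ℕ → Prop) (z α w : ℕ), 1 ≤ α → w ≤ z → w ≤ α →
    ∑ m ∈ Icc 1 α, gz Q z m ≤ C * α * Real.exp (-reP Q w) := by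
  classical
  obtain ⟨C0, hC0, hC⟩ := mean_le (K := 1) zero_le_one
  refine ⟨C0 * Real.exp 1, by positivity, ?_⟩
  intro Q z α w hα hwz hwα
  refine (hC (gz Q z) (gz_MulG Q z) α hα).trans ?_
  have h1 : ∑ q ∈ Nat.primesLE α, (gz Q z q - 1) / q ≤ 1 - reP Q w := by
    have h2 : ∀ q ∈ Nat.primesLE α, (gz Q z q - 1) / q
        ≤ 1 / (q : ℝ) ^ 2 - (if q ≤ w ∧ Q q then 1 / (q : ℝ) else 0) := by
      intro q hq
      rw [Nat.mem_primesLE] at hq
      have hq0 : (0 : ℝ) < q := by exact_mod_cast hq.2.pos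
      have hq1 : (1 : ℝ) ≤ q := by exact_mod_cast hq.2.one_le
      rw [gz_prime Q z q hq.2]
      by_cases h3 : q ≤ w ∧ Q q
      · rw [if_pos ⟨h3.1.trans hwz, h3.2⟩, if_pos h3]
        apply le_of_eq
        field_simp
      · rw [if_neg h3]
        split_ifs
        · have h4 : 1 / (q : ℝ) ≤ 1 := by rw [div_le_one hq0]; exact hq1
          have h5 : (1 / (q : ℝ) - 1) / q ≤ 0 := div_nonpos_of_nonpos_of_nonneg (by linarith) hq0.le
          have h6 : 0 ≤ 1 / (q : ℝ) ^ 2 := by positivity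
          linarith
        · rw [sub_self, zero_div, sub_zero]
          positivity
    refine (Finset.sum_le_sum h2).trans ?_
    rw [Finset.sum_sub_distrib]
    have h3 : ∑ q ∈ Nat.primesLE α, (if q ≤ w ∧ Q q then 1 / (q : ℝ) else 0) = reP Q w := by
      rw [← Finset.sum_filter]
      unfold reP
      refine Finset.sum_congr ?_ fun _ _ => rfl
      ext q
      simp only [mem_filter, Nat.mem_primesLE]
      constructor
      · rintro ⟨⟨_, h4⟩, h5, h6⟩; exact ⟨⟨h5, h4⟩, h6⟩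
      · rintro ⟨⟨h4, h5⟩, h6⟩; exact ⟨⟨h4.trans hwα, h5⟩, h4, h6⟩
    have h4 := sum_inv_sq_primes α
    linarith
  calc C0 * α * Real.exp (∑ q ∈ Nat.primesLE α, (gz Q z q - 1) / q)
      ≤ C0 * α * Real.exp (1 - reP Q w) :=
        mul_le_mul_of_nonneg_left (Real.exp_le_exp.2 h1) (by positivity)
    _ = C0 * Real.exp 1 * α * Real.exp (-reP Q w) := by
        rw [sub_eq_add_neg, Real.exp_add]; ring

end Pool.Agent.Lib.MP_f4ebb7_co.V
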