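import Pool.Agent.Lib.MP_f4ebb7_co.NonRes
import Pool.Agent.Lib.MP_67663b_nt.OddB.Mert

/-!
# The primes that are non-residues modulo one of two odd primes
-/

set_option autoImplicit false

namespace Pool.Agent.Lib.MP_f4ebb7_co.V

open Finset

/-- the logarithmic sum of `χ` over primes -/
noncomputable def thX (χ : ℕ → ℝ) (m : ℕ) : ℝ := ∑ q ∈ Nat.primesLE m, χ q * Real.log q

/-- the reciprocal sum of `χ` over primes -/
noncomputable def reX (χ : ℕ → ℝ) (m : ℕ) : ℝ := ∑ q ∈ Nat.primesLE m, χ q / q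

theorem step_idX (χ : ℕ → ℝ) {m : ℕ} (hm : 3 ≤ m) :
    reX χ (m + 1) - reX χ m = (thX χ (m + 1) - thX χ m) * ff (m + 1) := by
  have hnm : m + 1 ∉ Nat.primesLE m := by
    intro h
    rw [Nat.mem_primesLE] at h
    omega
  have h1 : 1 ≤ Real.log ((m + 1 : ℕ) : ℝ) := one_le_log (by omega)
  have hm' : (0 : ℝ) < ((m + 1 : ℕ) : ℝ) := by positivity
  unfold reX thX
  rw [primesLE_succ]
  split_ifs with h
  · rw [sum_insert hnm, sum_insert hnm, add_sub_cancel_right, add_sub_cancel_right]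
    unfold ff
    field_simp
  · rw [sub_self, sub_self, zero_mul]

theorem psX_ind (χ : ℕ → ℝ) (y : ℕ) (hy : 3 ≤ y) (M : ℕ) (hyM : y ≤ M)
    (hθ : ∀ m, y ≤ m → m ≤ M → |thX χ m| ≤ (m : ℝ) / Real.log m ^ 2) :
    |reX χ M - reX χ y - thX χ M * ff M + thX χ y * ff y| ≤ 4 * (1 / Real.log y - 1 / Real.log M) := by
  induction M, hyM using Nat.le_induction with
  | base => simp
  | succ M hyM ih =>
    have ih' := ih (fun m h1 h2 => hθ m h1 (by omega))
    have hM3 : 3 ≤ M := by omega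
    have h1 := step_idX χ hM3
    have h3 := err_step hM3
    have h4 := hθ M hyM (by omega)
    have h5 := ff_sub_nonneg hM3
    have h6 : |thX χ M * (ff M - ff (M + 1))| ≤ (M : ℝ) / Real.log M ^ 2 * (ff M - ff (M + 1)) := by
      rw [abs_mul, abs_of_nonneg h5]
      exact mul_le_mul_of_nonneg_right h4 h5
    have h8 : reX χ (M + 1) - reX χ y - thX χ (M + 1) * ff (M + 1) + thX χ y * ff y
        = (reX χ M - reX χ y - thX χ M * ff M + thX χ y * ff y) + thX χ M * (ff M - ff (M + 1)) := by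
      have h9 : reX χ (M + 1) = reX χ M + (thX χ (M + 1) - thX χ M) * ff (M + 1) := by linarith
      rw [h9]; ring
    rw [h8]
    refine (abs_add_le _ _).trans ?_
    linarith

theorem psX (χ : ℕ → ℝ) (y : ℕ) (hy : 3 ≤ y) (M : ℕ) (hyM : y ≤ M)
    (hθ : ∀ m, y ≤ m → m ≤ M → |thX χ m| ≤ (m : ℝ) / Real.log m ^ 2) :
    |reX χ M - reX χ y| ≤ 6 := by
  have h1 := psX_ind χ y hy M hyM hθ
  have hff : ∀ m : ℕ, 3 ≤ m → y ≤ m → m ≤ M → |thX χ m * ff m| ≤ 1 := by
    intro m hm h2 h3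
    have h4 := hθ m h2 h3
    have h5 := one_le_log hm
    have hm' : (0 : ℝ) < m := by exact_mod_cast (by omega : 0 < m)
    have h6 : 0 ≤ ff m := by unfold ff; positivity
    rw [abs_mul, abs_of_nonneg h6]
    calc |thX χ m| * ff m ≤ (m : ℝ) / Real.log m ^ 2 * ff m := mul_le_mul_of_nonneg_right h4 h6
      _ = 1 / Real.log m ^ 3 := by unfold ff; field_simp
      _ ≤ 1 := by
          rw [div_le_one (by positivity)]
          exact one_le_pow₀ h5
  have hM3 : 3 ≤ M := by omega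
  have h2 := hff M hM3 hyM le_rfl
  have h3 := hff y hy le_rfl hyM
  have hly := one_le_log hy
  have h4 : 1 / Real.log (y : ℝ) ≤ 1 := by rw [div_le_one (by linarith)]; exact hly
  have hlM := one_le_log hM3
  have h5 : 0 ≤ 1 / Real.log (M : ℝ) := by positivity
  rw [abs_le] at h1 h2 h3 ⊢
  constructor <;> linarith [h1.1, h1.2, h2.1, h2.2, h3.1, h3.2]

/-- the reciprocal sums of a nontrivial Jacobi symbol over the primes are bounded -/
theorem jacobi_bounded (F : ℕ) (hodd : Odd F) (hns : ¬ IsSquare F) : ∃ C : ℝ, ∀ z : ℕ,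
    |reX (fun q => (jacobiSym (q : ℤ) F : ℝ)) z| ≤ C := by
  classical
  obtain ⟨X1, hX1⟩ := Pool.MP_dd84fd_nt.SW.sw_theta 3 1
  have hF0 : F ≠ 0 := by rintro rfl; simp at hodd
  have hFpos : 0 < F := Nat.pos_of_ne_zero hF0
  set y : ℕ := max X1 (max 3 ⌈Real.exp F⌉₊) with hy
  have hy3 : 3 ≤ y := (le_max_left _ _).trans (le_max_right _ _)
  have hθ : ∀ m, y ≤ m → |thX (fun q => (jacobiSym (q : ℤ) F : ℝ)) m| ≤ (m : ℝ) / Real.log m ^ 2 := by
    intro m hm
    have hm1 : X1 ≤ m := (le_max_left _ _).trans hm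
    have hm3 : 3 ≤ m := hy3.trans hm
    have hmF : Real.exp F ≤ m := by
      refine (Nat.le_ceil _).trans ?_
      exact_mod_cast ((le_max_right 3 ⌈Real.exp F⌉₊).trans (le_max_right X1 _)).trans hm
    have hlF : (F : ℝ) ≤ Real.log m := by
      rw [← Real.log_exp (F : ℝ)]
      exact Real.log_le_log (Real.exp_pos _) hmF
    have hlog := one_le_log hm3
    have hmpos : (0 : ℝ) < m := by exact_mod_cast (by omega : 0 < m)
    have h1 : thX (fun q => (jacobiSym (q : ℤ) F : ℝ)) m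
        = ∑ c ∈ range F, (jacobiSym (c : ℤ) F : ℝ) *
          ∑ q ∈ (Icc 1 m).filter (fun n => n.Prime ∧ n ≡ c [MOD F]), Real.log q := by
      unfold thX
      rw [← Finset.sum_fiberwise_of_maps_to (g := fun q => q % F) (t := range F)
        (fun q _ => mem_range.2 (Nat.mod_lt _ hFpos))]
      refine Finset.sum_congr rfl fun c hc => ?_
      rw [mem_range] at hc
      have hcF : c % F = c := Nat.mod_eq_of_lt hc
      rw [Finset.mul_sum]
      refine Finset.sum_congr ?_ fun q hq => ?_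
      · ext q
        simp only [mem_filter, Nat.mem_primesLE, mem_Icc]
        constructor
        · rintro ⟨⟨h2, h3⟩, h5⟩
          refine ⟨⟨h3.one_le, h2⟩, h3, ?_⟩
          rw [Nat.ModEq, hcF]; exact h5
        · rintro ⟨⟨h2, h3⟩, h4, h5⟩
          have h6 : q % F = c := by rw [Nat.ModEq, hcF] at h5; exact h5
          exact ⟨⟨h3, h4⟩, h6⟩
      · simp only [mem_filter, mem_Icc] at hq
        have h2 : jacobiSym (q : ℤ) F = jacobiSym (c : ℤ) F := by
          apply jacobiSym.mod_left'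
          exact_mod_cast hq.2.2
        change (jacobiSym (q : ℤ) F : ℝ) * Real.log q = _
        rw [h2]
    have hφ : 0 < (Nat.totient F : ℝ) := by exact_mod_cast Nat.totient_pos.2 hFpos
    have h2 : ∀ c ∈ range F, |(jacobiSym (c : ℤ) F : ℝ) *
          ∑ q ∈ (Icc 1 m).filter (fun n => n.Prime ∧ n ≡ c [MOD F]), Real.log q
          - (jacobiSym (c : ℤ) F : ℝ) * ((m : ℝ) / Nat.totient F)| ≤ m / Real.log m ^ 3 := by
      intro c _
      by_cases hcop : Nat.Coprime c F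
      · have h3 := hX1 m hm1 F c hFpos (by rw [pow_one]; exact hlF) hcop
        rw [← mul_sub, abs_mul]
        calc |(jacobiSym (c : ℤ) F : ℝ)| *
            |∑ q ∈ (Icc 1 m).filter (fun n => n.Prime ∧ n ≡ c [MOD F]), Real.log q - (m : ℝ) / Nat.totient F|
            ≤ 1 * (m / Real.log m ^ 3) := by
              refine mul_le_mul ?_ h3 (abs_nonneg _) zero_le_one
              rcases jacobiSym.trichotomy (c : ℤ) F with h | h | h <;> rw [h] <;> norm_num
          _ = _ := one_mul _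
      · have h0 : jacobiSym (c : ℤ) F = 0 := by
          have : NeZero F := ⟨hF0⟩
          rw [jacobiSym.eq_zero_iff_not_coprime, Int.gcd_natCast_natCast]
          exact hcop
        rw [h0]
        simp only [Int.cast_zero, zero_mul, sub_self, abs_zero]
        positivity
    have hzero : ∑ c ∈ range F, (jacobiSym (c : ℤ) F : ℝ) * ((m : ℝ) / Nat.totient F) = 0 := by
      rw [← Finset.sum_mul]
      have h3 := Pool.Agent.Lib.MP_e426f4_ag.TWL.sum_jacobi_bot F hodd hns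
      have h4 : ∑ c ∈ range F, (jacobiSym (c : ℤ) F : ℝ) = 0 := by exact_mod_cast h3
      rw [h4, zero_mul]
    rw [h1]
    have h3 : ∑ c ∈ range F, (jacobiSym (c : ℤ) F : ℝ) *
          ∑ q ∈ (Icc 1 m).filter (fun n => n.Prime ∧ n ≡ c [MOD F]), Real.log q
        = ∑ c ∈ range F, ((jacobiSym (c : ℤ) F : ℝ) *
          ∑ q ∈ (Icc 1 m).filter (fun n => n.Prime ∧ n ≡ c [MOD F]), Real.log q
          - (jacobiSym (c : ℤ) F : ℝ) * ((m : ℝ) / Nat.totient F)) := by
      rw [Finset.sum_sub_distrib, hzero, sub_zero]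
    rw [h3]
    refine (Finset.abs_sum_le_sum_abs _ _).trans ((Finset.sum_le_sum h2).trans ?_)
    rw [Finset.sum_const, nsmul_eq_mul, card_range]
    calc (F : ℝ) * (m / Real.log m ^ 3) ≤ Real.log m * (m / Real.log m ^ 3) :=
          mul_le_mul_of_nonneg_right hlF (by positivity)
      _ = m / Real.log m ^ 2 := by
          have : Real.log (m : ℝ) ≠ 0 := by linarith
          field_simp
  have htriv : ∀ z : ℕ, z ≤ y → |reX (fun q => (jacobiSym (q : ℤ) F : ℝ)) z| ≤ ∑ q ∈ Nat.primesLE y, (1 : ℝ) / q := by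
    intro z hz
    unfold reX
    refine (Finset.abs_sum_le_sum_abs _ _).trans ?_
    have hsub : Nat.primesLE z ⊆ Nat.primesLE y := by
      intro q hq
      rw [Nat.mem_primesLE] at hq ⊢
      exact ⟨hq.1.trans hz, hq.2⟩
    refine le_trans (Finset.sum_le_sum fun q _ => ?_)
      (Finset.sum_le_sum_of_subset_of_nonneg hsub (fun q _ _ => by positivity))
    rw [abs_div, Nat.abs_cast]
    refine div_le_div_of_nonneg_right ?_ (Nat.cast_nonneg q)
    change |(jacobiSym (q : ℤ) F : ℝ)| ≤ 1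
    rcases jacobiSym.trichotomy (q : ℤ) F with h | h | h <;> rw [h] <;> norm_num
  refine ⟨∑ q ∈ Nat.primesLE y, (1 : ℝ) / q + 6, ?_⟩
  intro z
  rcases Nat.lt_or_ge z y with hz | hz
  · have := htriv z hz.le
    linarith
  · have h1 := psX (fun q => (jacobiSym (q : ℤ) F : ℝ)) y hy3 z hz (fun m hm _ => hθ m hm)
    have h2 := htriv y le_rfl
    rw [abs_le] at h1 h2 ⊢
    constructor <;> linarith [h1.1, h1.2, h2.1, h2.2]

/-- the primes that are non-residues modulo `p₁` or modulo `p₂` -/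
def QQ (p₁ p₂ q : ℕ) : Prop := jacobiSym (q : ℤ) p₁ = -1 ∨ jacobiSym (q : ℤ) p₂ = -1

/-- **lower bound for the reciprocal sum over `Q`** -/
theorem reP_QQ_ge (p₁ p₂ : ℕ) (hp₁ : p₁.Prime) (hp₂ : p₂.Prime) (h₁ : p₁ ≠ 2) (h₂ : p₂ ≠ 2) (hne : p₁ ≠ p₂) :
    ∃ C : ℝ, ∀ z : ℕ, 2 ≤ z → 3 / 4 * Real.log (Real.log z) - C ≤ reP (QQ p₁ p₂) z := by
  classical
  have ho1 : Odd p₁ := hp₁.odd_of_ne_two h₁
  have ho2 : Odd p₂ := hp₂.odd_of_ne_two h₂
  have hns : ∀ p : ℕ, p.Prime → ¬ IsSquare p := by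
    rintro p hp ⟨r, hr⟩
    rw [hr] at hp
    have h1 : r ≠ 1 := by rintro rfl; exact absurd hp (by norm_num)
    exact Nat.not_prime_mul h1 h1 hp
  have hns12 : ¬ IsSquare (p₁ * p₂) := by
    rintro ⟨r, hr⟩
    have h1 : p₁ ∣ r := by
      have : p₁ ∣ r * r := by rw [← hr]; exact dvd_mul_right _ _
      rcases (hp₁.dvd_mul).1 this with h | h <;> exact h
    obtain ⟨s, rfl⟩ := h1
    have h2 : p₂ = p₁ * (s * s) := by
      have h3 : p₁ * p₂ = p₁ * (p₁ * (s * s)) := by rw [hr]; ring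
      exact Nat.eq_of_mul_eq_mul_left hp₁.pos h3
    have h3 : p₁ ∣ p₂ := ⟨s * s, h2⟩
    exact hne ((Nat.prime_dvd_prime_iff_eq hp₁ hp₂).1 h3)
  obtain ⟨C1, hC1⟩ := jacobi_bounded p₁ ho1 (hns p₁ hp₁)
  obtain ⟨C2, hC2⟩ := jacobi_bounded p₂ ho2 (hns p₂ hp₂)
  obtain ⟨C3, hC3⟩ := jacobi_bounded (p₁ * p₂) (ho1.mul ho2) hns12
  refine ⟨3 / 4 + (C1 + C2 + C3) / 4 + 2, ?_⟩
  intro z hz
  have hM := Pool.MP_67663b_nt.Mert.sum_inv_ge z hz
  have hM' : ∑ q ∈ z.primesBelow, (1 : ℝ) / q ≤ ∑ q ∈ Nat.primesLE z, (1 : ℝ) / q := by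
    refine Finset.sum_le_sum_of_subset_of_nonneg ?_ (fun q _ _ => by positivity)
    intro q hq
    rw [Nat.mem_primesLE]
    exact ⟨(Nat.lt_of_mem_primesBelow hq).le, Nat.prime_of_mem_primesBelow hq⟩
  have hterm : ∀ q ∈ Nat.primesLE z, 3 / 4 * ((1 : ℝ) / q) - 1 / 4 * ((jacobiSym (q : ℤ) p₁ : ℝ) / q)
      - 1 / 4 * ((jacobiSym (q : ℤ) p₂ : ℝ) / q) - 1 / 4 * ((jacobiSym (q : ℤ) (p₁ * p₂) : ℝ) / q)
      - (if q = p₁ then (1 : ℝ) else 0) - (if q = p₂ then (1 : ℝ) else 0)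
      ≤ if QQ p₁ p₂ q then (1 : ℝ) / q else 0 := by
    intro q hq
    rw [Nat.mem_primesLE] at hq
    have hq0 : (0 : ℝ) < q := by exact_mod_cast hq.2.pos
    have hq1 : (1 : ℝ) / q ≤ 1 := by
      rw [div_le_one hq0]; exact_mod_cast hq.2.one_le
    have hqn : (0 : ℝ) ≤ 1 / q := by positivity
    have hmul : (jacobiSym (q : ℤ) (p₁ * p₂) : ℝ) = (jacobiSym (q : ℤ) p₁ : ℝ) * (jacobiSym (q : ℤ) p₂ : ℝ) := by
      have : NeZero p₁ := ⟨hp₁.ne_zero⟩
      have : NeZero p₂ := ⟨hp₂.ne_zero⟩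
      rw [jacobiSym.mul_right]
      push_cast
      rfl
    rw [hmul]
    have hz1 : q ≠ p₁ → jacobiSym (q : ℤ) p₁ ≠ 0 := by
      intro h
      have : NeZero p₁ := ⟨hp₁.ne_zero⟩
      rw [Ne, jacobiSym.eq_zero_iff_not_coprime, not_not, Int.gcd_natCast_natCast]
      exact (Nat.coprime_primes hq.2 hp₁).2 h
    have hz2 : q ≠ p₂ → jacobiSym (q : ℤ) p₂ ≠ 0 := by
      intro h
      have : NeZero p₂ := ⟨hp₂.ne_zero⟩
      rw [Ne, jacobiSym.eq_zero_iff_not_coprime, not_not, Int.gcd_natCast_natCast]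
      exact (Nat.coprime_primes hq.2 hp₂).2 h
    have hi1 : (0 : ℝ) ≤ if q = p₂ then (1 : ℝ) else 0 := by split_ifs <;> norm_num
    have hi2 : (0 : ℝ) ≤ if q = p₁ then (1 : ℝ) else 0 := by split_ifs <;> norm_num
    have ha1 : -1 ≤ (jacobiSym (q : ℤ) p₁ : ℝ) ∧ (jacobiSym (q : ℤ) p₁ : ℝ) ≤ 1 := by
      rcases jacobiSym.trichotomy (q : ℤ) p₁ with h | h | h <;> rw [h] <;> norm_num
    have ha2 : -1 ≤ (jacobiSym (q : ℤ) p₂ : ℝ) ∧ (jacobiSym (q : ℤ) p₂ : ℝ) ≤ 1 := by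
      rcases jacobiSym.trichotomy (q : ℤ) p₂ with h | h | h <;> rw [h] <;> norm_num
    have hb0 : (0 : ℝ) ≤ if QQ p₁ p₂ q then (1 : ℝ) / q else 0 := by split_ifs <;> positivity
    by_cases hcase : q = p₁ ∨ q = p₂
    · have h1 : 3 / 4 * ((1 : ℝ) / q) - 1 / 4 * ((jacobiSym (q : ℤ) p₁ : ℝ) / q)
          - 1 / 4 * ((jacobiSym (q : ℤ) p₂ : ℝ) / q)
          - 1 / 4 * ((jacobiSym (q : ℤ) p₁ : ℝ) * (jacobiSym (q : ℤ) p₂ : ℝ) / q) ≤ 1 := by
        have h2 : 3 / 4 * ((1 : ℝ) / q) - 1 / 4 * ((jacobiSym (q : ℤ) p₁ : ℝ) / q)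
          - 1 / 4 * ((jacobiSym (q : ℤ) p₂ : ℝ) / q)
          - 1 / 4 * ((jacobiSym (q : ℤ) p₁ : ℝ) * (jacobiSym (q : ℤ) p₂ : ℝ) / q)
          = (1 - (1 + (jacobiSym (q : ℤ) p₁ : ℝ)) * (1 + (jacobiSym (q : ℤ) p₂ : ℝ)) / 4) * (1 / q) := by
          ring
        rw [h2]
        have h3 : 0 ≤ (1 + (jacobiSym (q : ℤ) p₁ : ℝ)) * (1 + (jacobiSym (q : ℤ) p₂ : ℝ)) :=
          mul_nonneg (by linarith [ha1.1]) (by linarith [ha2.1])
        have h4 : (1 - (1 + (jacobiSym (q : ℤ) p₁ : ℝ)) * (1 + (jacobiSym (q : ℤ) p₂ : ℝ)) / 4) * (1 / (q : ℝ))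
            ≤ 1 * (1 / (q : ℝ)) := mul_le_mul_of_nonneg_right (by linarith) hqn
        linarith
      rcases hcase with h | h
      · have h5 : (if q = p₁ then (1 : ℝ) else 0) = 1 := if_pos h
        rw [h5]
        linarith
      · have h5 : (if q = p₂ then (1 : ℝ) else 0) = 1 := if_pos h
        rw [h5]
        linarith
    · push Not at hcase
      have hn1 := hz1 hcase.1
      have hn2 := hz2 hcase.2
      rw [if_neg hcase.1, if_neg hcase.2]
      rcases jacobiSym.trichotomy (q : ℤ) p₁ with h | h | h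
      · exact absurd h hn1
      · rcases jacobiSym.trichotomy (q : ℤ) p₂ with h' | h' | h'
        · exact absurd h' hn2
        · rw [h, h']
          have : ¬ QQ p₁ p₂ q := by
            rintro (h3 | h3)
            · rw [h] at h3; norm_num at h3
            · rw [h'] at h3; norm_num at h3
          rw [if_neg this]
          push_cast
          apply le_of_eq
          ring
        · rw [h, h', if_pos (show QQ p₁ p₂ q from Or.inr h')]
          push_cast
          apply le_of_eq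
          ring
      · rw [if_pos (show QQ p₁ p₂ q from Or.inl h)]
        rcases jacobiSym.trichotomy (q : ℤ) p₂ with h' | h' | h'
        · exact absurd h' hn2
        · rw [h, h']
          push_cast
          apply le_of_eq
          ring
        · rw [h, h']
          push_cast
          apply le_of_eq
          ring
  have hsum := Finset.sum_le_sum hterm
  rw [← Finset.sum_filter] at hsum
  simp only [Finset.sum_sub_distrib, ← Finset.mul_sum] at hsum
  have hR : ∑ q ∈ (Nat.primesLE z).filter (QQ p₁ p₂), (1 : ℝ) / q = reP (QQ p₁ p₂) z := rfl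
  rw [hR] at hsum
  have hd1 : ∑ q ∈ Nat.primesLE z, (if q = p₁ then (1 : ℝ) else 0) ≤ 1 := by
    rw [Finset.sum_ite_eq']; split_ifs <;> norm_num
  have hd2 : ∑ q ∈ Nat.primesLE z, (if q = p₂ then (1 : ℝ) else 0) ≤ 1 := by
    rw [Finset.sum_ite_eq']; split_ifs <;> norm_num
  have e1 := (abs_le.1 (hC1 z)).2
  have e2 := (abs_le.1 (hC2 z)).2
  have e3 := (abs_le.1 (hC3 z)).2
  unfold reX at e1 e2 e3
  linarith

end Pool.Agent.Lib.MP_f4ebb7_co.V
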