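import Pool.Agent.Lib.MP_f4ebb7_co.V.Prog
import Pool.Agent.Lib.MP_f4ebb7_co.V.QSum
import Pool.Agent.Lib.MP_f4ebb7_co.HTA

/-!
# The count of `β` for fixed `α` and `a'`
-/

set_option autoImplicit false

namespace Pool.Agent.Lib.MP_f4ebb7_co.V

open Finset

/-- `β` belongs to the tuple with given `α`, `a'` -/
def InK (Q : ℕ → Prop) (α a' β : ℕ) : Prop :=
  ∃ a : ℕ, 1 ≤ a ∧ α * a + β * a' = α * β + 1 ∧ NoExact Q (a * a')

open Classical in
/-- the primes `q ≤ z` of `Q` that divide neither `a'` nor `c` -/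
noncomputable def PP (Q : ℕ → Prop) (z a' c : ℕ) : Finset ℕ :=
  (Nat.primesLE z).filter (fun q => Q q ∧ ¬ q ∣ a' ∧ ¬ q ∣ c)

open Classical in
/-- the primes `q ≤ z` of `Q` that divide `a'` exactly once -/
noncomputable def EE (Q : ℕ → Prop) (z a' : ℕ) : Finset ℕ :=
  (Nat.primesLE z).filter (fun q => Q q ∧ q ∣ a' ∧ ¬ q ^ 2 ∣ a')

/-- their product -/
noncomputable def ee (Q : ℕ → Prop) (z a' : ℕ) : ℕ := ∏ q ∈ EE Q z a', q

theorem ee_pos (Q : ℕ → Prop) (z a' : ℕ) : 0 < ee Q z a' := by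
  classical
  refine Finset.prod_pos fun q hq => ?_
  have := (mem_filter.1 hq).1
  rw [Nat.mem_primesLE] at this
  exact this.2.pos

/-- the main factor of the sieve -/
noncomputable def MF (Q : ℕ → Prop) (z a' c m : ℕ) : ℝ :=
  ∏ q ∈ PP Q z a' c, (1 - (1 / (q : ℝ) - 1 / (q : ℝ) ^ 2))
    + Real.exp (-(2 * m : ℝ)) * Real.exp (Real.exp 1 * ∑ q ∈ PP Q z a' c, (1 / (q : ℝ) - 1 / (q : ℝ) ^ 2))

theorem mod_eq_of_inv {α a' β β' : ℕ} (hcop : Nat.Coprime a' α) {a b : ℕ}
    (h1 : α * a + β * a' = α * β + 1) (h2 : α * b + β' * a' = α * β' + 1) : β % α = β' % α := by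
  have h3 : β * a' ≡ β' * a' [MOD α] := by
    have h4 : β * a' ≡ 1 [MOD α] := by
      have h5 : (α * a + β * a') % α = (β * a') % α := by rw [Nat.mul_add_mod]
      have h6 : (α * β + 1) % α = 1 % α := by rw [Nat.mul_add_mod]
      rw [Nat.ModEq, ← h5, h1, h6]
    have h4' : β' * a' ≡ 1 [MOD α] := by
      have h5 : (α * b + β' * a') % α = (β' * a') % α := by rw [Nat.mul_add_mod]
      have h6 : (α * β' + 1) % α = 1 % α := by rw [Nat.mul_add_mod]
      rw [Nat.ModEq, ← h5, h2, h6]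
    exact h4.trans h4'.symm
  exact Nat.ModEq.cancel_right_of_coprime (by rw [Nat.gcd_comm]; exact hcop) h3

open Classical in
/-- **the count for fixed `α` and `a'`** -/
theorem fix_count (Q : ℕ → Prop) (X α a' z m : ℕ) (hα : 2 ≤ α) (ha'α : a' < α)
    (hcop : Nat.Coprime a' α) :
    ((((range (X / α + 1)).filter (fun β => InK Q α a' β)).card : ℕ) : ℝ)
      ≤ (((X / α ^ 2 + 1 : ℕ) : ℝ) / ee Q z a') * MF Q z a' (α - a') m
        + 3 * (2 * (PP Q z a' (α - a')).card + 1) ^ (2 * m) := by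
  set K := (range (X / α + 1)).filter (fun β => InK Q α a' β) with hK
  set c := α - a' with hc
  have hcpos : 0 < c := by omega
  have hcα : a' + c = α := by omega
  have hα0 : 0 < α := by omega
  rcases K.eq_empty_or_nonempty with h0 | ⟨β₁, hβ₁⟩
  · rw [h0, card_empty]
    have hmf : 0 ≤ MF Q z a' c m := by
      unfold MF
      refine add_nonneg (Finset.prod_nonneg fun q hq => ?_) (by positivity)
      have hq' := (mem_filter.1 hq).1
      rw [Nat.mem_primesLE] at hq'
      have h1 : (1 : ℝ) ≤ q := by exact_mod_cast hq'.2.one_le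
      have h2 : 1 / (q : ℝ) ≤ 1 := by rw [div_le_one (by linarith)]; exact h1
      have h3 : 0 ≤ 1 / (q : ℝ) ^ 2 := by positivity
      linarith
    push_cast
    positivity
  · have hβ₁' := (mem_filter.1 hβ₁).2
    obtain ⟨a₁, ha₁, hrel₁, _⟩ := hβ₁'
    set β₀ := β₁ % α with hβ₀
    -- coprimality facts
    have hcopc : Nat.Coprime c a' := by
      rw [Nat.Coprime]
      have h1 : Nat.gcd c a' ∣ a' := Nat.gcd_dvd_right _ _
      have h2 : Nat.gcd c a' ∣ α := by
        rw [← hcα]; exact dvd_add h1 (Nat.gcd_dvd_left _ _)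
      have h3 : Nat.gcd c a' ∣ Nat.gcd a' α := Nat.dvd_gcd h1 h2
      rw [Nat.Coprime] at hcop
      rw [hcop] at h3
      exact Nat.dvd_one.1 h3
    -- the relation α a = β c + 1
    have hrelc : ∀ β a : ℕ, α * a + β * a' = α * β + 1 → α * a = β * c + 1 := by
      intro β a h
      have h1 : α * β = β * a' + β * c := by rw [← hcα]; ring
      omega
    -- the base point
    obtain ⟨u, hu⟩ : ∃ u, α * u = β₀ * c + 1 := by
      have h1 := hrelc β₁ a₁ hrel₁
      have h2 : β₁ = α * (β₁ / α) + β₀ := (Nat.div_add_mod β₁ α).symm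
      have h3 : α ∣ β₀ * c + 1 := by
        have h4 : α * a₁ = α * ((β₁ / α) * c) + (β₀ * c + 1) := by
          rw [h1]
          conv_lhs => rw [h2]
          ring
        have h5 : α ∣ α * ((β₁ / α) * c) + (β₀ * c + 1) := ⟨a₁, h4.symm⟩
        exact (Nat.dvd_add_right (dvd_mul_right _ _)).1 h5
      obtain ⟨u, hu⟩ := h3
      exact ⟨u, hu.symm⟩
    -- the injection
    have hmap : K.image (fun β => β / α) ⊆ ((range (X / α ^ 2 + 1)).filter (fun t => ee Q z a' ∣ u + c * t)).filter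
        (fun t => ∀ q ∈ PP Q z a' c, ¬ (q ∣ u + c * t ∧ ¬ q ^ 2 ∣ u + c * t)) := by
      intro t ht
      rw [mem_image] at ht
      obtain ⟨β, hβ, rfl⟩ := ht
      rw [hK, mem_filter, mem_range] at hβ
      obtain ⟨hβX, a, ha, hrel, hno⟩ := hβ
      have hmod : β % α = β₀ := mod_eq_of_inv hcop hrel hrel₁
      have hβeq : β = α * (β / α) + β₀ := by
        rw [← hmod]; exact (Nat.div_add_mod β α).symm
      have haeq : a = u + c * (β / α) := by
        have h1 := hrelc β a hrel
        have h2 : α * a = α * (u + c * (β / α)) := by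
          rw [h1]
          have h3 : α * (u + c * (β / α)) = α * u + α * (c * (β / α)) := by ring
          rw [h3, hu]
          conv_lhs => rw [hβeq]
          ring
        exact Nat.eq_of_mul_eq_mul_left hα0 h2
      rw [mem_filter, mem_filter, mem_range, ← haeq]
      refine ⟨⟨?_, ?_⟩, ?_⟩
      · have h1 : β / α ≤ X / α / α := Nat.div_le_div_right (by omega)
        rw [Nat.div_div_eq_div_mul] at h1
        rw [sq]
        omega
      · -- e divides a
        have h1 := (prod_dvd_iff (EE Q z a') (fun q => q) (fun q hq r hr hqr => by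
          have hq' := (mem_filter.1 hq).1
          have hr' := (mem_filter.1 hr).1
          rw [Nat.mem_primesLE] at hq' hr'
          exact (Nat.coprime_primes hq'.2 hr'.2).2 hqr) a)
        refine h1.2 fun q hq => ?_
        unfold EE at hq
        rw [mem_filter, Nat.mem_primesLE] at hq
        obtain ⟨⟨_, hqp⟩, hQ, hqa', hq2⟩ := hq
        by_contra hqa
        have h2 := hno q hqp hQ (hqa'.mul_left a)
        exact hq2 ((Nat.Coprime.pow_left 2 ((Nat.Prime.coprime_iff_not_dvd hqp).2 hqa)).dvd_of_dvd_mul_left h2)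
      · intro q hq
        unfold PP at hq
        rw [mem_filter, Nat.mem_primesLE] at hq
        obtain ⟨⟨_, hqp⟩, hQ, hqa', hqc⟩ := hq
        rintro ⟨h1, h2⟩
        have h3 := hno q hqp hQ (h1.mul_right a')
        exact h2 ((Nat.Coprime.pow_left 2 ((Nat.Prime.coprime_iff_not_dvd hqp).2 hqa')).dvd_of_dvd_mul_right h3)
    have hinj : Set.InjOn (fun β => β / α) (K : Set ℕ) := by
      intro β hβ β' hβ' h
      rw [mem_coe, hK, mem_filter, mem_range] at hβ hβ'
      obtain ⟨_, a, _, hrel, _⟩ := hβ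
      obtain ⟨_, b, _, hrel', _⟩ := hβ'
      have hmod : β % α = β' % α := mod_eq_of_inv hcop hrel hrel'
      simp only at h
      rw [← Nat.div_add_mod β α, ← Nat.div_add_mod β' α, h, hmod]
    have hcard : (K.card : ℝ) ≤ ((((range (X / α ^ 2 + 1)).filter (fun t => ee Q z a' ∣ u + c * t)).filter
        (fun t => ∀ q ∈ PP Q z a' c, ¬ (q ∣ u + c * t ∧ ¬ q ^ 2 ∣ u + c * t))).card : ℝ) := by
      rw [← card_image_of_injOn hinj]
      exact_mod_cast card_le_card hmap
    have hP : ∀ q ∈ PP Q z a' c, q.Prime := by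
      intro q hq
      unfold PP at hq
      rw [mem_filter, Nat.mem_primesLE] at hq
      exact hq.1.2
    have hsieve := sieve_prog (X / α ^ 2 + 1) u c (ee Q z a') m (ee_pos Q z a') (PP Q z a' c) hP
      (Nat.Coprime.prod_right fun q hq => by
        unfold EE at hq
        rw [mem_filter, Nat.mem_primesLE] at hq
        exact Nat.Coprime.coprime_dvd_right hq.2.2.1 hcopc)
      (fun q hq => by
        have hqp := hP q hq
        unfold PP at hq
        rw [mem_filter] at hq
        exact ((Nat.Prime.coprime_iff_not_dvd hqp).2 hq.2.2.2).symm)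
      (fun q hq => by
        have hqp := hP q hq
        unfold PP at hq
        rw [mem_filter] at hq
        refine Nat.Coprime.prod_left fun r hr => ?_
        unfold EE at hr
        rw [mem_filter, Nat.mem_primesLE] at hr
        refine (Nat.coprime_primes hr.1.2 hqp).2 ?_
        rintro rfl
        exact hq.2.2.1 hr.2.2.1)
    exact hcard.trans hsieve

/-- the exponential form of the main factor -/
theorem MF_le (Q : ℕ → Prop) (z a' c m : ℕ)
    (hm : (Real.exp 1 + 1) * ∑ q ∈ Nat.primesLE z, (1 : ℝ) / q ≤ 2 * m) :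
    MF Q z a' c m ≤ 2 * Real.exp (-∑ q ∈ PP Q z a' c, (1 / (q : ℝ) - 1 / (q : ℝ) ^ 2)) := by
  classical
  unfold MF
  set E := ∑ q ∈ PP Q z a' c, (1 / (q : ℝ) - 1 / (q : ℝ) ^ 2) with hE
  have hnn : ∀ q ∈ PP Q z a' c, 0 ≤ (1 / (q : ℝ) - 1 / (q : ℝ) ^ 2) ∧ (1 / (q : ℝ) - 1 / (q : ℝ) ^ 2) ≤ 1 := by
    intro q hq
    have hq' := (mem_filter.1 hq).1
    rw [Nat.mem_primesLE] at hq'
    have h1 : (1 : ℝ) ≤ q := by exact_mod_cast hq'.2.one_le
    have h2 : 1 / (q : ℝ) ≤ 1 := by rw [div_le_one (by linarith)]; exact h1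
    have h3 : 0 ≤ 1 / (q : ℝ) ^ 2 := by positivity
    have h4 : 1 / (q : ℝ) ^ 2 ≤ 1 / (q : ℝ) := one_div_le_one_div_of_le (by linarith) (by nlinarith)
    constructor <;> linarith
  have h1 : ∏ q ∈ PP Q z a' c, (1 - (1 / (q : ℝ) - 1 / (q : ℝ) ^ 2)) ≤ Real.exp (-E) := by
    rw [hE, ← Finset.sum_neg_distrib, Real.exp_sum]
    refine Finset.prod_le_prod (fun q hq => by linarith [(hnn q hq).2]) (fun q hq => ?_)
    have := Real.add_one_le_exp (-(1 / (q : ℝ) - 1 / (q : ℝ) ^ 2))
    linarith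
  have h2 : E ≤ ∑ q ∈ Nat.primesLE z, (1 : ℝ) / q := by
    have h3 : E ≤ ∑ q ∈ PP Q z a' c, (1 : ℝ) / q := by
      refine Finset.sum_le_sum fun q _ => ?_
      have : 0 ≤ 1 / (q : ℝ) ^ 2 := by positivity
      linarith
    exact h3.trans (Finset.sum_le_sum_of_subset_of_nonneg (filter_subset _ _) (fun q _ _ => by positivity))
  have h3 : Real.exp (-(2 * m : ℝ)) * Real.exp (Real.exp 1 * E) ≤ Real.exp (-E) := by
    rw [← Real.exp_add, Real.exp_le_exp]
    have h4 : (Real.exp 1 + 1) * E ≤ (Real.exp 1 + 1) * ∑ q ∈ Nat.primesLE z, (1 : ℝ) / q :=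
      mul_le_mul_of_nonneg_left h2 (by positivity)
    linarith
  linarith

end Pool.Agent.Lib.MP_f4ebb7_co.V
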