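import Pool.Agent.Lib.MP_f4ebb7_co.Group
import Pool.Agent.Lib.MP_f4ebb7_co.HTA

/-!
# The parametrisation of the parameters of a difference set
-/

set_option autoImplicit false

namespace Pool.Agent.Lib.MP_f4ebb7_co.V

open Finset

/-- the parametrisation: `v = α β + 1 = α a + β a'`, `n = a a'` -/
theorem param {G : Type*} [AddCommGroup G] [Fintype G] [DecidableEq G] (D : Finset G) (l n : ℕ)
    (hD : ∀ g : G, g ≠ 0 → ((D ×ˢ D).filter (fun x => x.1 - x.2 = g)).card = l) (hk : D.card = n + l)
    (hn : 2 ≤ n) : ∃ α β a a' : ℕ, 2 ≤ α ∧ 2 ≤ β ∧ 1 ≤ a ∧ 1 ≤ a' ∧ α * β + 1 = Fintype.card G ∧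
      α * a + β * a' = α * β + 1 ∧ n = a * a' := by
  have h1 := param_eq D l n hD hk
  have hkv : n + l ≤ Fintype.card G := by rw [← hk]; exact card_le_univ D
  set v := Fintype.card G with hv
  set k := n + l with hkdef
  have hk2 : 2 ≤ k := by omega
  obtain ⟨w, hw⟩ : ∃ w, v = w + 1 := ⟨v - 1, by omega⟩
  obtain ⟨j, hj⟩ : ∃ j, k = j + 1 := ⟨k - 1, by omega⟩
  -- l w = k j
  have h2 : l * w = k * j := by
    rw [hw] at h1
    have h3 : k ^ 2 = k * j + k := by rw [hj]; ring
    have h4 : n + l * (w + 1) = l * w + k := by rw [hkdef]; ring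
    rw [h3, h4] at h1
    omega
  have hw0 : 0 < w := by omega
  set α := Nat.gcd w k with hα
  have hα0 : 0 < α := Nat.gcd_pos_of_pos_left _ hw0
  obtain ⟨β, hβ⟩ : α ∣ w := Nat.gcd_dvd_left _ _
  obtain ⟨a, ha⟩ : α ∣ k := Nat.gcd_dvd_right _ _
  have hcop : Nat.Coprime β a := by
    have h3 := Nat.coprime_div_gcd_div_gcd hα0
    rw [← hα] at h3
    rw [hβ, ha] at h3
    rwa [Nat.mul_div_cancel_left _ hα0, Nat.mul_div_cancel_left _ hα0] at h3
  have hβj : β ∣ j := by
    have h3 : α * (l * β) = α * (a * j) := by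
      have h4 : l * w = l * (α * β) := by rw [← hβ]
      have h5 : k * j = α * a * j := by rw [← ha]
      rw [h4, h5] at h2
      linarith
    have h4 : l * β = a * j := Nat.eq_of_mul_eq_mul_left hα0 h3
    have h5 : β ∣ a * j := ⟨l, by rw [← h4]; ring⟩
    exact hcop.dvd_of_dvd_mul_left h5
  obtain ⟨b, hb⟩ := hβj
  have hβ0 : 0 < β := by
    rcases Nat.eq_zero_or_pos β with h | h
    · rw [h, mul_zero] at hβ; omega
    · exact h
  have hlab : l = a * b := by
    have h3 : l * (α * β) = (a * b) * (α * β) := by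
      have h4 : l * w = l * (α * β) := by rw [← hβ]
      have h5 : k * j = (α * a) * (β * b) := by rw [← ha, ← hb]
      rw [h4, h5] at h2
      rw [h2]; ring
    exact Nat.eq_of_mul_eq_mul_right (Nat.mul_pos hα0 hβ0) h3
  have hnk : n + a * b = α * a := by rw [← hlab, ← ha]
  have ha0 : 1 ≤ a := by
    rcases Nat.eq_zero_or_pos a with h | h
    · rw [h] at hnk; simp at hnk; omega
    · exact h
  have hbα : b < α := by
    by_contra h
    push Not at h
    have h3 : α * a ≤ a * b := by rw [mul_comm α a]; exact Nat.mul_le_mul_left a h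
    omega
  obtain ⟨a', ha'⟩ : ∃ a', α = b + a' := ⟨α - b, by omega⟩
  have ha'1 : 1 ≤ a' := by omega
  have hnaa : n = a * a' := by
    have h3 : n + a * b = (b + a') * a := by rw [← ha']; exact hnk
    have h4 : (b + a') * a = a * a' + a * b := by ring
    omega
  have hab : α * a = β * b + 1 := by rw [← ha, hj, hb]
  have hrel : α * a + β * a' = α * β + 1 := by
    have h3 : α * β = β * b + β * a' := by
      calc α * β = (b + a') * β := by rw [← ha']
        _ = β * b + β * a' := by ring
    rw [hab, h3]; ring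
  refine ⟨α, β, a, a', ?_, ?_, ha0, ha'1, ?_, hrel, hnaa⟩
  · by_contra h
    have h3 : α = 1 := by omega
    have h4 : b = 0 := by omega
    rw [h3, h4] at hab
    rw [h3] at ha
    omega
  · by_contra h
    have h3 : β = 1 := by omega
    rw [h3] at hab hrel hβ
    have h4 : w = α := by omega
    have h5 : a' = 1 := by
      -- k ≤ v = α + 1, k = α a
      have h6 : α * a ≤ α + 1 := by omega
      have h7 : α * a + a' = α + 1 := by linarith
      have h8 : α ≤ α * a := Nat.le_mul_of_pos_right α ha0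
      omega
    have h9 : n = a := by rw [hnaa, h5, mul_one]
    have h10 : α * a = α := by
      have h7 : α * a + a' = α + 1 := by linarith
      omega
    have h11 : a = 1 := by
      have : α * a = α * 1 := by rw [h10, mul_one]
      exact Nat.eq_of_mul_eq_mul_left hα0 this
    omega
  · rw [hw, hβ]

/-- the Legendre condition at an odd prime dividing the group order -/
theorem exact_cond {G : Type*} [AddCommGroup G] [Fintype G] [DecidableEq G] (D : Finset G) (l n : ℕ)
    (hD : ∀ g : G, g ≠ 0 → ((D ×ˢ D).filter (fun x => x.1 - x.2 = g)).card = l) (hk : D.card = n + l)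
    (p : ℕ) (hp : p.Prime) (hpG : p ∣ Fintype.card G) :
    NoExact (fun q => jacobiSym (q : ℤ) p = -1) n := by
  have : Fact p.Prime := ⟨hp⟩
  obtain ⟨π, hπ⟩ := exists_hom p hpG
  have hac := autocorr p π hπ D l n hD hk
  intro q hq hj hqn
  have : Fact q.Prime := ⟨hq⟩
  rw [← jacobiSym.legendreSym.to_jacobiSym] at hj
  have h1 := sq_dvd_of_legendre p q hj _ (n : ℤ) hac (by exact_mod_cast hqn)
  exact_mod_cast h1

end Pool.Agent.Lib.MP_f4ebb7_co.V
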