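import Pool.Agent.Lib.MP_f4ebb7_co.V.Brun

/-!
# The sieve for exact divisibility in an arithmetic progression
-/

set_option autoImplicit false

namespace Pool.Agent.Lib.MP_f4ebb7_co.V

open Finset

theorem prod_dvd_iff (S : Finset ℕ) (w : ℕ → ℕ) (hw : ∀ q ∈ S, ∀ r ∈ S, q ≠ r → Nat.Coprime (w q) (w r)) (a : ℕ) :
    (∏ q ∈ S, w q) ∣ a ↔ ∀ q ∈ S, w q ∣ a := by
  constructor
  · intro h q hq
    exact (Finset.dvd_prod_of_mem w hq).trans h
  · intro h
    refine Finset.prod_dvd_of_isRelPrime ?_ h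
    intro q hq r hr hqr
    exact Nat.coprime_iff_isRelPrime.1 (hw q hq r hr hqr)

/-- the counting hypothesis of the sieve -/
theorem count_exact (N u c e : ℕ) (he : 0 < e) (S : Finset ℕ) (hS : ∀ q ∈ S, q.Prime)
    (hce : Nat.Coprime c e) (hcS : ∀ q ∈ S, Nat.Coprime c q) (heS : ∀ q ∈ S, Nat.Coprime e q) :
    |((((range N).filter (fun t => e ∣ u + c * t)).filter
        (fun t => ∀ q ∈ S, (q ∣ u + c * t ∧ ¬ q ^ 2 ∣ u + c * t))).card : ℝ)
      - (N : ℝ) / e * ∏ q ∈ S, (1 / (q : ℝ) - 1 / (q : ℝ) ^ 2)| ≤ 2 ^ S.card := by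
  classical
  set w : Finset ℕ → ℕ → ℕ := fun S' q => if q ∈ S' then q ^ 2 else q with hw
  set D : Finset ℕ → ℕ := fun S' => e * ∏ q ∈ S, w S' q with hD
  have hwpos : ∀ S' : Finset ℕ, ∀ q ∈ S, 0 < w S' q := by
    intro S' q hq
    simp only [hw]
    split_ifs
    · exact pow_pos (hS q hq).pos 2
    · exact (hS q hq).pos
  have hDpos : ∀ S', 0 < D S' := fun S' => Nat.mul_pos he (Finset.prod_pos (hwpos S'))
  have hwcop : ∀ S' : Finset ℕ, ∀ q ∈ S, ∀ r ∈ S, q ≠ r → Nat.Coprime (w S' q) (w S' r) := by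
    intro S' q hq r hr hqr
    have h1 : Nat.Coprime q r := (Nat.coprime_primes (hS q hq) (hS r hr)).2 hqr
    simp only [hw]
    split_ifs
    · exact Nat.Coprime.pow 2 2 h1
    · exact Nat.Coprime.pow_left 2 h1
    · exact Nat.Coprime.pow_right 2 h1
    · exact h1
  have hecop : ∀ S' : Finset ℕ, Nat.Coprime e (∏ q ∈ S, w S' q) := by
    intro S'
    refine Nat.Coprime.prod_right fun q hq => ?_
    simp only [hw]
    split_ifs
    · exact Nat.Coprime.pow_right 2 (heS q hq)
    · exact heS q hq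
  have hccop : ∀ S' : Finset ℕ, Nat.Coprime c (D S') := by
    intro S'
    refine Nat.Coprime.mul_right hce (Nat.Coprime.prod_right fun q hq => ?_)
    simp only [hw]
    split_ifs
    · exact Nat.Coprime.pow_right 2 (hcS q hq)
    · exact hcS q hq
  have hdvd : ∀ S' : Finset ℕ, ∀ a : ℕ, D S' ∣ a ↔ e ∣ a ∧ ∀ q ∈ S, w S' q ∣ a := by
    intro S' a
    rw [← prod_dvd_iff S (w S') (hwcop S') a]
    constructor
    · intro h
      exact ⟨(dvd_mul_right _ _).trans h, (dvd_mul_left _ _).trans h⟩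
    · rintro ⟨h1, h2⟩
      exact Nat.Coprime.mul_dvd_of_dvd_of_dvd (hecop S') h1 h2
  -- the count as an alternating sum
  have hcard : ((((range N).filter (fun t => e ∣ u + c * t)).filter
        (fun t => ∀ q ∈ S, (q ∣ u + c * t ∧ ¬ q ^ 2 ∣ u + c * t))).card : ℝ)
      = ∑ S' ∈ S.powerset, (-1 : ℝ) ^ S'.card * (((range N).filter (fun t => D S' ∣ u + c * t)).card : ℝ) := by
    have h1 : ((((range N).filter (fun t => e ∣ u + c * t)).filter
        (fun t => ∀ q ∈ S, (q ∣ u + c * t ∧ ¬ q ^ 2 ∣ u + c * t))).card : ℝ)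
        = ∑ t ∈ range N, (if e ∣ u + c * t then (1 : ℝ) else 0) *
          ∏ q ∈ S, ((if q ∣ u + c * t then (1 : ℝ) else 0) - (if q ^ 2 ∣ u + c * t then (1 : ℝ) else 0)) := by
      rw [Finset.filter_filter, Finset.card_filter]
      push_cast
      refine Finset.sum_congr rfl fun t _ => ?_
      have h2 : ∀ q ∈ S, ((if q ∣ u + c * t then (1 : ℝ) else 0) - (if q ^ 2 ∣ u + c * t then (1 : ℝ) else 0))
          = if (q ∣ u + c * t ∧ ¬ q ^ 2 ∣ u + c * t) then 1 else 0 := by
        intro q _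
        by_cases h3 : q ^ 2 ∣ u + c * t
        · have h4 : q ∣ u + c * t := (dvd_pow_self q two_ne_zero).trans h3
          simp [h3, h4]
        · by_cases h4 : q ∣ u + c * t
          · simp [h3, h4]
          · simp [h3, h4]
      rw [Finset.prod_congr rfl h2, Finset.prod_ite_zero, Finset.prod_const_one]
      by_cases h3 : e ∣ u + c * t
      · by_cases h4 : ∀ q ∈ S, (q ∣ u + c * t ∧ ¬ q ^ 2 ∣ u + c * t)
        · rw [if_pos ⟨h3, h4⟩, if_pos h3, if_pos h4, one_mul]
        · rw [if_neg (fun h => h4 h.2), if_pos h3, if_neg h4, mul_zero]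
      · rw [if_neg (fun h => h3 h.1), if_neg h3, zero_mul]
    rw [h1]
    have h2 : ∀ t ∈ range N, (if e ∣ u + c * t then (1 : ℝ) else 0) *
          ∏ q ∈ S, ((if q ∣ u + c * t then (1 : ℝ) else 0) - (if q ^ 2 ∣ u + c * t then (1 : ℝ) else 0))
        = ∑ S' ∈ S.powerset, (-1 : ℝ) ^ S'.card * (if D S' ∣ u + c * t then (1 : ℝ) else 0) := by
      intro t _
      rw [Finset.prod_sub, Finset.mul_sum]
      refine Finset.sum_congr rfl fun S' hS' => ?_
      rw [mem_powerset] at hS'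
      rw [Finset.prod_ite_zero, Finset.prod_ite_zero, Finset.prod_const_one, Finset.prod_const_one]
      have h3 : (D S' ∣ u + c * t) ↔ (e ∣ u + c * t ∧ (∀ q ∈ S \ S', q ∣ u + c * t) ∧ ∀ q ∈ S', q ^ 2 ∣ u + c * t) := by
        rw [hdvd]
        constructor
        · rintro ⟨h4, h5⟩
          refine ⟨h4, fun q hq => ?_, fun q hq => ?_⟩
          · rw [mem_sdiff] at hq
            have := h5 q hq.1
            simp only [hw, if_neg hq.2] at this
            exact this
          · have := h5 q (hS' hq)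
            simp only [hw, if_pos hq] at this
            exact this
        · rintro ⟨h4, h5, h6⟩
          refine ⟨h4, fun q hq => ?_⟩
          simp only [hw]
          split_ifs with h7
          · exact h6 q h7
          · exact h5 q (mem_sdiff.2 ⟨hq, h7⟩)
      by_cases h4 : e ∣ u + c * t
      · by_cases h5 : ∀ q ∈ S \ S', q ∣ u + c * t
        · by_cases h6 : ∀ q ∈ S', q ^ 2 ∣ u + c * t
          · rw [if_pos h4, if_pos h5, if_pos h6, if_pos (h3.2 ⟨h4, h5, h6⟩)]
            ring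
          · rw [if_neg h6, if_neg (fun h => h6 (h3.1 h).2.2)]
            ring
        · rw [if_neg h5, if_neg (fun h => h5 (h3.1 h).2.1)]
          ring
      · rw [if_neg h4, if_neg (fun h => h4 (h3.1 h).1)]
        ring
    rw [Finset.sum_congr rfl h2, Finset.sum_comm]
    refine Finset.sum_congr rfl fun S' _ => ?_
    rw [← Finset.mul_sum, Finset.sum_boole]
  have hmain : (N : ℝ) / e * ∏ q ∈ S, (1 / (q : ℝ) - 1 / (q : ℝ) ^ 2)
      = ∑ S' ∈ S.powerset, (-1 : ℝ) ^ S'.card * ((N : ℝ) / D S') := by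
    rw [Finset.prod_sub, Finset.mul_sum]
    refine Finset.sum_congr rfl fun S' hS' => ?_
    rw [mem_powerset] at hS'
    have h1 : ((D S' : ℕ) : ℝ) = e * ((∏ q ∈ S \ S', (q : ℝ)) * ∏ q ∈ S', (q : ℝ) ^ 2) := by
      simp only [hD]
      push_cast
      congr 1
      rw [← Finset.prod_sdiff hS']
      congr 1
      · refine Finset.prod_congr rfl fun q hq => ?_
        rw [mem_sdiff] at hq
        simp only [hw, if_neg hq.2]
      · refine Finset.prod_congr rfl fun q hq => ?_
        simp only [hw, if_pos hq]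
        push_cast
        rfl
    rw [h1]
    simp only [one_div, Finset.prod_inv_distrib]
    rw [div_eq_mul_inv, div_eq_mul_inv, mul_inv, mul_inv]
    ring
  rw [hcard, hmain, ← Finset.sum_sub_distrib]
  refine (Finset.abs_sum_le_sum_abs _ _).trans ?_
  have h1 : ∀ S' ∈ S.powerset, |(-1 : ℝ) ^ S'.card * (((range N).filter (fun t => D S' ∣ u + c * t)).card : ℝ)
      - (-1 : ℝ) ^ S'.card * ((N : ℝ) / D S')| ≤ 1 := by
    intro S' _
    rw [← mul_sub, abs_mul, abs_pow, abs_neg, abs_one, one_pow, one_mul]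
    exact count_dvd N (D S') u c (hDpos S') (hccop S')
  refine (Finset.sum_le_sum h1).trans ?_
  rw [Finset.sum_const, card_powerset, nsmul_eq_mul, mul_one]
  push_cast
  exact le_rfl

/-- **The sieve in an arithmetic progression** -/
theorem sieve_prog (N u c e m : ℕ) (he : 0 < e) (P : Finset ℕ) (hP : ∀ q ∈ P, q.Prime)
    (hce : Nat.Coprime c e) (hcP : ∀ q ∈ P, Nat.Coprime c q) (heP : ∀ q ∈ P, Nat.Coprime e q) :
    ((((range N).filter (fun t => e ∣ u + c * t)).filter
        (fun t => ∀ q ∈ P, ¬ (q ∣ u + c * t ∧ ¬ q ^ 2 ∣ u + c * t))).card : ℝ)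
      ≤ (N : ℝ) / e * (∏ q ∈ P, (1 - (1 / (q : ℝ) - 1 / (q : ℝ) ^ 2))
          + Real.exp (-(2 * m : ℝ)) * Real.exp (Real.exp 1 * ∑ q ∈ P, (1 / (q : ℝ) - 1 / (q : ℝ) ^ 2)))
        + 3 * (2 * P.card + 1) ^ (2 * m) := by
  classical
  have h := brun ((range N).filter (fun t => e ∣ u + c * t)) P (fun q t => q ∣ u + c * t ∧ ¬ q ^ 2 ∣ u + c * t)
    (fun q => 1 / (q : ℝ) - 1 / (q : ℝ) ^ 2) ((N : ℝ) / e) (by positivity) m
    (fun q hq => by
      have h1 : (1 : ℝ) ≤ q := by exact_mod_cast (hP q hq).one_le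
      rw [sub_nonneg]
      apply one_div_le_one_div_of_le (by linarith)
      nlinarith)
    (fun S hS => by
      have := count_exact N u c e he S (fun q hq => hP q (hS hq)) hce (fun q hq => hcP q (hS hq))
        (fun q hq => heP q (hS hq))
      convert this)
  convert h

end Pool.Agent.Lib.MP_f4ebb7_co.V
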