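import Pool.Agent.Lib.MP_f4ebb7_co.V.Block

/-!
# The sum over the blocks
-/

set_option autoImplicit false

namespace Pool.Agent.Lib.MP_f4ebb7_co.V

open Finset

/-- the integer part of the tenth root -/
def rt (y : ℕ) : ℕ := Nat.findGreatest (fun s => s ^ 10 ≤ y) y

theorem rt_pow_le (y : ℕ) : rt y ^ 10 ≤ y := by
  unfold rt
  have h : (fun s => s ^ 10 ≤ y) (Nat.findGreatest (fun s => s ^ 10 ≤ y) y) :=
    Nat.findGreatest_spec (P := fun s => s ^ 10 ≤ y) (m := 0) (Nat.zero_le _) (by simp)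
  exact h

theorem lt_rt_succ (y : ℕ) : y < (rt y + 1) ^ 10 := by
  by_contra h
  push Not at h
  have h1 : rt y + 1 ≤ y := (Nat.le_self_pow (by norm_num) _).trans h
  have h2 : rt y + 1 ≤ rt y := Nat.le_findGreatest (P := fun s => s ^ 10 ≤ y) h1 h
  omega

theorem one_le_rt {y : ℕ} (hy : 1 ≤ y) : 1 ≤ rt y := by
  by_contra h
  have h0 : rt y = 0 := by omega
  have := lt_rt_succ y
  rw [h0] at this
  omega

theorem le_two_rt {y : ℕ} (hy : 1 ≤ y) : y ≤ 1024 * rt y ^ 10 := by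
  have h1 := lt_rt_succ y
  have h2 := one_le_rt hy
  have h3 : (rt y + 1) ^ 10 ≤ (2 * rt y) ^ 10 := Nat.pow_le_pow_left (by omega) 10
  have h4 : (2 * rt y) ^ 10 = 1024 * rt y ^ 10 := by rw [mul_pow]; norm_num
  omega

theorem rt_tendsto (s0 : ℕ) : ∃ y0 : ℕ, 1 ≤ y0 ∧ ∀ y : ℕ, y0 ≤ y → s0 ≤ rt y := by
  refine ⟨max 1 (s0 ^ 10), le_max_left _ _, fun y hy => ?_⟩
  have h1 : s0 ^ 10 ≤ y := (le_max_right _ _).trans hy
  have h2 : s0 ≤ y := (Nat.le_self_pow (by norm_num) _).trans h1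
  exact Nat.le_findGreatest (P := fun s => s ^ 10 ≤ y) h2 h1

theorem rr_le_one {k : ℕ} (hk : 1 ≤ k) : rr k ≤ 1 := by
  unfold rr
  exact Real.rpow_le_one_of_one_le_of_nonpos (by exact_mod_cast hk) (by norm_num)

theorem rr_anti {k l : ℕ} (hk : 1 ≤ k) (hkl : k ≤ l) : rr l ≤ rr k := by
  unfold rr
  exact Real.rpow_le_rpow_of_nonpos (by exact_mod_cast hk) (by exact_mod_cast hkl) (by norm_num)

/-- `rr (s^9) ≤ 128 y^(-27/40)` -/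
theorem rr_rt {y : ℕ} (hy : 1 ≤ y) : rr (rt y ^ 9) ≤ 128 * (y : ℝ) ^ (-(27 / 40 : ℝ)) := by
  have h1 := le_two_rt hy
  have hs1 := one_le_rt hy
  set s := rt y with hs
  have hs0 : (0 : ℝ) < s := by exact_mod_cast hs1
  have hy0 : (0 : ℝ) < y := by exact_mod_cast hy
  have h2 : (y : ℝ) ≤ 1024 * (s : ℝ) ^ 10 := by exact_mod_cast h1
  have h3 : rr (s ^ 9) = ((s : ℝ) ^ 10) ^ (-(27 / 40 : ℝ)) := by
    unfold rr
    push_cast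
    rw [← Real.rpow_natCast, ← Real.rpow_natCast, ← Real.rpow_mul hs0.le, ← Real.rpow_mul hs0.le]
    norm_num
  have h4 : (1024 * (s : ℝ) ^ 10) ^ (-(27 / 40 : ℝ)) ≤ (y : ℝ) ^ (-(27 / 40 : ℝ)) :=
    Real.rpow_le_rpow_of_nonpos hy0 h2 (by norm_num)
  rw [Real.mul_rpow (by norm_num) (by positivity)] at h4
  have h5 : (1 : ℝ) / 128 ≤ (1024 : ℝ) ^ (-(27 / 40 : ℝ)) := by
    have h6 : (1024 : ℝ) ^ (-(27 / 40 : ℝ)) = 2 ^ (-(27 / 4 : ℝ)) := by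
      rw [show (1024 : ℝ) = 2 ^ (10 : ℝ) by norm_num, ← Real.rpow_mul (by norm_num)]
      norm_num
    rw [h6]
    have h7 : (1 : ℝ) / 128 = 2 ^ (-(7 : ℝ)) := by
      rw [Real.rpow_neg (by norm_num)]
      norm_num
    rw [h7]
    exact Real.rpow_le_rpow_of_exponent_le (by norm_num) (by norm_num)
  rw [h3]
  have h8 : 0 ≤ ((s : ℝ) ^ 10) ^ (-(27 / 40 : ℝ)) := by positivity
  nlinarith

/-- the summable series `∑ n^(-5/4)` -/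
theorem summable54 : Summable (fun n : ℕ => (n : ℝ) ^ (-(5 / 4 : ℝ))) := by
  have h := Real.summable_one_div_nat_rpow.2 (show (1 : ℝ) < 5 / 4 by norm_num)
  refine h.congr fun n => ?_
  rw [Real.rpow_neg (Nat.cast_nonneg n), one_div]

theorem two_pow_ge_sq (n : ℕ) : (n : ℝ) ^ 2 ≤ 4 * 2 ^ n := by
  have h : ∀ n : ℕ, n ^ 2 ≤ 4 * 2 ^ n := by
    intro n
    induction n with
    | zero => norm_num
    | succ n ih =>
      rcases Nat.lt_or_ge n 3 with h | h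
      · interval_cases n <;> norm_num
      · rw [pow_succ 2 n]
        nlinarith
  exact_mod_cast h n

/-- the exponential error of one block -/
theorem err_block {J i : ℕ} (X : ℕ) (hX : 2 ^ J ≤ X) (y : ℕ) (hy : 1 ≤ y) (hyJ : y + 2 * i + 2 = J) :
    3 * (2 : ℝ) ^ (2 * i + 1 + (rt y ^ 9 + 1) * (2 * (rt y / 8))) ≤ X * (24 * (y : ℝ) ^ (-(27 / 20 : ℝ))) := by
  set s := rt y with hs
  set E := (s ^ 9 + 1) * (2 * (s / 8)) with hE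
  have hs1 : 1 ≤ s := one_le_rt hy
  have hsy : s ^ 10 ≤ y := rt_pow_le y
  have hE2 : 2 * E ≤ y := by
    have h1 : 8 * (s / 8) ≤ s := Nat.mul_div_le s 8
    have h2 : s ^ 9 + 1 ≤ 2 * s ^ 9 := by
      have := Nat.one_le_pow 9 s hs1
      omega
    calc 2 * E = (s ^ 9 + 1) * (4 * (s / 8)) := by rw [hE]; ring
      _ ≤ (2 * s ^ 9) * (4 * (s / 8)) := Nat.mul_le_mul_right _ h2
      _ = s ^ 9 * (8 * (s / 8)) := by ring
      _ ≤ s ^ 9 * s := Nat.mul_le_mul_left _ h1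
      _ = s ^ 10 := by ring
      _ ≤ y := hsy
  obtain ⟨n, hn⟩ : ∃ n, y = E + n := ⟨y - E, by omega⟩
  have hny : y ≤ 2 * n := by omega
  have hy0 : (0 : ℝ) < y := by exact_mod_cast hy
  have h1 : (2 : ℝ) ^ (2 * i + 1 + E) * 2 ^ (n + 1) = 2 ^ J := by
    rw [← pow_add]
    congr 1
    omega
  have h2 : (2 : ℝ) ^ J ≤ X := by exact_mod_cast hX
  have h3 := two_pow_ge_sq n
  have h4 : (y : ℝ) ≤ 2 * n := by exact_mod_cast hny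
  have h5 : (y : ℝ) ^ 2 ≤ 16 * 2 ^ n := by nlinarith
  have h6 : (y : ℝ) ^ (-(2 : ℝ)) ≤ (y : ℝ) ^ (-(27 / 20 : ℝ)) :=
    Real.rpow_le_rpow_of_exponent_le (by exact_mod_cast hy) (by norm_num)
  have h7 : (y : ℝ) ^ (-(2 : ℝ)) = ((y : ℝ) ^ 2)⁻¹ := by
    rw [Real.rpow_neg hy0.le]
    norm_num
  rw [h7] at h6
  have h8 : (2 : ℝ) ^ (2 * i + 1 + E) ≤ X / 2 ^ (n + 1) := by
    rw [le_div_iff₀ (by positivity), h1]; exact h2
  have h9 : (X : ℝ) / 2 ^ (n + 1) ≤ X * (8 * ((y : ℝ) ^ 2)⁻¹) := by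
    rw [div_eq_mul_inv]
    refine mul_le_mul_of_nonneg_left ?_ (Nat.cast_nonneg X)
    rw [pow_succ, ← div_eq_mul_inv, le_div_iff₀ (by positivity), inv_mul_le_iff₀ (by positivity)]
    linarith
  calc 3 * (2 : ℝ) ^ (2 * i + 1 + E) ≤ 3 * (X * (8 * ((y : ℝ) ^ 2)⁻¹)) := by linarith [h8.trans h9]
    _ = X * (24 * ((y : ℝ) ^ 2)⁻¹) := by ring
    _ ≤ _ := by
        refine mul_le_mul_of_nonneg_left ?_ (Nat.cast_nonneg X)
        linarith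

/-- the number of pairs in the blocks `1 ≤ i`, `2 i + 2 + h ≤ J` -/
noncomputable def S1 (Q : ℕ → Prop) (X J h : ℕ) : ℝ :=
  ∑ i ∈ (Icc 1 J).filter (fun i => 2 * i + 2 + h ≤ J), ∑ α ∈ Ico (2 ^ i) (2 ^ (i + 1)), ((KA Q X α).card : ℝ)

theorem S1_le {Q : ℕ → Prop} (hQ : Dens Q) : ∃ C : ℝ, 0 < C ∧ ∃ J0 : ℕ, ∀ J X h : ℕ,
    J0 ≤ h → h ≤ J → 2 ^ J ≤ X →
    S1 Q X J h ≤ X * (C * Real.log J ^ 2 * ((J : ℝ) ^ (-(7 / 40 : ℝ)) + (h : ℝ) ^ (-(1 / 10 : ℝ))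
      + (J : ℝ) ^ (-(1 / 8 : ℝ)))) := by
  obtain ⟨C0, hC0, s0, hs01, hblock⟩ := block_est hQ
  obtain ⟨y0, hy01, hy0⟩ := rt_tendsto s0
  set Z : ℝ := ∑' n : ℕ, (n : ℝ) ^ (-(5 / 4 : ℝ)) with hZ
  have hZ0 : 0 ≤ Z := tsum_nonneg fun n => Real.rpow_nonneg (Nat.cast_nonneg n) _
  refine ⟨C0 * (256 + (3 / 2) * 128 ^ 2 * Z + Z) + 24 * Z, by positivity, max y0 100, ?_⟩
  intro J X h hh hhJ hX
  have hh0 : y0 ≤ h := (le_max_left _ _).trans hh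
  have hh100 : 100 ≤ h := (le_max_right _ _).trans hh
  have hJ100 : 100 ≤ J := hh100.trans hhJ
  have hJr : (100 : ℝ) ≤ J := by exact_mod_cast hJ100
  have hJ0 : (0 : ℝ) < J := by linarith
  have hh0r : (0 : ℝ) < h := by exact_mod_cast (by omega : 0 < h)
  have hlogJ : 1 ≤ Real.log J := one_le_log (by omega)
  have hX0 : (0 : ℝ) ≤ X := Nat.cast_nonneg X
  set i1 := Nat.sqrt J with hi1
  set A := (Icc 1 J).filter (fun i => 2 * i + 2 + h ≤ J) with hA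
  set L2 := Real.log J ^ 2 with hL2
  have hL21 : 1 ≤ L2 := one_le_pow₀ hlogJ
  -- pointwise bound
  have hpt : ∀ i ∈ A, ∑ α ∈ Ico (2 ^ i) (2 ^ (i + 1)), ((KA Q X α).card : ℝ)
      ≤ X * (C0 * L2 * (if i ≤ i1 then 256 * (J : ℝ) ^ (-(27 / 40 : ℝ)) else 0)
        + C0 * L2 * ((3 / 2) * 128 ^ 2 * ((h : ℝ) ^ (-(1 / 10 : ℝ)) * ((J - 2 * i - 2 : ℕ) : ℝ) ^ (-(5 / 4 : ℝ))))
        + C0 * L2 * ((J : ℝ) ^ (-(1 / 8 : ℝ)) * (i : ℝ) ^ (-(5 / 4 : ℝ)))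
        + 24 * ((h : ℝ) ^ (-(1 / 10 : ℝ)) * ((J - 2 * i - 2 : ℕ) : ℝ) ^ (-(5 / 4 : ℝ)))) := by
    intro i hi
    rw [hA, mem_filter, mem_Icc] at hi
    obtain ⟨⟨hi1', hiJ⟩, hih⟩ := hi
    set y := J - 2 * i - 2 with hy
    have hyJ : y + 2 * i + 2 = J := by omega
    have hyh : h ≤ y := by omega
    have hy1 : 1 ≤ y := by omega
    have hyr : (0 : ℝ) < y := by exact_mod_cast hy1
    have hs := hy0 y (hh0.trans hyh)
    have h1 := hblock (rt y) J X i hs (by omega) hi1' (by omega) hX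
    have h2 := err_block X hX y hy1 hyJ
    have h3 := rr_rt hy1
    have hs1 : 1 ≤ rt y ^ 9 := Nat.one_le_pow _ _ (one_le_rt hy1)
    -- y^(-27/20) ≤ h^(-1/10) y^(-5/4)
    have h4 : (y : ℝ) ^ (-(27 / 20 : ℝ)) ≤ (h : ℝ) ^ (-(1 / 10 : ℝ)) * (y : ℝ) ^ (-(5 / 4 : ℝ)) := by
      have h5 : (y : ℝ) ^ (-(27 / 20 : ℝ)) = (y : ℝ) ^ (-(1 / 10 : ℝ)) * (y : ℝ) ^ (-(5 / 4 : ℝ)) := by
        rw [← Real.rpow_add hyr]; norm_num
      rw [h5]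
      refine mul_le_mul_of_nonneg_right ?_ (Real.rpow_nonneg hyr.le _)
      exact Real.rpow_le_rpow_of_nonpos hh0r (by exact_mod_cast hyh) (by norm_num)
    set s := rt y with hsdef
    have hrs := rr_nonneg (s ^ 9)
    have hri := rr_nonneg i
    have hmin : rr (min (s ^ 9) i) ≤ rr (s ^ 9) + rr i := by
      rcases le_total (s ^ 9) i with h5 | h5
      · rw [min_eq_left h5]; linarith
      · rw [min_eq_right h5]; linarith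
    have hmin1 : rr (min (s ^ 9) i) ≤ 1 := rr_le_one (le_min hs1 hi1')
    have hmin0 := rr_nonneg (min (s ^ 9) i)
    -- the square of rr (s^9)
    have h27 : ((y : ℝ) ^ (-(27 / 40 : ℝ))) ^ 2 = (y : ℝ) ^ (-(27 / 20 : ℝ)) := by
      rw [← Real.rpow_natCast, ← Real.rpow_mul hyr.le]; norm_num
    have hy27 : 0 ≤ (y : ℝ) ^ (-(27 / 40 : ℝ)) := Real.rpow_nonneg hyr.le _
    have hsq : rr (s ^ 9) ^ 2 ≤ 128 ^ 2 * ((h : ℝ) ^ (-(1 / 10 : ℝ)) * (y : ℝ) ^ (-(5 / 4 : ℝ))) := by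
      calc rr (s ^ 9) ^ 2 ≤ (128 * (y : ℝ) ^ (-(27 / 40 : ℝ))) ^ 2 := pow_le_pow_left₀ hrs h3 2
        _ = 128 ^ 2 * (y : ℝ) ^ (-(27 / 20 : ℝ)) := by rw [mul_pow, h27]
        _ ≤ _ := mul_le_mul_of_nonneg_left h4 (by norm_num)
    have hsq0 : 0 ≤ rr (s ^ 9) ^ 2 := by positivity
    have hi0 : (0 : ℝ) < i := by exact_mod_cast hi1'
    have hi54 : 0 ≤ (i : ℝ) ^ (-(5 / 4 : ℝ)) := Real.rpow_nonneg hi0.le _
    have hJ18 : 0 ≤ (J : ℝ) ^ (-(1 / 8 : ℝ)) := Real.rpow_nonneg hJ0.le _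
    have hprod : rr (s ^ 9) * rr (min (s ^ 9) i) ≤ (if i ≤ i1 then 256 * (J : ℝ) ^ (-(27 / 40 : ℝ)) else 0)
        + (3 / 2) * rr (s ^ 9) ^ 2 + (J : ℝ) ^ (-(1 / 8 : ℝ)) * (i : ℝ) ^ (-(5 / 4 : ℝ)) := by
      split_ifs with hii
      · -- small i
        have h5 : (J : ℝ) / 2 ≤ y := by
          have h6 : i1 * i1 ≤ J := Nat.sqrt_le J
          have h7 : 10 ≤ i1 := by rw [hi1, Nat.le_sqrt]; omega
          have h8 : J ≤ 2 * y := by nlinarith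
          have h9 : (J : ℝ) ≤ 2 * y := by exact_mod_cast h8
          linarith
        have h6 : (y : ℝ) ^ (-(27 / 40 : ℝ)) ≤ 2 * (J : ℝ) ^ (-(27 / 40 : ℝ)) := by
          calc (y : ℝ) ^ (-(27 / 40 : ℝ)) ≤ ((J : ℝ) / 2) ^ (-(27 / 40 : ℝ)) :=
                Real.rpow_le_rpow_of_nonpos (by positivity) h5 (by norm_num)
            _ = (J : ℝ) ^ (-(27 / 40 : ℝ)) * 2 ^ (27 / 40 : ℝ) := by
                rw [Real.div_rpow hJ0.le (by norm_num), Real.rpow_neg (by norm_num : (0 : ℝ) ≤ 2), div_inv_eq_mul]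
            _ ≤ (J : ℝ) ^ (-(27 / 40 : ℝ)) * 2 := by
                refine mul_le_mul_of_nonneg_left ?_ (Real.rpow_nonneg hJ0.le _)
                calc (2 : ℝ) ^ (27 / 40 : ℝ) ≤ 2 ^ (1 : ℝ) :=
                      Real.rpow_le_rpow_of_exponent_le (by norm_num) (by norm_num)
                  _ = 2 := Real.rpow_one 2
            _ = _ := by ring
        have h7 : rr (s ^ 9) * rr (min (s ^ 9) i) ≤ rr (s ^ 9) * 1 := mul_le_mul_of_nonneg_left hmin1 hrs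
        have h8 : 0 ≤ (J : ℝ) ^ (-(1 / 8 : ℝ)) * (i : ℝ) ^ (-(5 / 4 : ℝ)) := mul_nonneg hJ18 hi54
        linarith
      · -- large i
        have h5 : rr (s ^ 9) * rr (min (s ^ 9) i) ≤ rr (s ^ 9) * (rr (s ^ 9) + rr i) :=
          mul_le_mul_of_nonneg_left hmin hrs
        have h6 : rr (s ^ 9) * rr i ≤ (1 / 2) * rr (s ^ 9) ^ 2 + (1 / 2) * rr i ^ 2 := by
          nlinarith [sq_nonneg (rr (s ^ 9) - rr i)]
        have h7 : rr i ^ 2 = (i : ℝ) ^ (-(1 / 4 : ℝ)) * (i : ℝ) ^ (-(5 / 4 : ℝ)) := by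
          unfold rr
          rw [← Real.rpow_natCast, ← Real.rpow_mul hi0.le, ← Real.rpow_add hi0]
          norm_num
        have h8 : (i : ℝ) ^ (-(1 / 4 : ℝ)) ≤ (J : ℝ) ^ (-(1 / 8 : ℝ)) := by
          have h9 : J ≤ i ^ 2 := by
            have h10 : J < (i1 + 1) * (i1 + 1) := Nat.lt_succ_sqrt J
            have h11 : i1 + 1 ≤ i := by omega
            nlinarith
          have h10 : (J : ℝ) ≤ (i : ℝ) ^ 2 := by exact_mod_cast h9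
          calc (i : ℝ) ^ (-(1 / 4 : ℝ)) = ((i : ℝ) ^ 2) ^ (-(1 / 8 : ℝ)) := by
                rw [← Real.rpow_natCast, ← Real.rpow_mul hi0.le]; norm_num
            _ ≤ (J : ℝ) ^ (-(1 / 8 : ℝ)) := Real.rpow_le_rpow_of_nonpos hJ0 h10 (by norm_num)
        have h9 : rr i ^ 2 ≤ (J : ℝ) ^ (-(1 / 8 : ℝ)) * (i : ℝ) ^ (-(5 / 4 : ℝ)) := by
          rw [h7]; exact mul_le_mul_of_nonneg_right h8 hi54
        have h10 : 0 ≤ (J : ℝ) ^ (-(1 / 8 : ℝ)) * (i : ℝ) ^ (-(5 / 4 : ℝ)) := mul_nonneg hJ18 hi54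
        nlinarith
    have h5 : C0 * L2 * rr (s ^ 9) * rr (min (s ^ 9) i) ≤ C0 * L2 * ((if i ≤ i1 then 256 * (J : ℝ) ^ (-(27 / 40 : ℝ)) else 0)
        + (3 / 2) * (128 ^ 2 * ((h : ℝ) ^ (-(1 / 10 : ℝ)) * (y : ℝ) ^ (-(5 / 4 : ℝ))))
        + (J : ℝ) ^ (-(1 / 8 : ℝ)) * (i : ℝ) ^ (-(5 / 4 : ℝ))) := by
      rw [mul_assoc (C0 * L2)]
      refine mul_le_mul_of_nonneg_left ?_ (by positivity)
      linarith
    have h6 : X * (C0 * L2 * rr (s ^ 9) * rr (min (s ^ 9) i)) ≤ X * (C0 * L2 * ((if i ≤ i1 then 256 * (J : ℝ) ^ (-(27 / 40 : ℝ)) else 0)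
        + (3 / 2) * (128 ^ 2 * ((h : ℝ) ^ (-(1 / 10 : ℝ)) * (y : ℝ) ^ (-(5 / 4 : ℝ))))
        + (J : ℝ) ^ (-(1 / 8 : ℝ)) * (i : ℝ) ^ (-(5 / 4 : ℝ)))) := mul_le_mul_of_nonneg_left h5 hX0
    have h7 : X * (24 * (y : ℝ) ^ (-(27 / 20 : ℝ))) ≤ X * (24 * ((h : ℝ) ^ (-(1 / 10 : ℝ)) * (y : ℝ) ^ (-(5 / 4 : ℝ)))) :=
      mul_le_mul_of_nonneg_left (mul_le_mul_of_nonneg_left h4 (by norm_num)) hX0
    refine h1.trans ((add_le_add h6 (h2.trans h7)).trans (le_of_eq ?_))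
    ring
  -- summation
  have hsumJ : ∑ i ∈ A, (if i ≤ i1 then 256 * (J : ℝ) ^ (-(27 / 40 : ℝ)) else 0) ≤ 256 * (J : ℝ) ^ (-(7 / 40 : ℝ)) := by
    rw [← Finset.sum_filter, Finset.sum_const, nsmul_eq_mul]
    have h1 : (A.filter (fun i => i ≤ i1)).card ≤ i1 := by
      have h2 : A.filter (fun i => i ≤ i1) ⊆ Icc 1 i1 := by
        intro i hi
        rw [mem_filter, hA, mem_filter, mem_Icc] at hi
        rw [mem_Icc]; exact ⟨hi.1.1.1, hi.2⟩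
      have := card_le_card h2
      rwa [Nat.card_Icc, Nat.add_sub_cancel] at this
    have h2 : ((A.filter (fun i => i ≤ i1)).card : ℝ) ≤ (J : ℝ) ^ (1 / 2 : ℝ) := by
      calc ((A.filter (fun i => i ≤ i1)).card : ℝ) ≤ (i1 : ℝ) := by exact_mod_cast h1
        _ ≤ Real.sqrt J := Real.nat_sqrt_le_real_sqrt
        _ = (J : ℝ) ^ (1 / 2 : ℝ) := Real.sqrt_eq_rpow _
    calc ((A.filter (fun i => i ≤ i1)).card : ℝ) * (256 * (J : ℝ) ^ (-(27 / 40 : ℝ)))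
        ≤ (J : ℝ) ^ (1 / 2 : ℝ) * (256 * (J : ℝ) ^ (-(27 / 40 : ℝ))) :=
          mul_le_mul_of_nonneg_right h2 (by positivity)
      _ = 256 * ((J : ℝ) ^ (1 / 2 : ℝ) * (J : ℝ) ^ (-(27 / 40 : ℝ))) := by ring
      _ = 256 * (J : ℝ) ^ (-(7 / 40 : ℝ)) := by
          rw [← Real.rpow_add hJ0]; norm_num
  have hsumy : ∑ i ∈ A, ((J - 2 * i - 2 : ℕ) : ℝ) ^ (-(5 / 4 : ℝ)) ≤ Z := by
    have hinj : Set.InjOn (fun i => J - 2 * i - 2) (A : Set ℕ) := by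
      intro i hi j hj hij
      rw [mem_coe, hA, mem_filter, mem_Icc] at hi hj
      simp only at hij
      omega
    have h1 : ∑ i ∈ A, ((J - 2 * i - 2 : ℕ) : ℝ) ^ (-(5 / 4 : ℝ))
        = ∑ n ∈ A.image (fun i => J - 2 * i - 2), (n : ℝ) ^ (-(5 / 4 : ℝ)) := by
      rw [Finset.sum_image hinj]
    rw [h1]
    exact summable54.sum_le_tsum _ (fun n _ => Real.rpow_nonneg (Nat.cast_nonneg n) _)
  have hsumi : ∑ i ∈ A, (i : ℝ) ^ (-(5 / 4 : ℝ)) ≤ Z :=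
    summable54.sum_le_tsum _ (fun n _ => Real.rpow_nonneg (Nat.cast_nonneg n) _)
  unfold S1
  refine (Finset.sum_le_sum hpt).trans ?_
  rw [← Finset.mul_sum]
  refine mul_le_mul_of_nonneg_left ?_ hX0
  rw [Finset.sum_add_distrib, Finset.sum_add_distrib, Finset.sum_add_distrib]
  simp only [← Finset.mul_sum]
  have hh10 : 0 ≤ (h : ℝ) ^ (-(1 / 10 : ℝ)) := Real.rpow_nonneg hh0r.le _
  have hJ18 : 0 ≤ (J : ℝ) ^ (-(1 / 8 : ℝ)) := Real.rpow_nonneg hJ0.le _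
  have hJ740 : 0 ≤ (J : ℝ) ^ (-(7 / 40 : ℝ)) := Real.rpow_nonneg hJ0.le _
  have hCL : 0 ≤ C0 * L2 := by positivity
  have e1 := mul_le_mul_of_nonneg_left hsumJ hCL
  have e2 : C0 * L2 * ((3 / 2) * 128 ^ 2 * ((h : ℝ) ^ (-(1 / 10 : ℝ)) * ∑ i ∈ A, ((J - 2 * i - 2 : ℕ) : ℝ) ^ (-(5 / 4 : ℝ))))
      ≤ C0 * L2 * ((3 / 2) * 128 ^ 2 * ((h : ℝ) ^ (-(1 / 10 : ℝ)) * Z)) := by gcongr
  have e3 : C0 * L2 * ((J : ℝ) ^ (-(1 / 8 : ℝ)) * ∑ i ∈ A, (i : ℝ) ^ (-(5 / 4 : ℝ)))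
      ≤ C0 * L2 * ((J : ℝ) ^ (-(1 / 8 : ℝ)) * Z) := by gcongr
  have e4 : 24 * ((h : ℝ) ^ (-(1 / 10 : ℝ)) * ∑ i ∈ A, ((J - 2 * i - 2 : ℕ) : ℝ) ^ (-(5 / 4 : ℝ)))
      ≤ 24 * ((h : ℝ) ^ (-(1 / 10 : ℝ)) * Z) * L2 := by
    calc 24 * ((h : ℝ) ^ (-(1 / 10 : ℝ)) * ∑ i ∈ A, ((J - 2 * i - 2 : ℕ) : ℝ) ^ (-(5 / 4 : ℝ)))
        ≤ 24 * ((h : ℝ) ^ (-(1 / 10 : ℝ)) * Z) := by gcongr
      _ = 24 * ((h : ℝ) ^ (-(1 / 10 : ℝ)) * Z) * 1 := (mul_one _).symm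
      _ ≤ _ := mul_le_mul_of_nonneg_left hL21 (by positivity)
  refine (add_le_add (add_le_add (add_le_add e1 e2) e3) e4).trans ?_
  have f1 : 0 ≤ C0 * L2 * (3 / 2 * 128 ^ 2 * Z) * (J : ℝ) ^ (-(7 / 40 : ℝ)) := by positivity
  have f2 : 0 ≤ C0 * L2 * Z * (J : ℝ) ^ (-(7 / 40 : ℝ)) := by positivity
  have f3 : 0 ≤ 24 * Z * L2 * (J : ℝ) ^ (-(7 / 40 : ℝ)) := by positivity
  have f4 : 0 ≤ C0 * L2 * 256 * (h : ℝ) ^ (-(1 / 10 : ℝ)) := by positivity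
  have f5 : 0 ≤ C0 * L2 * Z * (h : ℝ) ^ (-(1 / 10 : ℝ)) := by positivity
  have f6 : 0 ≤ C0 * L2 * 256 * (J : ℝ) ^ (-(1 / 8 : ℝ)) := by positivity
  have f7 : 0 ≤ C0 * L2 * (3 / 2 * 128 ^ 2 * Z) * (J : ℝ) ^ (-(1 / 8 : ℝ)) := by positivity
  have f8 : 0 ≤ 24 * Z * L2 * (J : ℝ) ^ (-(1 / 8 : ℝ)) := by positivity
  linarith

end Pool.Agent.Lib.MP_f4ebb7_co.V
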