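import Pool.Agent.Lib.MP_f4ebb7_co.V.Asm
import Pool.Agent.Lib.MP_f4ebb7_co.V.Param

/-!
# The orders of groups with nontrivial difference sets have density zero
-/

set_option autoImplicit false

namespace Pool.Agent.Lib.MP_f4ebb7_co.V

open Finset

theorem mem_Bm_of_lt (Q : ℕ → Prop) (X α β a a' : ℕ) (hα : 2 ≤ α) (hβ : α < β) (ha : 1 ≤ a) (ha' : 1 ≤ a')
    (hrel : α * a + β * a' = α * β + 1) (hNE : NoExact Q (a * a')) (hX : α * β ≤ X) : α * β ∈ Bm Q X := by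
  classical
  unfold Bm
  rw [mem_filter, mem_Icc]
  have hαβ : 0 < α * β := Nat.mul_pos (by omega) (by omega)
  refine ⟨⟨hαβ, hX⟩, α, β, hα, hβ, rfl, a', ha', ?_, ?_, a, ha, hrel, hNE⟩
  · by_contra h
    push Not at h
    have h1 : β * α ≤ β * a' := Nat.mul_le_mul_left β h
    have h2 : α * 1 ≤ α * a := Nat.mul_le_mul_left α ha
    have h3 : β * α = α * β := mul_comm _ _
    omega
  · rw [Nat.Coprime]
    have h1 : Nat.gcd a' α ∣ α * a + β * a' :=
      dvd_add ((Nat.gcd_dvd_right _ _).mul_right a) ((Nat.gcd_dvd_left _ _).mul_left β)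
    rw [hrel] at h1
    have h2 : Nat.gcd a' α ∣ α * β := (Nat.gcd_dvd_right _ _).mul_right β
    exact Nat.dvd_one.1 ((Nat.dvd_add_right h2).1 h1)

theorem mem_Bm {G : Type*} [AddCommGroup G] [Fintype G] [DecidableEq G] (D : Finset G) (l n : ℕ)
    (hD : ∀ g : G, g ≠ 0 → ((D ×ˢ D).filter (fun x => x.1 - x.2 = g)).card = l) (hk : D.card = n + l)
    (hn : 2 ≤ n) (p₁ p₂ : ℕ) (hp₁ : p₁.Prime) (hp₂ : p₂.Prime) (h₁ : p₁ ∣ Fintype.card G)
    (h₂ : p₂ ∣ Fintype.card G) (X : ℕ) (hX : Fintype.card G ≤ X) :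
    Fintype.card G - 1 ∈ Bm (QQ p₁ p₂) X := by
  obtain ⟨α, β, a, a', hα, hβ, ha, ha', hv, hrel, hnn⟩ := param D l n hD hk hn
  have hNE : NoExact (QQ p₁ p₂) (a * a') := by
    rw [← hnn]
    intro q hq hQ hqn
    rcases hQ with h | h
    · exact exact_cond D l n hD hk p₁ hp₁ h₁ q hq h hqn
    · exact exact_cond D l n hD hk p₂ hp₂ h₂ q hq h hqn
  have hv1 : Fintype.card G - 1 = α * β := by omega
  rw [hv1]
  have hX' : α * β ≤ X := by omega
  rcases lt_trichotomy α β with h | h | h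
  · exact mem_Bm_of_lt _ X α β a a' hα h ha ha' hrel hNE hX'
  · exfalso
    rw [← h] at hrel
    have h1 : α ∣ α * α + 1 := by rw [← hrel]; exact dvd_add (dvd_mul_right _ _) (dvd_mul_right _ _)
    have h2 : α ∣ 1 := (Nat.dvd_add_right (dvd_mul_right α α)).1 h1
    have h3 := Nat.dvd_one.1 h2
    omega
  · rw [mul_comm α β]
    refine mem_Bm_of_lt _ X β α a' a hβ h ha' ha ?_ ?_ (by rw [mul_comm]; exact hX')
    · rw [mul_comm β α]; omega
    · rw [mul_comm]; exact hNE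

/-- finite sets of large primes that divide almost all integers -/
theorem exists_primes (N : ℕ) (ε : ℝ) (hε : 0 < ε) : ∃ S : Finset ℕ, (∀ p ∈ S, p.Prime ∧ N < p) ∧
    ∃ M : ℕ, ∀ X : ℕ, (((Icc 1 X).filter (fun v => ∀ p ∈ S, ¬ p ∣ v)).card : ℝ) ≤ ε * X + M := by
  obtain ⟨C, hC⟩ : ∃ C : ℝ, ∀ z : ℕ, 2 ≤ z → Real.log (Real.log z) - C ≤ ∑ q ∈ z.primesBelow, (1 : ℝ) / q :=
    ⟨3 / 2, fun z hz => by
      have := Pool.MP_67663b_nt.Mert.sum_inv_ge z hz
      linarith⟩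
  set C2 : ℝ := ∑ q ∈ (N + 1).primesBelow, (1 : ℝ) / q with hC2
  have htend : Filter.Tendsto (fun z : ℕ => Real.log (Real.log z)) Filter.atTop Filter.atTop :=
    Real.tendsto_log_atTop.comp (Real.tendsto_log_atTop.comp tendsto_natCast_atTop_atTop)
  obtain ⟨z, hz⟩ := ((htend.eventually_ge_atTop (C + C2 - Real.log ε)).and
    (Filter.eventually_ge_atTop 2)).exists
  set S : Finset ℕ := z.primesBelow.filter (fun p => N < p) with hS
  have hSp : ∀ p ∈ S, p.Prime := fun p hp => Nat.prime_of_mem_primesBelow (mem_filter.1 hp).1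
  have hsum : -Real.log ε ≤ ∑ q ∈ S, (1 : ℝ) / q := by
    have h1 := hC z hz.2
    have h2 : ∑ q ∈ z.primesBelow, (1 : ℝ) / q ≤ ∑ q ∈ S, (1 : ℝ) / q + C2 := by
      rw [← Finset.sum_filter_add_sum_filter_not z.primesBelow (fun p => N < p)]
      have h3 : ∑ q ∈ z.primesBelow.filter (fun p => ¬ N < p), (1 : ℝ) / q ≤ C2 := by
        refine Finset.sum_le_sum_of_subset_of_nonneg ?_ (fun q _ _ => by positivity)
        intro q hq
        rw [mem_filter] at hq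
        rw [Nat.mem_primesBelow]
        exact ⟨by omega, Nat.prime_of_mem_primesBelow hq.1⟩
      linarith
    linarith [hz.1]
  set M := ∏ p ∈ S, p with hM
  have hM0 : M ≠ 0 := Finset.prod_ne_zero_iff.2 fun p hp => (hSp p hp).ne_zero
  have hMpos : (0 : ℝ) < M := by exact_mod_cast Nat.pos_of_ne_zero hM0
  have hpf : M.primeFactors = S := Nat.primeFactors_prod hSp
  have htot : (Nat.totient M : ℝ) ≤ ε * M := by
    have h1 := Nat.totient_eq_mul_prod_factors M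
    rw [hpf] at h1
    have h2 : (Nat.totient M : ℝ) = M * ∏ p ∈ S, (1 - ((p : ℝ))⁻¹) := by
      have := congrArg (fun x : ℚ => (x : ℝ)) h1
      push_cast at this
      exact this
    have h3 : ∏ p ∈ S, (1 - ((p : ℝ))⁻¹) ≤ ε := by
      calc ∏ p ∈ S, (1 - ((p : ℝ))⁻¹) ≤ ∏ p ∈ S, Real.exp (-(1 / (p : ℝ))) := by
            refine Finset.prod_le_prod (fun p hp => ?_) (fun p _ => ?_)
            · have : (1 : ℝ) ≤ p := by exact_mod_cast (hSp p hp).one_le
              have := inv_le_one_of_one_le₀ this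
              linarith
            · rw [← one_div]; exact Real.one_sub_le_exp_neg _
        _ = Real.exp (-(∑ p ∈ S, 1 / (p : ℝ))) := by
            rw [← Real.exp_sum, Finset.sum_neg_distrib]
        _ ≤ Real.exp (Real.log ε) := by
            rw [Real.exp_le_exp]; linarith
        _ = ε := Real.exp_log hε
    rw [h2, mul_comm ε]
    exact mul_le_mul_of_nonneg_left h3 hMpos.le
  refine ⟨S, fun p hp => ⟨hSp p hp, (mem_filter.1 hp).2⟩, M, fun X => ?_⟩
  have h1 := Nat.Ico_filter_coprime_le (a := M) 1 X hM0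
  have h2 : (Icc 1 X).filter (fun v => ∀ p ∈ S, ¬ p ∣ v) ⊆ (Ico 1 (1 + X)).filter (fun x => M.Coprime x) := by
    intro v hv
    rw [mem_filter, mem_Icc] at hv
    rw [mem_filter, mem_Ico]
    refine ⟨by omega, ?_⟩
    rw [hM, Nat.coprime_prod_left_iff]
    intro p hp
    exact ((hSp p hp).coprime_iff_not_dvd).2 (hv.2 p hp)
  have h3 : (((Icc 1 X).filter (fun v => ∀ p ∈ S, ¬ p ∣ v)).card : ℝ) ≤ (Nat.totient M : ℝ) * ((X / M : ℕ) + 1) := by
    exact_mod_cast (card_le_card h2).trans h1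
  have h4 : ((X / M : ℕ) : ℝ) ≤ X / M := Nat.cast_div_le
  have h5 : (Nat.totient M : ℝ) ≤ M := by exact_mod_cast Nat.totient_le M
  have hX0 : (0 : ℝ) ≤ X := Nat.cast_nonneg X
  calc _ ≤ _ := h3
    _ ≤ (Nat.totient M : ℝ) * (X / M + 1) := mul_le_mul_of_nonneg_left (by linarith) (Nat.cast_nonneg _)
    _ = (Nat.totient M : ℝ) * (X / M) + (Nat.totient M : ℝ) := by ring
    _ ≤ (ε * M) * (X / M) + M := by
        refine add_le_add (mul_le_mul_of_nonneg_right htot (by positivity)) h5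
    _ = ε * X + M := by
        field_simp

/-- `v` is the order of a finite abelian group with a nontrivial difference set -/
def BadV (v : ℕ) : Prop := ∃ (G : Type) (_ : AddCommGroup G) (_ : Fintype G) (_ : DecidableEq G)
  (D : Finset G) (l n : ℕ), (∀ g : G, g ≠ 0 → ((D ×ˢ D).filter (fun x => x.1 - x.2 = g)).card = l) ∧
    D.card = n + l ∧ 2 ≤ n ∧ Fintype.card G = v

open Classical in
theorem badV_small (ε : ℝ) (hε : 0 < ε) : ∃ X0 : ℕ, ∀ X : ℕ, X0 ≤ X →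
    (((Icc 1 X).filter BadV).card : ℝ) ≤ ε * X := by
  obtain ⟨S1, hS1, M1, hM1⟩ := exists_primes 2 (ε / 5) (by positivity)
  obtain ⟨S2, hS2, M2, hM2⟩ := exists_primes (max 2 (S1.sup id)) (ε / 5) (by positivity)
  set K : ℕ := S1.card * S2.card + 1 with hK
  have hKpos : (0 : ℝ) < K := by exact_mod_cast Nat.succ_pos _
  have hδ : 0 < ε / (5 * K) := by positivity
  have hpair : ∀ x ∈ S1 ×ˢ S2, ∃ X0 : ℕ, ∀ X : ℕ, X0 ≤ X → ((Bm (QQ x.1 x.2) X).card : ℝ) ≤ ε / (5 * K) * X := by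
    intro x hx
    rw [mem_product] at hx
    have h1 := hS1 x.1 hx.1
    have h2 := hS2 x.2 hx.2
    have h3 : x.1 ≤ S1.sup id := Finset.le_sup (f := id) hx.1
    have h4 := lt_of_le_of_lt (le_max_right _ _) h2.2
    have h5 := lt_of_le_of_lt (le_max_left _ _) h2.2
    exact Bm_small (reP_QQ_ge x.1 x.2 h1.1 h2.1 (by omega) (by omega) (by omega)) _ hδ
  choose! F hF using hpair
  set Y := (S1 ×ˢ S2).sup F with hY
  obtain ⟨Z, hZ⟩ := exists_nat_ge ((M1 + M2 : ℝ) / (ε / 5))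
  refine ⟨max Y Z, fun X hX => ?_⟩
  have hX0 : (0 : ℝ) ≤ X := Nat.cast_nonneg X
  have hcover : (Icc 1 X).filter BadV ⊆ ((Icc 1 X).filter (fun v => ∀ p ∈ S1, ¬ p ∣ v) ∪
      (Icc 1 X).filter (fun v => ∀ p ∈ S2, ¬ p ∣ v)) ∪
      ((S1 ×ˢ S2).biUnion (fun x => Bm (QQ x.1 x.2) X)).image (fun m => m + 1) := by
    intro v hv
    rw [mem_filter] at hv
    obtain ⟨hvI, G, i1, i2, i3, D, l, n, hD, hk, hn, hcard⟩ := hv
    rw [mem_Icc] at hvI
    rw [mem_union, mem_union]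
    by_cases h1 : ∀ p ∈ S1, ¬ p ∣ v
    · exact Or.inl (Or.inl (mem_filter.2 ⟨mem_Icc.2 hvI, h1⟩))
    · by_cases h2 : ∀ p ∈ S2, ¬ p ∣ v
      · exact Or.inl (Or.inr (mem_filter.2 ⟨mem_Icc.2 hvI, h2⟩))
      · push Not at h1 h2
        obtain ⟨p₁, hp₁, hd₁⟩ := h1
        obtain ⟨p₂, hp₂, hd₂⟩ := h2
        refine Or.inr (mem_image.2 ⟨v - 1, ?_, by omega⟩)
        rw [mem_biUnion]
        refine ⟨⟨p₁, p₂⟩, mem_product.2 ⟨hp₁, hp₂⟩, ?_⟩
        have h3 := mem_Bm D l n hD hk hn p₁ p₂ (hS1 p₁ hp₁).1 (hS2 p₂ hp₂).1 (by rw [hcard]; exact hd₁)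
          (by rw [hcard]; exact hd₂) X (by rw [hcard]; exact hvI.2)
        rw [hcard] at h3
        exact h3
  have hc := (card_le_card hcover).trans ((card_union_le _ _).trans (Nat.add_le_add (card_union_le _ _)
    (card_image_le.trans card_biUnion_le)))
  have hc' : (((Icc 1 X).filter BadV).card : ℝ) ≤ ((((Icc 1 X).filter (fun v => ∀ p ∈ S1, ¬ p ∣ v)).card : ℝ) +
      (((Icc 1 X).filter (fun v => ∀ p ∈ S2, ¬ p ∣ v)).card : ℝ)) +
      ∑ x ∈ S1 ×ˢ S2, ((Bm (QQ x.1 x.2) X).card : ℝ) := by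
    exact_mod_cast hc
  have h3 : ∑ x ∈ S1 ×ˢ S2, ((Bm (QQ x.1 x.2) X).card : ℝ) ≤ ε / 5 * X := by
    have h4 : ∀ x ∈ S1 ×ˢ S2, ((Bm (QQ x.1 x.2) X).card : ℝ) ≤ ε / (5 * K) * X := by
      intro x hx
      refine hF x hx X ?_
      exact (Finset.le_sup hx).trans ((le_max_left _ _).trans hX)
    refine (Finset.sum_le_sum h4).trans ?_
    rw [Finset.sum_const, nsmul_eq_mul, card_product]
    have h5 : (((S1.card * S2.card : ℕ)) : ℝ) ≤ K := by exact_mod_cast (by omega)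
    calc (((S1.card * S2.card : ℕ)) : ℝ) * (ε / (5 * K) * X) ≤ K * (ε / (5 * K) * X) :=
          mul_le_mul_of_nonneg_right h5 (by positivity)
      _ = ε / 5 * X := by field_simp
  have h4 : (M1 + M2 : ℝ) ≤ ε / 5 * X := by
    have h5 : (Z : ℝ) ≤ X := by exact_mod_cast (le_max_right _ _).trans hX
    have h6 := hZ.trans h5
    rw [div_le_iff₀ (by positivity)] at h6
    linarith
  have h5 := hM1 X
  have h6 := hM2 X
  nlinarith

theorem density_zero : Filter.Tendsto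
    (fun X : ℕ => (({v : ℕ | 1 ≤ v ∧ v ≤ X ∧ BadV v}.ncard : ℕ) : ℝ) / X) Filter.atTop (nhds 0) := by
  classical
  have hset : ∀ X : ℕ, ({v : ℕ | 1 ≤ v ∧ v ≤ X ∧ BadV v}.ncard : ℕ) = ((Icc 1 X).filter BadV).card := by
    intro X
    rw [← Set.ncard_coe_finset]
    congr 1
    ext v
    simp [and_assoc]
  rw [Metric.tendsto_atTop]
  intro ε hε
  obtain ⟨X0, hX0⟩ := badV_small (ε / 2) (by positivity)
  refine ⟨max X0 1, fun X hX => ?_⟩
  have hXpos : (0 : ℝ) < X := by exact_mod_cast (by have := (le_max_right _ _).trans hX; omega : 0 < X)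
  rw [Real.dist_eq, sub_zero, hset, abs_of_nonneg (by positivity), div_lt_iff₀ hXpos]
  have := hX0 X ((le_max_left _ _).trans hX)
  nlinarith

end Pool.Agent.Lib.MP_f4ebb7_co.V
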